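import Mathlib

set_option autoImplicit false
set_option linter.unusedSectionVars false

namespace Pool.Agent.Helper3.Lie

open Topology Filter Set NormedSpace

variable {E : Type*} [NormedRing E] [NormedAlgebra ℝ E] [CompleteSpace E]

theorem exp_cont : Continuous (exp : E → E) := by
  let _ := NormedAlgebra.restrictScalars ℚ ℝ E
  exact exp_continuous

theorem exp_add' {x y : E} (h : Commute x y) : exp (x + y) = exp x * exp y := by
  let _ := NormedAlgebra.restrictScalars ℚ ℝ E
  exact exp_add_of_commute h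

theorem exp_nsmul' (n : ℕ) (x : E) : exp (n • x) = exp x ^ n := by
  let _ := NormedAlgebra.restrictScalars ℚ ℝ E
  exact exp_nsmul n x

theorem exp_conj' (y : Eˣ) (x : E) : exp (y * x * ↑y⁻¹ : E) = y * exp x * ↑y⁻¹ := by
  let _ := NormedAlgebra.restrictScalars ℚ ℝ E
  exact exp_units_conj y x

theorem exp_neg_mul (x : E) : exp (-x) * exp x = 1 := by
  rw [← exp_add' (Commute.refl x).neg_left, neg_add_cancel, exp_zero]

theorem exp_mul_neg (x : E) : exp x * exp (-x) = 1 := by
  rw [← exp_add' (Commute.refl x).neg_right, add_neg_cancel, exp_zero]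

/-- closed matrix group. -/
structure ClosedGp (E : Type*) [NormedRing E] where
  K : Submonoid E
  closed : IsClosed (K : Set E)
  inv : ∀ x ∈ K, ∃ y ∈ K, x * y = 1

variable (S : ClosedGp E)

/-- The Lie algebra as a set. -/
def lie : Set E := {X | ∀ t : ℝ, exp (t • X) ∈ S.K}

theorem mem_lie (X : E) : X ∈ lie S ↔ ∀ t : ℝ, exp (t • X) ∈ S.K := Iff.rfl

theorem exp_neg_mem {X : E} (h : exp X ∈ S.K) : exp (-X) ∈ S.K := by
  obtain ⟨y, hy, hxy⟩ := S.inv _ h
  have : exp (-X) = y := by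
    calc exp (-X) = exp (-X) * (exp X * y) := by rw [hxy, mul_one]
      _ = y := by rw [← mul_assoc, exp_neg_mul, one_mul]
  rwa [this]

theorem key (Z : ℕ → E) (c : ℕ → ℝ) (hc : ∀ n, 0 ≤ c n) (hZ : Tendsto Z atTop (𝓝 0))
    (hexp : ∀ n, exp (Z n) ∈ S.K) (X : E) (hlim : Tendsto (fun n => c n • Z n) atTop (𝓝 X)) :
    X ∈ lie S := by
  have hpos : ∀ t : ℝ, 0 ≤ t → exp (t • X) ∈ S.K := by
    intro t ht
    have h1 : Tendsto (fun n => (⌊t * c n⌋₊ : ℕ) • Z n) atTop (𝓝 (t • X)) := by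
      have h2 : Tendsto (fun n => t • (c n • Z n)) atTop (𝓝 (t • X)) := hlim.const_smul t
      have h3 : Tendsto (fun n => (⌊t * c n⌋₊ : ℕ) • Z n - t • (c n • Z n)) atTop (𝓝 0) := by
        apply squeeze_zero_norm (a := fun n => ‖Z n‖) _ (by simpa using hZ.norm)
        intro n
        have e : (⌊t * c n⌋₊ : ℕ) • Z n - t • (c n • Z n) =
            ((⌊t * c n⌋₊ : ℝ) - t * c n) • Z n := by
          rw [sub_smul, mul_smul, Nat.cast_smul_eq_nsmul]
        rw [e, norm_smul]
        have h4 : ‖(⌊t * c n⌋₊ : ℝ) - t * c n‖ ≤ 1 := by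
          have h5 := Nat.floor_le (mul_nonneg ht (hc n))
          have h6 := Nat.lt_floor_add_one (t * c n)
          rw [Real.norm_eq_abs, abs_le]
          constructor <;> linarith
        exact mul_le_of_le_one_left (norm_nonneg _) h4
      have := h2.add h3
      simpa using this
    have h2 : Tendsto (fun n => exp ((⌊t * c n⌋₊ : ℕ) • Z n)) atTop (𝓝 (exp (t • X))) :=
      (exp_cont.tendsto _).comp h1
    refine S.closed.mem_of_tendsto h2 (Eventually.of_forall fun n => ?_)
    rw [exp_nsmul']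
    exact S.K.pow_mem (hexp n) _
  intro t
  rcases le_total 0 t with ht | ht
  · exact hpos t ht
  · have := exp_neg_mem S (hpos (-t) (by linarith))
    rwa [neg_smul, neg_neg] at this

theorem smul_mem (c : ℝ) {X : E} (h : X ∈ lie S) : c • X ∈ lie S := by
  intro t
  rw [smul_smul]
  exact h _

theorem zero_mem : (0 : E) ∈ lie S := by
  intro t
  rw [smul_zero, exp_zero]
  exact S.K.one_mem

theorem hasStrict : HasStrictFDerivAt (exp : E → E)
    ((ContinuousLinearEquiv.refl ℝ E : E ≃L[ℝ] E) : E →L[ℝ] E) 0 :=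
  hasStrictFDerivAt_exp_zero

theorem add_mem {X Y : E} (hX : X ∈ lie S) (hY : Y ∈ lie S) : X + Y ∈ lie S := by
  set g : E → E := (hasStrict (E := E)).localInverse exp _ 0 with hg
  have hg1 : ∀ᶠ y in 𝓝 (1 : E), exp (g y) = y := by
    have := (hasStrict (E := E)).eventually_right_inverse
    rwa [exp_zero] at this
  have hg0 : g 1 = 0 := by
    have := (hasStrict (E := E)).localInverse_apply_image
    rwa [exp_zero] at this
  have hgd : HasFDerivAt g ((ContinuousLinearEquiv.refl ℝ E : E ≃L[ℝ] E) : E →L[ℝ] E) 1 := by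
    have := (hasStrict (E := E)).to_localInverse.hasFDerivAt
    rw [exp_zero] at this
    exact this
  set γ : ℝ → E := fun t => exp (t • X) * exp (t • Y) with hγ
  have hγ0 : γ 0 = 1 := by simp [hγ]
  have hγd : HasDerivAt γ (X + Y) 0 := by
    have h1 := hasDerivAt_exp_smul_const (𝕂 := ℝ) X 0
    have h2 := hasDerivAt_exp_smul_const (𝕂 := ℝ) Y 0
    have h3 := h1.fun_mul h2
    simpa using h3
  have hh : HasDerivAt (fun t => g (γ t)) (X + Y) 0 := by
    have h4 : HasFDerivAt g ((ContinuousLinearEquiv.refl ℝ E : E ≃L[ℝ] E) : E →L[ℝ] E) (γ 0) := by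
      rw [hγ0]; exact hgd
    exact h4.comp_hasDerivAt 0 hγd
  have hslope := hh.tendsto_slope_zero
  simp only [zero_add, hγ0, hg0, sub_zero] at hslope
  have hseq : Tendsto (fun n : ℕ => (1 : ℝ) / (n + 1)) atTop (𝓝[≠] 0) := by
    rw [tendsto_nhdsWithin_iff]
    refine ⟨tendsto_one_div_add_atTop_nhds_zero_nat, Eventually.of_forall fun n => ?_⟩
    have : (0:ℝ) < 1 / (n + 1) := by positivity
    exact this.ne'
  have hlim := hslope.comp hseq
  -- the sequence
  have hcont : Tendsto (fun n : ℕ => γ (1 / ((n : ℝ) + 1))) atTop (𝓝 1) := by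
    have := (hγd.continuousAt.tendsto).comp (tendsto_nhdsWithin_iff.mp hseq).1
    rwa [hγ0] at this
  have hZ0 : Tendsto (fun n : ℕ => g (γ (1 / ((n : ℝ) + 1)))) atTop (𝓝 0) := by
    have := (hgd.continuousAt.tendsto).comp hcont
    rwa [hg0] at this
  have hev : ∀ᶠ n : ℕ in atTop, exp (g (γ (1 / ((n : ℝ) + 1)))) ∈ S.K := by
    filter_upwards [hcont.eventually hg1] with n hn
    rw [hn]
    exact S.K.mul_mem (hX _) (hY _)
  obtain ⟨N, hN⟩ := eventually_atTop.mp hev
  apply key S (fun n => g (γ (1 / (((n + N : ℕ) : ℝ) + 1)))) (fun n => (((n + N : ℕ) : ℝ) + 1))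
    (fun n => by positivity)
  · exact hZ0.comp (tendsto_add_atTop_nat N)
  · intro n
    exact hN (n + N) (by omega)
  · have := hlim.comp (tendsto_add_atTop_nat N)
    refine this.congr fun n => ?_
    simp

/-- the Lie algebra as a subspace. -/
def lieSub : Submodule ℝ E where
  carrier := lie S
  add_mem' := add_mem S
  zero_mem' := zero_mem S
  smul_mem' := fun c _ h => smul_mem S c h

theorem mem_lieSub (X : E) : X ∈ lieSub S ↔ ∀ t : ℝ, exp (t • X) ∈ S.K := Iff.rfl

theorem conj_mem (u : Eˣ) (hu : (u : E) ∈ S.K) (hu' : ((u⁻¹ : Eˣ) : E) ∈ S.K) {X : E}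
    (hX : X ∈ lieSub S) : (u : E) * X * ((u⁻¹ : Eˣ) : E) ∈ lieSub S := by
  intro t
  have : t • ((u : E) * X * ((u⁻¹ : Eˣ) : E)) = (u : E) * (t • X) * ((u⁻¹ : Eˣ) : E) := by
    simp
  rw [this, exp_conj']
  exact S.K.mul_mem (S.K.mul_mem hu (hX t)) hu'

/-- `exp X` as a unit. -/
noncomputable def expU (X : E) : Eˣ := ⟨exp X, exp (-X), exp_mul_neg X, exp_neg_mul X⟩

section fd

variable [FiniteDimensional ℝ E]

theorem bracket_mem {X Y : E} (hX : X ∈ lieSub S) (hY : Y ∈ lieSub S) :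
    X * Y - Y * X ∈ lieSub S := by
  have hmem : ∀ t : ℝ, exp (t • X) * Y * exp (-(t • X)) ∈ lieSub S := by
    intro t
    have := conj_mem S (expU (t • X)) (hX t) (exp_neg_mem S (hX t)) hY
    exact this
  have hd : HasDerivAt (fun t : ℝ => exp (t • X) * Y * exp (-(t • X))) (X * Y - Y * X) 0 := by
    have h1 := (hasDerivAt_exp_smul_const (𝕂 := ℝ) X 0).mul_const Y
    have h2 : HasDerivAt (fun t : ℝ => exp (-(t • X))) (exp ((0:ℝ) • (-X)) * (-X)) 0 := by
      have := hasDerivAt_exp_smul_const (𝕂 := ℝ) (-X) 0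
      simpa using this
    have h3 := h1.fun_mul h2
    have e : exp ((0:ℝ) • X) * X * Y * exp (-((0:ℝ) • X)) +
        exp ((0:ℝ) • X) * Y * (exp ((0:ℝ) • (-X)) * (-X)) = X * Y - Y * X := by
      simp [sub_eq_add_neg]
    rw [e] at h3
    exact h3
  have hslope := hd.tendsto_slope_zero
  have hclosed : IsClosed (lieSub S : Set E) := (lieSub S).closed_of_finiteDimensional
  refine hclosed.mem_of_tendsto hslope (Eventually.of_forall fun t => ?_)
  exact (lieSub S).smul_mem _ ((lieSub S).sub_mem (hmem _) (hmem _))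

/-- **Closed subgroup theorem**: near the identity, the group is the image of its Lie algebra. -/
theorem closed_subgroup : ∃ W ∈ 𝓝 (1 : E), ∀ k ∈ S.K, k ∈ W → ∃ X ∈ lieSub S, exp X = k := by
  by_contra hcon
  push Not at hcon
  obtain ⟨P, hP⟩ := (lieSub S).exists_isCompl
  -- the local diffeomorphism
  let Φ : lieSub S × P → E := fun p => exp (p.1 : E) * exp (p.2 : E)
  let L : (lieSub S × P) ≃L[ℝ] E := ((lieSub S).prodEquivOfIsCompl P hP).toContinuousLinearEquiv
  have hL : ∀ p, L p = (p.1 : E) + p.2 := fun p => rfl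
  have hΦ0 : Φ 0 = 1 := by simp [Φ]
  have hΦ : HasStrictFDerivAt Φ (L : (lieSub S × P) →L[ℝ] E) 0 := by
    have h1 : HasStrictFDerivAt (fun p : lieSub S × P => exp (p.1 : E))
        ((lieSub S).subtypeL.comp (ContinuousLinearMap.fst ℝ (lieSub S) P)) 0 := by
      have h2 : HasStrictFDerivAt (fun p : lieSub S × P => (p.1 : E))
          ((lieSub S).subtypeL.comp (ContinuousLinearMap.fst ℝ (lieSub S) P)) 0 :=
        ((lieSub S).subtypeL.comp (ContinuousLinearMap.fst ℝ (lieSub S) P)).hasStrictFDerivAt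
      have h3 : HasStrictFDerivAt (exp : E → E)
          ((ContinuousLinearEquiv.refl ℝ E : E ≃L[ℝ] E) : E →L[ℝ] E)
          ((fun p : lieSub S × P => (p.1 : E)) 0) := hasStrict
      exact h3.comp (0 : lieSub S × P) h2
    have h1' : HasStrictFDerivAt (fun p : lieSub S × P => exp (p.2 : E))
        (P.subtypeL.comp (ContinuousLinearMap.snd ℝ (lieSub S) P)) 0 := by
      have h2 : HasStrictFDerivAt (fun p : lieSub S × P => (p.2 : E))
          (P.subtypeL.comp (ContinuousLinearMap.snd ℝ (lieSub S) P)) 0 :=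
        (P.subtypeL.comp (ContinuousLinearMap.snd ℝ (lieSub S) P)).hasStrictFDerivAt
      have h3 : HasStrictFDerivAt (exp : E → E)
          ((ContinuousLinearEquiv.refl ℝ E : E ≃L[ℝ] E) : E →L[ℝ] E)
          ((fun p : lieSub S × P => (p.2 : E)) 0) := hasStrict
      exact h3.comp (0 : lieSub S × P) h2
    have h4 := h1.fun_mul' h1'
    have e : (exp ((0 : lieSub S × P).1 : E) •
        (P.subtypeL.comp (ContinuousLinearMap.snd ℝ (lieSub S) P)) +
        MulOpposite.op (exp ((0 : lieSub S × P).2 : E)) •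
          ((lieSub S).subtypeL.comp (ContinuousLinearMap.fst ℝ (lieSub S) P))) =
        (L : (lieSub S × P) →L[ℝ] E) := by
      apply ContinuousLinearMap.ext
      rintro ⟨X, Y⟩
      have e2 : (L : (lieSub S × P) →L[ℝ] E) (X, Y) = (X : E) + Y := hL _
      rw [e2]
      simp [add_comm]
    rw [e] at h4
    exact h4
  have hmap : map Φ (𝓝 0) = 𝓝 (1 : E) := by
    rw [← hΦ0]
    exact hΦ.map_nhds_eq_of_equiv
  have hfreq : ∃ᶠ p in 𝓝 (0 : lieSub S × P), Φ p ∈ S.K ∧ ∀ X ∈ lieSub S, exp X ≠ Φ p := by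
    have h1 : ∃ᶠ k in 𝓝 (1 : E), k ∈ S.K ∧ ∀ X ∈ lieSub S, exp X ≠ k := by
      rw [frequently_iff]
      intro W hW
      obtain ⟨k, hk, hkW, hk2⟩ := hcon W hW
      exact ⟨k, hkW, hk, hk2⟩
    rw [← hmap] at h1
    exact frequently_map.mp h1
  obtain ⟨p, hp, hpK⟩ := exists_seq_forall_of_frequently hfreq
  have hp1 : Tendsto (fun n => (p n).1) atTop (𝓝 0) := (continuous_fst.tendsto _).comp hp
  have hp2 : Tendsto (fun n => (p n).2) atTop (𝓝 0) := (continuous_snd.tendsto _).comp hp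
  have hne : ∀ n, (p n).2 ≠ 0 := by
    intro n h0
    have h1 : Φ (p n) = exp ((p n).1 : E) := by
      simp only [Φ, h0]
      simp
    exact (hpK n).2 _ (p n).1.2 h1.symm
  have hexp : ∀ n, exp ((p n).2 : E) ∈ S.K := by
    intro n
    have h1 : exp ((p n).2 : E) = exp (-((p n).1 : E)) * Φ (p n) := by
      simp only [Φ]
      rw [← mul_assoc, exp_neg_mul, one_mul]
    rw [h1]
    have h2 : exp ((p n).1 : E) ∈ S.K := by
      have := (p n).1.2 1
      rwa [one_smul] at this
    exact S.K.mul_mem (exp_neg_mem S h2) (hpK n).1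
  -- normalised directions
  have hsph : ∀ n, (‖(p n).2‖⁻¹ • (p n).2 : P) ∈ Metric.sphere (0 : P) 1 := by
    intro n
    rw [mem_sphere_zero_iff_norm, norm_smul, norm_inv, norm_norm, inv_mul_cancel₀]
    exact norm_ne_zero_iff.mpr (hne n)
  have : ProperSpace P := FiniteDimensional.proper ℝ P
  obtain ⟨Y, hY, φ, hφ, hlim⟩ := (isCompact_sphere (0 : P) 1).tendsto_subseq hsph
  have hYl : (Y : E) ∈ lieSub S := by
    apply key S (fun n => ((p (φ n)).2 : E)) (fun n => ‖(p (φ n)).2‖⁻¹) (fun n => by positivity)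
    · have h1 := (continuous_subtype_val.tendsto (0 : P)).comp (hp2.comp hφ.tendsto_atTop)
      exact h1
    · intro n
      exact hexp (φ n)
    · have h1 := (continuous_subtype_val.tendsto Y).comp hlim
      exact h1
  have hY0 : (Y : E) = 0 := by
    have h1 : (Y : E) ∈ lieSub S ⊓ P := ⟨hYl, Y.2⟩
    rw [hP.inf_eq_bot] at h1
    exact h1
  have hY1 : Y = 0 := Subtype.ext hY0
  rw [hY1] at hY
  simp at hY

end fd

end Pool.Agent.Helper3.Lie
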