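import Mathlib

set_option autoImplicit false

namespace Pool.Agent.Helper3.Circ

open Set Topology Filter WithLp
open scoped Manifold ContDiff

/-- The circle `ℝ / 2πℤ`. -/
def Circ : Type := AddCircle (2 * Real.pi)

local instance fct : Fact (0 < 2 * Real.pi) := ⟨Real.two_pi_pos⟩

instance : TopologicalSpace Circ := inferInstanceAs (TopologicalSpace (AddCircle (2 * Real.pi)))
instance : T2Space Circ := inferInstanceAs (T2Space (AddCircle (2 * Real.pi)))
instance : CompactSpace Circ := inferInstanceAs (CompactSpace (AddCircle (2 * Real.pi)))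
instance : ConnectedSpace Circ := inferInstanceAs (ConnectedSpace (AddCircle (2 * Real.pi)))

/-- the projection. -/
noncomputable def pr (t : ℝ) : Circ := ((t : ℝ) : AddCircle (2 * Real.pi))

theorem pr_surjective : Function.Surjective pr := QuotientAddGroup.mk_surjective

theorem pr_continuous : Continuous pr := AddCircle.continuous_mk' (2 * Real.pi)

theorem pr_eq_iff (s t : ℝ) : pr s = pr t ↔ ∃ m : ℤ, t = s + 2 * Real.pi * m := by
  have e : pr s = pr t ↔ ((s : AddCircle (2 * Real.pi)) = (t : AddCircle (2 * Real.pi))) := Iff.rfl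
  rw [e, eq_comm, ← sub_eq_zero, ← AddCircle.coe_sub, AddCircle.coe_eq_zero_iff]
  constructor
  · rintro ⟨n, hn⟩
    refine ⟨n, ?_⟩
    rw [zsmul_eq_mul] at hn
    linarith
  · rintro ⟨n, hn⟩
    refine ⟨n, ?_⟩
    rw [zsmul_eq_mul, hn]
    ring

theorem nhds_pr (t : ℝ) : 𝓝 (pr t) = map pr (𝓝 t) := QuotientAddGroup.nhds_eq _ t

/-- translation chart from the line to the half line. -/
noncomputable def shift (a : ℝ) : OpenPartialHomeomorph ℝ (EuclideanHalfSpace 1) where
  toFun t := ⟨toLp 2 fun _ => max (t - a) 0, by simp⟩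
  invFun z := z.val 0 + a
  source := Ioi a
  target := {z | 0 < z.val 0}
  map_source' := by
    intro t ht
    have : a < t := ht
    simp [this]
  map_target' := by
    intro z hz
    have : 0 < z.val 0 := hz
    show a < z.val 0 + a
    linarith
  left_inv' := by
    intro t ht
    have : a < t := ht
    simp [this.le]
  right_inv' := by
    intro z hz
    have : 0 < z.val 0 := hz
    apply Subtype.ext
    ext i
    rw [Subsingleton.elim i 0]
    simp [this.le]
  open_source := isOpen_Ioi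
  open_target := by
    have : IsOpen { z : ℝ | 0 < z } := isOpen_Ioi
    have : IsOpen { z : EuclideanSpace ℝ (Fin 1) | 0 < z 0 } :=
      this.preimage (@PiLp.continuous_apply 2 (Fin 1) (fun _ => ℝ) _ 0)
    exact this.preimage continuous_subtype_val
  continuousOn_toFun := by
    apply Continuous.continuousOn
    fun_prop
  continuousOn_invFun := by
    apply Continuous.continuousOn
    fun_prop

/-- the chart of the circle centred at `a + π`. -/
noncomputable def ch (a : ℝ) : OpenPartialHomeomorph Circ (EuclideanHalfSpace 1) :=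
  ((AddCircle.openPartialHomeomorphCoe (2 * Real.pi) a).symm : OpenPartialHomeomorph Circ ℝ).trans (shift a)

theorem ch_apply (a t : ℝ) (ht : t ∈ Ioo a (a + 2 * Real.pi)) :
    ch a (pr t) = ⟨toLp 2 fun _ => t - a, by simpa using ht.1.le⟩ := by
  have h1 : (AddCircle.openPartialHomeomorphCoe (2 * Real.pi) a).symm
      ((AddCircle.openPartialHomeomorphCoe (2 * Real.pi) a) t) = t :=
    (AddCircle.openPartialHomeomorphCoe (2 * Real.pi) a).left_inv ht
  have h2 : ch a (pr t) = shift a ((AddCircle.openPartialHomeomorphCoe (2 * Real.pi) a).symm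
      ((AddCircle.openPartialHomeomorphCoe (2 * Real.pi) a) t)) := rfl
  rw [h2, h1]
  apply Subtype.ext
  ext i
  have := ht.1.le
  simp [shift, this]

theorem ch_symm_apply (a : ℝ) (z : EuclideanHalfSpace 1) :
    (ch a).symm z = pr (z.val 0 + a) := rfl

theorem ch_source (a : ℝ) : (ch a).source = {pr a}ᶜ := by
  have h : (ch a).source = {pr a}ᶜ ∩ (AddCircle.openPartialHomeomorphCoe (2 * Real.pi) a).symm ⁻¹' (Ioi a) := rfl
  rw [h, inter_eq_left]
  intro p hp
  have := (AddCircle.openPartialHomeomorphCoe (2 * Real.pi) a).map_target hp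
  exact this.1

theorem exists_shift (b t : ℝ) (h : pr t ≠ pr b) :
    ∃ m : ℤ, t + 2 * Real.pi * m ∈ Ioo b (b + 2 * Real.pi) := by
  have hp := Real.two_pi_pos
  obtain ⟨m, hm, _⟩ := existsUnique_add_zsmul_mem_Ico hp t b
  rw [zsmul_eq_mul] at hm
  refine ⟨m, ?_⟩
  have e : t + 2 * Real.pi * m = t + m * (2 * Real.pi) := by ring
  rw [e]
  refine ⟨lt_of_le_of_ne hm.1 ?_, hm.2⟩
  intro h2
  apply h
  rw [pr_eq_iff]
  exact ⟨m, by rw [h2]; ring⟩

noncomputable def rep (p : Circ) : ℝ := Function.surjInv pr_surjective p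

theorem pr_rep (p : Circ) : pr (rep p) = p := Function.surjInv_eq pr_surjective p

theorem pr_ne (t : ℝ) : pr t ≠ pr (t - Real.pi) := by
  intro h
  rw [pr_eq_iff] at h
  obtain ⟨m, hm⟩ := h
  have hp := Real.pi_pos
  have h2 : Real.pi * (2 * m + 1) = 0 := by linarith
  have h3 : (2 * (m : ℝ) + 1) = 0 := by
    rcases mul_eq_zero.mp h2 with h | h
    · exact absurd h hp.ne'
    · exact h
  have h4 : (2 * m + 1 : ℤ) = 0 := by exact_mod_cast h3
  omega

noncomputable instance : ChartedSpace (EuclideanHalfSpace 1) Circ where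
  atlas := range ch
  chartAt p := ch (rep p - Real.pi)
  mem_chart_source p := by
    rw [ch_source]
    show p ≠ pr (rep p - Real.pi)
    conv_lhs => rw [← pr_rep p]
    exact pr_ne (rep p)
  chart_mem_atlas p := ⟨_, rfl⟩

theorem I_symm_val (u : EuclideanSpace ℝ (Fin 1)) (hu : 0 < u 0) :
    ((𝓡∂ 1).symm u).val 0 = u 0 := by
  rw [modelWithCornersEuclideanHalfSpace_symm_apply]
  simp [hu.le]

/-- local form of charts. -/
theorem ch_local (b t : ℝ) (h : pr t ≠ pr b) : ∃ m : ℤ, ∀ᶠ s in 𝓝 t,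
    ((𝓡∂ 1) (ch b (pr s)) : EuclideanSpace ℝ (Fin 1)) = toLp 2 fun _ => s + 2 * Real.pi * m - b := by
  obtain ⟨m, hm⟩ := exists_shift b t h
  refine ⟨m, ?_⟩
  have hc : ContinuousAt (fun s : ℝ => s + 2 * Real.pi * m) t := by fun_prop
  filter_upwards [hc.preimage_mem_nhds (isOpen_Ioo.mem_nhds hm)] with s hs
  have e : pr s = pr (s + 2 * Real.pi * m) := (pr_eq_iff _ _).mpr ⟨m, rfl⟩
  rw [e, ch_apply b _ hs]
  rfl

/-- A map of the circle with local lifts of class `C^k` is of class `C^k` in charts. -/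
theorem key (k : WithTop ℕ∞) (F : Circ → Circ) (a b t₀ : ℝ) (ht : t₀ ∈ Ioo a (a + 2 * Real.pi))
    (L : ℝ → ℝ) (hL : ContDiffAt ℝ k L t₀) (hF : ∀ᶠ t in 𝓝 t₀, F (pr t) = pr (L t))
    (hb : F (pr t₀) ≠ pr b) (u₀ : EuclideanSpace ℝ (Fin 1)) (hu₀ : u₀ 0 = t₀ - a) :
    ContDiffAt ℝ k (fun u : EuclideanSpace ℝ (Fin 1) =>
      (𝓡∂ 1) (ch b (F ((ch a).symm ((𝓡∂ 1).symm u))))) u₀ := by
  have hb' : pr (L t₀) ≠ pr b := by rwa [← hF.self_of_nhds]
  obtain ⟨m, hm⟩ := ch_local b (L t₀) hb'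
  have hu0 : 0 < u₀ 0 := by rw [hu₀]; linarith [ht.1]
  have hcoord : Continuous (fun u : EuclideanSpace ℝ (Fin 1) => u 0) := by fun_prop
  have hev : ∀ᶠ u : EuclideanSpace ℝ (Fin 1) in 𝓝 u₀, 0 < u 0 :=
    hcoord.continuousAt.eventually (isOpen_Ioi.mem_nhds hu0)
  have hc1 : ContinuousAt (fun u : EuclideanSpace ℝ (Fin 1) => u 0 + a) u₀ := by fun_prop
  have e0 : u₀ 0 + a = t₀ := by rw [hu₀]; ring
  have hF' : ∀ᶠ u : EuclideanSpace ℝ (Fin 1) in 𝓝 u₀, F (pr (u 0 + a)) = pr (L (u 0 + a)) := by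
    have : Tendsto (fun u : EuclideanSpace ℝ (Fin 1) => u 0 + a) (𝓝 u₀) (𝓝 t₀) := by
      have := hc1.tendsto
      rwa [e0] at this
    exact this.eventually hF
  have hm' : ∀ᶠ u : EuclideanSpace ℝ (Fin 1) in 𝓝 u₀,
      ((𝓡∂ 1) (ch b (pr (L (u 0 + a)))) : EuclideanSpace ℝ (Fin 1)) =
        toLp 2 fun _ => L (u 0 + a) + 2 * Real.pi * m - b := by
    have h1 : Tendsto (fun u : EuclideanSpace ℝ (Fin 1) => u 0 + a) (𝓝 u₀) (𝓝 t₀) := by
      have := hc1.tendsto
      rwa [e0] at this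
    exact (hL.continuousAt.tendsto.comp h1).eventually hm
  have hfin : ContDiffAt ℝ k (fun u : EuclideanSpace ℝ (Fin 1) =>
      (toLp 2 fun _ => L (u 0 + a) + 2 * Real.pi * m - b : EuclideanSpace ℝ (Fin 1))) u₀ := by
    rw [contDiffAt_euclidean]
    intro i
    have h2 : ContDiffAt ℝ k (fun u : EuclideanSpace ℝ (Fin 1) => u 0 + a) u₀ := by fun_prop
    have h3 : ContDiffAt ℝ k (fun u : EuclideanSpace ℝ (Fin 1) => L (u 0 + a)) u₀ := by
      apply ContDiffAt.comp (g := L)
      · rw [e0]; exact hL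
      · exact h2
    exact (h3.add contDiffAt_const).sub contDiffAt_const
  apply hfin.congr_of_eventuallyEq
  filter_upwards [hev, hF', hm'] with u h1 h2 h3
  rw [ch_symm_apply, I_symm_val u h1, h2, h3]

theorem ch_target (a : ℝ) (z : EuclideanHalfSpace 1) (hz : z ∈ (ch a).target) :
    z.val 0 + a ∈ Ioo a (a + 2 * Real.pi) := by
  have h : (ch a).target = (shift a).target ∩ (shift a).symm ⁻¹' (Ioo a (a + 2 * Real.pi)) := rfl
  rw [h] at hz
  exact hz.2

noncomputable instance : IsManifold (𝓡∂ 1) ((⊤ : ℕ∞) : WithTop ℕ∞) Circ := by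
  apply isManifold_of_contDiffOn
  rintro _ _ ⟨a, rfl⟩ ⟨b, rfl⟩ u hu
  apply ContDiffAt.contDiffWithinAt
  obtain ⟨hu1, hu2⟩ := hu
  have hz : (𝓡∂ 1).symm u ∈ (ch a).target := hu1.1
  have hzb : (ch a).symm ((𝓡∂ 1).symm u) ∈ (ch b).source := hu1.2
  have h1 := ch_target a _ hz
  have h0 : ((𝓡∂ 1).symm u).val 0 = u 0 := by
    have h2 : 0 ≤ u 0 := by
      rw [range_modelWithCornersEuclideanHalfSpace] at hu2
      exact hu2
    rw [modelWithCornersEuclideanHalfSpace_symm_apply]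
    simp [h2]
  rw [h0] at h1
  rw [ch_symm_apply, h0, ch_source] at hzb
  exact key _ id a b (u 0 + a) h1 id contDiffAt_id (Eventually.of_forall fun _ => rfl) hzb u
    (by ring)

theorem contMDiff_of_lift (k : WithTop ℕ∞) (F : Circ → Circ)
    (h : ∀ t₀ : ℝ, ∃ L : ℝ → ℝ, ContDiffAt ℝ k L t₀ ∧ ∀ᶠ t in 𝓝 t₀, F (pr t) = pr (L t)) :
    ContMDiff (𝓡∂ 1) (𝓡∂ 1) k F := by
  intro p
  rw [contMDiffAt_iff]
  obtain ⟨L, hL, hF⟩ := h (rep p)
  have hc : ContinuousAt F p := by
    have h1 : ContinuousAt (fun t => F (pr t)) (rep p) := by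
      have h2 : ContinuousAt (fun t => pr (L t)) (rep p) :=
        pr_continuous.continuousAt.comp hL.continuousAt
      exact h2.congr (hF.mono fun t ht => ht.symm)
    rw [ContinuousAt]
    nth_rewrite 1 [← pr_rep p]
    rw [nhds_pr, tendsto_map'_iff]
    have := h1.tendsto
    rwa [pr_rep] at this
  refine ⟨hc, ?_⟩
  apply ContDiffAt.contDiffWithinAt
  set a := rep p - Real.pi with ha
  set b := rep (F p) - Real.pi with hb
  have ht : rep p ∈ Ioo a (a + 2 * Real.pi) := by
    constructor <;> simp only [ha] <;> linarith [Real.pi_pos]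
  have hne : F (pr (rep p)) ≠ pr b := by
    rw [pr_rep]
    conv_lhs => rw [← pr_rep (F p)]
    exact pr_ne _
  have hu0 : (extChartAt (𝓡∂ 1) p p : EuclideanSpace ℝ (Fin 1)) 0 = rep p - a := by
    have e : extChartAt (𝓡∂ 1) p p = (𝓡∂ 1) (ch a p) := rfl
    rw [e]
    have e2 : ch a p = ch a (pr (rep p)) := by rw [pr_rep]
    rw [e2, ch_apply a _ ht]
    rfl
  exact key k F a b (rep p) ht L hL hF hne _ hu0

end Pool.Agent.Helper3.Circ
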