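import Pool.Agent.Helper3.Fold
import Pool.Agent.Helper3.Circ

set_option autoImplicit false

namespace Pool.Agent.Helper3.Act

open Set Topology Filter WithLp
open scoped Manifold ContDiff
open Pool.Agent.Helper3.Circ Pool.Agent.Helper3.Fold

theorem pr_eq_of_cos_sin (s t : ℝ) (hc : Real.cos s = Real.cos t) (hs : Real.sin s = Real.sin t) :
    pr s = pr t := Real.Angle.cos_sin_inj hc hs

theorem cos_eq_of_pr {s t : ℝ} (h : pr s = pr t) : Real.cos s = Real.cos t := by
  obtain ⟨m, hm⟩ := (pr_eq_iff s t).mp h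
  rw [hm, show s + 2 * Real.pi * m = s + m * (2 * Real.pi) by ring, Real.cos_add_int_mul_two_pi]

theorem sin_eq_of_pr {s t : ℝ} (h : pr s = pr t) : Real.sin s = Real.sin t := by
  obtain ⟨m, hm⟩ := (pr_eq_iff s t).mp h
  rw [hm, show s + 2 * Real.pi * m = s + m * (2 * Real.pi) by ring, Real.sin_add_int_mul_two_pi]

/-- sign of the sine, with value `1` at fold points. -/
noncomputable def sg (t : ℝ) : ℝ := if 0 ≤ Real.sin t then 1 else -1

/-- lift of `φ : [-1,1] → [-1,1]` through `cos`. -/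
noncomputable def lft (φ : ℝ → ℝ) (t : ℝ) : ℝ := sg t * Real.arccos (φ (Real.cos t))

theorem lft_congr (φ : ℝ → ℝ) {s t : ℝ} (h : pr s = pr t) : lft φ s = lft φ t := by
  unfold lft sg
  rw [cos_eq_of_pr h, sin_eq_of_pr h]

/-- the lifted map of the circle. -/
noncomputable def F (φ : ℝ → ℝ) (p : Circ) : Circ := pr (lft φ (rep p))

theorem F_pr (φ : ℝ → ℝ) (t : ℝ) : F φ (pr t) = pr (lft φ t) := by
  unfold F
  rw [lft_congr φ (pr_rep (pr t))]

theorem sg_cases (t : ℝ) : sg t = 1 ∨ sg t = -1 := by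
  unfold sg; split_ifs <;> simp

theorem cos_lft (φ : ℝ → ℝ) (t : ℝ) (h : φ (Real.cos t) ∈ Icc (-1:ℝ) 1) :
    Real.cos (lft φ t) = φ (Real.cos t) := by
  unfold lft
  rcases sg_cases t with h1 | h1 <;> rw [h1]
  · rw [one_mul, Real.cos_arccos h.1 h.2]
  · rw [neg_one_mul, Real.cos_neg, Real.cos_arccos h.1 h.2]

theorem sin_lft (φ : ℝ → ℝ) (t : ℝ) :
    Real.sin (lft φ t) = sg t * √(1 - φ (Real.cos t) ^ 2) := by
  unfold lft
  rcases sg_cases t with h1 | h1 <;> rw [h1]
  · rw [one_mul, Real.sin_arccos, one_mul]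
  · rw [neg_one_mul, Real.sin_neg, Real.sin_arccos, neg_one_mul]

theorem cos_mem (t : ℝ) : Real.cos t ∈ Icc (-1:ℝ) 1 := ⟨Real.neg_one_le_cos t, Real.cos_le_one t⟩

theorem cos_mem_Ioo {t : ℝ} (h : Real.sin t ≠ 0) : Real.cos t ∈ Ioo (-1:ℝ) 1 := by
  have h1 := Real.sin_sq_add_cos_sq t
  have h2 : 0 < Real.sin t ^ 2 := by positivity
  constructor <;> nlinarith

structure Good (k : ℕ∞) (φ χ : ℝ → ℝ) : Prop where
  smooth : ContDiffOn ℝ k φ (Icc (-1) 1)
  smooth' : ContDiffOn ℝ k χ (Icc (-1) 1)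
  maps : MapsTo φ (Icc (-1) 1) (Icc (-1) 1)
  maps' : MapsTo χ (Icc (-1) 1) (Icc (-1) 1)
  left : ∀ x ∈ Icc (-1:ℝ) 1, χ (φ x) = x
  right : ∀ x ∈ Icc (-1:ℝ) 1, φ (χ x) = x

namespace Good

variable {k : ℕ∞} {φ χ : ℝ → ℝ}

theorem injOn (h : Good k φ χ) : InjOn φ (Icc (-1) 1) := by
  intro x hx y hy hxy
  rw [← h.left x hx, ← h.left y hy, hxy]

theorem ends (h : Good k φ χ) : (φ 1 = 1 ∧ φ (-1) = -1) ∨ (φ 1 = -1 ∧ φ (-1) = 1) := by
  have hone : (1:ℝ) ∈ Icc (-1:ℝ) 1 := by constructor <;> norm_num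
  have hmone : (-1:ℝ) ∈ Icc (-1:ℝ) 1 := by constructor <;> norm_num
  rcases ContinuousOn.strictMonoOn_of_injOn_Icc' (by norm_num : (-1:ℝ) ≤ 1)
    h.smooth.continuousOn h.injOn with h2 | h2
  · left
    constructor
    · have h3 := h2.monotoneOn (h.maps' hone) hone (h.maps' hone).2
      rw [h.right 1 hone] at h3
      exact le_antisymm (h.maps hone).2 h3
    · have h3 := h2.monotoneOn hmone (h.maps' hmone) (h.maps' hmone).1
      rw [h.right (-1) hmone] at h3
      exact le_antisymm h3 (h.maps hmone).1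
  · right
    constructor
    · have h3 := h2.antitoneOn (h.maps' hmone) hone (h.maps' hmone).2
      rw [h.right (-1) hmone] at h3
      exact le_antisymm h3 (h.maps hone).1
    · have h3 := h2.antitoneOn hmone (h.maps' hone) (h.maps' hone).1
      rw [h.right 1 hone] at h3
      exact le_antisymm (h.maps hmone).2 h3

theorem mapsIoo (h : Good k φ χ) : MapsTo φ (Ioo (-1) 1) (Ioo (-1) 1) := by
  have hone : (1:ℝ) ∈ Icc (-1:ℝ) 1 := by constructor <;> norm_num
  have hmone : (-1:ℝ) ∈ Icc (-1:ℝ) 1 := by constructor <;> norm_num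
  intro x hx
  have hx' := Ioo_subset_Icc_self hx
  have h1 := h.maps hx'
  have hne : φ x ≠ 1 ∧ φ x ≠ -1 := by
    rcases h.ends with ⟨e1, e2⟩ | ⟨e1, e2⟩
    · constructor
      · intro e
        exact hx.2.ne (h.injOn hx' hone (e.trans e1.symm))
      · intro e
        exact hx.1.ne' (h.injOn hx' hmone (e.trans e2.symm))
    · constructor
      · intro e
        exact hx.1.ne' (h.injOn hx' hmone (e.trans e2.symm))
      · intro e
        exact hx.2.ne (h.injOn hx' hone (e.trans e1.symm))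
  exact ⟨lt_of_le_of_ne h1.1 hne.2.symm, lt_of_le_of_ne h1.2 hne.1⟩

theorem sg_lft (h : Good k φ χ) (t : ℝ) : sg (lft φ t) = sg t := by
  rcases lt_or_ge (Real.sin t) 0 with h1 | h1
  · have h2 : sg t = -1 := by unfold sg; rw [if_neg (not_le.mpr h1)]
    have h3 := h.mapsIoo (cos_mem_Ioo h1.ne)
    have h4 : 0 < √(1 - φ (Real.cos t) ^ 2) := by
      apply Real.sqrt_pos.mpr
      nlinarith [h3.1, h3.2]
    have h5 : Real.sin (lft φ t) < 0 := by
      rw [sin_lft, h2]; linarith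
    rw [h2]
    unfold sg
    rw [if_neg (not_le.mpr h5)]
  · have h2 : sg t = 1 := by unfold sg; rw [if_pos h1]
    have h5 : 0 ≤ Real.sin (lft φ t) := by
      rw [sin_lft, h2, one_mul]; positivity
    rw [h2]
    unfold sg
    rw [if_pos h5]

theorem lft_comp (h : Good k φ χ) (φ₂ : ℝ → ℝ) (t : ℝ) :
    lft φ₂ (lft φ t) = lft (fun x => φ₂ (φ x)) t := by
  have h1 := cos_lft φ t (h.maps (cos_mem t))
  have h2 := h.sg_lft t
  rw [lft, h1, h2]
  rfl

theorem F_comp (h : Good k φ χ) (φ₂ : ℝ → ℝ) (p : Circ) :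
    F φ₂ (F φ p) = F (fun x => φ₂ (φ x)) p := by
  obtain ⟨t, rfl⟩ := pr_surjective p
  rw [F_pr, F_pr, F_pr, h.lft_comp]

/-- the rescaled map near a fold point. -/
theorem rescale (h : Good k φ χ) (ε δ : ℝ) (hε : ε = 1 ∨ ε = -1) (hδ : δ = 1 ∨ δ = -1) :
    Good k (fun x => δ * φ (ε * x)) (fun x => ε * χ (δ * x)) := by
  have hm : ∀ a : ℝ, (a = 1 ∨ a = -1) → MapsTo (fun x : ℝ => a * x) (Icc (-1) 1) (Icc (-1) 1) := by
    rintro a (rfl | rfl) x hx
    · simpa using hx
    · simp only [neg_mul, one_mul]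
      exact ⟨by linarith [hx.2], by linarith [hx.1]⟩
  have hs : ∀ a : ℝ, ContDiffOn ℝ k (fun x : ℝ => a * x) (Icc (-1) 1) := fun a =>
    contDiffOn_const.mul contDiffOn_id
  have hε2 : ε * ε = 1 := by rcases hε with rfl | rfl <;> norm_num
  have hδ2 : δ * δ = 1 := by rcases hδ with rfl | rfl <;> norm_num
  refine ⟨?_, ?_, ?_, ?_, ?_, ?_⟩
  · exact contDiffOn_const.mul (h.smooth.comp (hs ε) (hm ε hε))
  · exact contDiffOn_const.mul (h.smooth'.comp (hs δ) (hm δ hδ))
  · exact fun x hx => hm δ hδ (h.maps (hm ε hε hx))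
  · exact fun x hx => hm ε hε (h.maps' (hm δ hδ hx))
  · intro x hx
    show ε * χ (δ * (δ * φ (ε * x))) = x
    rw [← mul_assoc δ δ, hδ2, one_mul, h.left _ (hm ε hε hx), ← mul_assoc, hε2, one_mul]
  · intro x hx
    show δ * φ (ε * (ε * χ (δ * x))) = x
    rw [← mul_assoc ε ε, hε2, one_mul, h.right _ (hm δ hδ hx), ← mul_assoc, hδ2, one_mul]

theorem deriv_ne (h : Good k φ χ) (hk : 1 ≤ k) (h1 : φ 1 = 1) :
    derivWithin φ (Icc (-1) 1) 1 ≠ 0 := by
  have hone : (1:ℝ) ∈ Icc (-1:ℝ) 1 := by constructor <;> norm_num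
  have hu := uniqueDiffOn_Icc (show (-1:ℝ) < 1 by norm_num)
  have hk' : ((k : ℕ∞) : WithTop ℕ∞) ≠ 0 := by
    intro e
    have : k = 0 := by exact_mod_cast e
    rw [this] at hk
    simp at hk
  have d1 := (h.smooth.differentiableOn hk' 1 hone).hasDerivWithinAt
  have d2 := (h.smooth'.differentiableOn hk' 1 hone).hasDerivWithinAt
  have d3 : HasDerivWithinAt (fun x => χ (φ x))
      (derivWithin χ (Icc (-1) 1) 1 * derivWithin φ (Icc (-1) 1) 1) (Icc (-1) 1) 1 := by
    apply HasDerivWithinAt.comp (h₂ := χ) (h := φ) (s' := Icc (-1) 1) 1 _ d1 h.maps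
    rw [h1]; exact d2
  have d4 : HasDerivWithinAt (fun x : ℝ => x) 1 (Icc (-1:ℝ) 1) 1 := hasDerivWithinAt_id _ _
  have d5 : HasDerivWithinAt (fun x : ℝ => x)
      (derivWithin χ (Icc (-1) 1) 1 * derivWithin φ (Icc (-1) 1) 1) (Icc (-1) 1) 1 :=
    d3.congr (fun x hx => (h.left x hx).symm) (h.left 1 hone).symm
  have d6 := (hu 1 hone).eq_deriv _ d4 d5
  intro e
  rw [e, mul_zero] at d6
  norm_num at d6

theorem fold_k (h : Good k φ χ) (hk : 1 ≤ k) (h1 : φ 1 = 1) : ContDiffAt ℝ k (E φ) 0 := by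
  have hd := h.deriv_ne hk h1
  have key : ∀ n : ℕ, ((n + 1 : ℕ) : WithTop ℕ∞) ≤ k → ContDiffAt ℝ (n + 1 : ℕ) (E φ) 0 :=
    fun n hn => fold n φ (h.smooth.of_le hn) h.maps h.injOn h1 hd
  induction k using ENat.recTopCoe with
  | top =>
    show ContDiffAt ℝ ∞ (E φ) 0
    rw [contDiffAt_infty]
    intro n
    exact (key n (by exact_mod_cast le_top)).of_le (by norm_cast; omega)
  | coe n =>
    obtain ⟨m, rfl⟩ : ∃ m, n = m + 1 := by
      refine ⟨n - 1, ?_⟩
      have : 1 ≤ n := by exact_mod_cast hk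
      omega
    exact key m le_rfl

theorem cos_E (ψ : ℝ → ℝ) (s : ℝ) (h1 : ψ 1 = 1) (h : ψ (Real.cos s) ∈ Icc (-1:ℝ) 1) :
    Real.cos (E ψ s) = ψ (Real.cos s) := by
  unfold E
  rcases lt_trichotomy s 0 with hs | hs | hs
  · rw [Real.sign_of_neg hs, neg_one_mul, Real.cos_neg, Real.cos_arccos h.1 h.2]
  · rw [hs, Real.sign_zero, zero_mul, Real.cos_zero, h1]
  · rw [Real.sign_of_pos hs, one_mul, Real.cos_arccos h.1 h.2]

theorem sin_E (ψ : ℝ → ℝ) (s : ℝ) : Real.sin (E ψ s) = Real.sign s * √(1 - ψ (Real.cos s) ^ 2) := by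
  unfold E
  rcases lt_trichotomy s 0 with hs | hs | hs
  · rw [Real.sign_of_neg hs, neg_one_mul, Real.sin_neg, Real.sin_arccos, neg_one_mul]
  · rw [hs, Real.sign_zero, zero_mul, Real.sin_zero, zero_mul]
  · rw [Real.sign_of_pos hs, one_mul, Real.sin_arccos, one_mul]

theorem local_lift (h : Good k φ χ) (hk : 1 ≤ k) (t₀ : ℝ) :
    ∃ L : ℝ → ℝ, ContDiffAt ℝ k L t₀ ∧ ∀ᶠ t in 𝓝 t₀, F φ (pr t) = pr (L t) := by
  rcases lt_trichotomy (Real.sin t₀) 0 with h0 | h0 | h0
  · -- lower half circle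
    refine ⟨fun t => -1 * Real.arccos (φ (Real.cos t)), ?_, ?_⟩
    · have hx := cos_mem_Ioo h0.ne
      have hy := h.mapsIoo hx
      have h1 : ContDiffAt ℝ k φ (Real.cos t₀) :=
        h.smooth.contDiffAt (Icc_mem_nhds hx.1 hx.2)
      have h2 : ContDiffAt ℝ k (fun t => φ (Real.cos t)) t₀ :=
        h1.comp t₀ Real.contDiff_cos.contDiffAt
      have h3 : ContDiffAt ℝ k Real.arccos (φ (Real.cos t₀)) :=
        Real.contDiffAt_arccos hy.1.ne' hy.2.ne
      have h4 : ContDiffAt ℝ k (Real.arccos ∘ fun t => φ (Real.cos t)) t₀ :=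
        ContDiffAt.comp t₀ h3 h2
      exact contDiffAt_const.mul h4
    · have : ∀ᶠ t in 𝓝 t₀, Real.sin t < 0 :=
        Real.continuous_sin.continuousAt.eventually (isOpen_Iio.mem_nhds h0)
      filter_upwards [this] with t ht
      rw [F_pr]
      congr 1
      unfold lft sg
      rw [if_neg (not_le.mpr ht)]
  · -- fold points
    have hc : Real.cos t₀ = 1 ∨ Real.cos t₀ = -1 := by
      have h1 := Real.sin_sq_add_cos_sq t₀
      rw [h0] at h1
      have h2 : (Real.cos t₀ - 1) * (Real.cos t₀ + 1) = 0 := by nlinarith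
      rcases mul_eq_zero.mp h2 with h3 | h3
      · left; linarith
      · right; linarith
    have hδ : φ (Real.cos t₀) = 1 ∨ φ (Real.cos t₀) = -1 := by
      rcases hc with e | e <;> rcases h.ends with ⟨e1, e2⟩ | ⟨e1, e2⟩ <;> rw [e]
      · exact Or.inl e1
      · exact Or.inr e1
      · exact Or.inr e2
      · exact Or.inl e2
    obtain ⟨ε, hε⟩ : ∃ ε, ε = Real.cos t₀ := ⟨_, rfl⟩
    obtain ⟨δ, hδe⟩ : ∃ δ, δ = φ (Real.cos t₀) := ⟨_, rfl⟩
    rw [← hε] at hc
    rw [← hδe] at hδ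
    have hr := h.rescale ε δ hc hδ
    have hδ2 : δ * δ = 1 := by rcases hδ with rfl | rfl <;> norm_num
    have hε2 : ε * ε = 1 := by rcases hc with rfl | rfl <;> norm_num
    have h1 : δ * φ (ε * 1) = 1 := by rw [mul_one, hε, ← hδe, hδ2]
    have hfold := hr.fold_k hk h1
    set ψ : ℝ → ℝ := fun x => δ * φ (ε * x) with hψ
    refine ⟨fun t => (1 - δ) / 2 * Real.pi + δ * ε * E ψ (t - t₀), ?_, ?_⟩
    · have h2 : ContDiffAt ℝ k (fun t => E ψ (t - t₀)) t₀ := by
        have h3 : ContDiffAt ℝ k (E ψ) ((fun t : ℝ => t - t₀) t₀) := by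
          simpa using hfold
        have h5 : ContDiffAt ℝ k (E ψ ∘ fun t : ℝ => t - t₀) t₀ :=
          ContDiffAt.comp t₀ h3 (contDiffAt_id.sub contDiffAt_const)
        exact h5
      exact contDiffAt_const.add (contDiffAt_const.mul h2)
    · have hI : Ioo (t₀ - Real.pi) (t₀ + Real.pi) ∈ 𝓝 t₀ :=
        Ioo_mem_nhds (by linarith [Real.pi_pos]) (by linarith [Real.pi_pos])
      filter_upwards [hI] with t ht
      rw [F_pr]
      obtain ⟨s, hs⟩ : ∃ s, t = t₀ + s := ⟨t - t₀, by ring⟩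
      have hs1 : s ∈ Ioo (-Real.pi) Real.pi := by
        rw [hs] at ht
        exact ⟨by linarith [ht.1], by linarith [ht.2]⟩
      have hts : t - t₀ = s := by rw [hs]; ring
      rw [hts]
      have hcos : Real.cos s = ε * Real.cos t := by
        rw [hs, Real.cos_add, h0, zero_mul, sub_zero, ← hε, ← mul_assoc, hε2, one_mul]
      have hsin : Real.sin t = ε * Real.sin s := by
        rw [hs, Real.sin_add, h0, zero_mul, zero_add, ← hε]
      have hψc : ψ (Real.cos s) = δ * φ (Real.cos t) := by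
        simp only [hψ]
        rw [hcos, ← mul_assoc ε ε, hε2, one_mul]
      have hcE := cos_E ψ s h1 (hr.maps (cos_mem s))
      have hsE := sin_E ψ s
      have hsq : ψ (Real.cos s) ^ 2 = φ (Real.cos t) ^ 2 := by
        rw [hψc, mul_pow, pow_two δ, hδ2, one_mul]
      have hsgn : sg t * √(1 - φ (Real.cos t) ^ 2) =
          ε * (Real.sign s * √(1 - φ (Real.cos t) ^ 2)) := by
        rcases lt_trichotomy s 0 with h3 | h3 | h3
        · have h4 : Real.sin s < 0 := Real.sin_neg_of_neg_of_neg_pi_lt h3 hs1.1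
          rw [Real.sign_of_neg h3]
          rcases hc with rfl | rfl
          · have h5 : sg t = -1 := by
              unfold sg; rw [if_neg]; rw [hsin]; linarith
            rw [h5]; ring
          · have h5 : sg t = 1 := by
              unfold sg; rw [if_pos]; rw [hsin]; linarith
            rw [h5]; ring
        · have h4 : φ (Real.cos t) ^ 2 = 1 := by
            rw [← hsq, h3, Real.cos_zero]
            have : ψ 1 = 1 := h1
            rw [this]; norm_num
          rw [h4]; simp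
        · have h4 : 0 < Real.sin s := Real.sin_pos_of_pos_of_lt_pi h3 hs1.2
          rw [Real.sign_of_pos h3]
          rcases hc with rfl | rfl
          · have h5 : sg t = 1 := by
              unfold sg; rw [if_pos]; rw [hsin]; linarith
            rw [h5]; ring
          · have h5 : sg t = -1 := by
              unfold sg; rw [if_neg]; rw [hsin]; linarith
            rw [h5]; ring
      apply pr_eq_of_cos_sin
      · rw [cos_lft φ t (h.maps (cos_mem t))]
        rcases hδ with rfl | rfl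
        · rw [show (1 - (1:ℝ)) / 2 * Real.pi + 1 * ε * E ψ s = ε * E ψ s by ring]
          have : Real.cos (ε * E ψ s) = Real.cos (E ψ s) := by
            rcases hc with rfl | rfl
            · rw [one_mul]
            · rw [neg_one_mul, Real.cos_neg]
          rw [this, hcE, hψc, one_mul]
        · rw [show (1 - (-1:ℝ)) / 2 * Real.pi + -1 * ε * E ψ s = Real.pi - ε * E ψ s by ring]
          have : Real.cos (ε * E ψ s) = Real.cos (E ψ s) := by
            rcases hc with rfl | rfl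
            · rw [one_mul]
            · rw [neg_one_mul, Real.cos_neg]
          rw [Real.cos_pi_sub, this, hcE, hψc]
          ring
      · rw [sin_lft, hsgn]
        have h6 : Real.sin (ε * E ψ s) = ε * (Real.sign s * √(1 - φ (Real.cos t) ^ 2)) := by
          rw [← hsq, ← hsE]
          rcases hc with rfl | rfl
          · rw [one_mul, one_mul]
          · rw [neg_one_mul, Real.sin_neg, neg_one_mul]
        rcases hδ with rfl | rfl
        · rw [show (1 - (1:ℝ)) / 2 * Real.pi + 1 * ε * E ψ s = ε * E ψ s by ring, h6]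
        · rw [show (1 - (-1:ℝ)) / 2 * Real.pi + -1 * ε * E ψ s = Real.pi - ε * E ψ s by ring,
            Real.sin_pi_sub, h6]
  · refine ⟨fun t => Real.arccos (φ (Real.cos t)), ?_, ?_⟩
    · have hx := cos_mem_Ioo h0.ne'
      have hy := h.mapsIoo hx
      have h1 : ContDiffAt ℝ k φ (Real.cos t₀) :=
        h.smooth.contDiffAt (Icc_mem_nhds hx.1 hx.2)
      have h2 : ContDiffAt ℝ k (fun t => φ (Real.cos t)) t₀ :=
        h1.comp t₀ Real.contDiff_cos.contDiffAt
      have h3 : ContDiffAt ℝ k Real.arccos (φ (Real.cos t₀)) :=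
        Real.contDiffAt_arccos hy.1.ne' hy.2.ne
      have h4 : ContDiffAt ℝ k (Real.arccos ∘ fun t => φ (Real.cos t)) t₀ :=
        ContDiffAt.comp t₀ h3 h2
      exact h4
    · have : ∀ᶠ t in 𝓝 t₀, 0 < Real.sin t :=
        Real.continuous_sin.continuousAt.eventually (isOpen_Ioi.mem_nhds h0)
      filter_upwards [this] with t ht
      rw [F_pr]
      congr 1
      unfold lft sg
      rw [if_pos ht.le, one_mul]

end Good

local instance fact11 : Fact ((-1:ℝ) < 1) := ⟨by norm_num⟩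

abbrev J : Type := Icc (-1:ℝ) 1

/-- function on the line attached to a permutation of the interval. -/
noncomputable def fn (σ : Equiv.Perm J) (x : ℝ) : ℝ := (σ (projIcc (-1) 1 (by norm_num) x) : ℝ)

theorem fn_mul (σ τ : Equiv.Perm J) : fn (σ * τ) = fun x => fn σ (fn τ x) := by
  funext x
  simp [fn]

theorem fn_one {x : ℝ} (hx : x ∈ Icc (-1:ℝ) 1) : fn 1 x = x := by
  simp [fn, projIcc_of_mem _ hx]

theorem fn_mem (σ : Equiv.Perm J) (x : ℝ) : fn σ x ∈ Icc (-1:ℝ) 1 := Subtype.prop _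

theorem fn_smooth (k : ℕ∞) (σ : Equiv.Perm J)
    (h : ContMDiff (𝓡∂ 1) (𝓡∂ 1) k σ) : ContDiffOn ℝ k (fn σ) (Icc (-1) 1) := by
  rw [← contMDiffOn_iff_contDiffOn]
  have h1 : ContMDiff (𝓡∂ 1) 𝓘(ℝ, ℝ) k (fun z : J => (σ z : ℝ)) :=
    contMDiff_subtypeVal_Icc.comp h
  exact h1.comp_contMDiffOn contMDiffOn_projIcc

theorem F_id {φ : ℝ → ℝ} (hφ : ∀ x ∈ Icc (-1:ℝ) 1, φ x = x) (p : Circ) : F φ p = p := by
  obtain ⟨t, rfl⟩ := pr_surjective p
  rw [F_pr]
  have h1 := hφ _ (cos_mem t)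
  apply pr_eq_of_cos_sin
  · rw [cos_lft φ t (by rw [h1]; exact cos_mem t), h1]
  · rw [sin_lft, h1]
    have h2 : 1 - Real.cos t ^ 2 = Real.sin t ^ 2 := by
      have := Real.sin_sq_add_cos_sq t
      linarith
    rw [h2, Real.sqrt_sq_eq_abs]
    unfold sg
    split_ifs with h3
    · rw [abs_of_nonneg h3, one_mul]
    · rw [abs_of_neg (not_le.mp h3)]; ring

theorem good_of (k : ℕ∞) {G : Type*} [Group G] (ρ : G →* Equiv.Perm J)
    (hs : ∀ g, ContMDiff (𝓡∂ 1) (𝓡∂ 1) k (ρ g)) (g : G) :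
    Good k (fn (ρ g)) (fn (ρ g⁻¹)) := by
  refine ⟨fn_smooth k _ (hs g), fn_smooth k _ (hs g⁻¹), fun x _ => fn_mem _ x,
    fun x _ => fn_mem _ x, ?_, ?_⟩
  · intro x hx
    have h1 := congrFun (fn_mul (ρ g⁻¹) (ρ g)) x
    rw [← map_mul, inv_mul_cancel, map_one, fn_one hx] at h1
    exact h1.symm
  · intro x hx
    have h1 := congrFun (fn_mul (ρ g) (ρ g⁻¹)) x
    rw [← map_mul, mul_inv_cancel, map_one, fn_one hx] at h1
    exact h1.symm

theorem F_hom (k : ℕ∞) {G : Type*} [Group G] (ρ : G →* Equiv.Perm J)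
    (hs : ∀ g, ContMDiff (𝓡∂ 1) (𝓡∂ 1) k (ρ g)) (g g' : G) (p : Circ) :
    F (fn (ρ g)) (F (fn (ρ g')) p) = F (fn (ρ (g * g'))) p := by
  rw [(good_of k ρ hs g').F_comp, map_mul, fn_mul]

/-- Every group acting faithfully by `C^k` diffeomorphisms on `[-1,1]` acts faithfully by `C^k`
diffeomorphisms on the circle. -/
theorem exists_action (k : ℕ∞) (hk : 1 ≤ k) {G : Type*} [Group G] (ρ : G →* Equiv.Perm J)
    (hρ : Function.Injective ρ) (hs : ∀ g, ContMDiff (𝓡∂ 1) (𝓡∂ 1) k (ρ g)) :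
    ∃ ρ' : G →* Equiv.Perm Circ, Function.Injective ρ' ∧
      ∀ g, ContMDiff (𝓡∂ 1) (𝓡∂ 1) k (ρ' g) := by
  have hone : ∀ p, F (fn (ρ 1)) p = p := by
    intro p
    rw [map_one]
    exact F_id (fun x hx => fn_one hx) p
  let ρ' : G →* Equiv.Perm Circ :=
    { toFun := fun g =>
        { toFun := F (fn (ρ g))
          invFun := F (fn (ρ g⁻¹))
          left_inv := fun p => by rw [F_hom k ρ hs, inv_mul_cancel, hone]
          right_inv := fun p => by rw [F_hom k ρ hs, mul_inv_cancel, hone] }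
      map_one' := by
        ext p
        exact hone p
      map_mul' := fun g g' => by
        ext p
        exact (F_hom k ρ hs g g' p).symm }
  have hρ' : ∀ g p, ρ' g p = F (fn (ρ g)) p := fun _ _ => rfl
  refine ⟨ρ', ?_, ?_⟩
  · intro g g' h
    apply hρ
    ext z
    have h1 : F (fn (ρ g)) (pr (Real.arccos z)) = F (fn (ρ g')) (pr (Real.arccos z)) := by
      rw [← hρ', ← hρ', h]
    rw [F_pr, F_pr] at h1
    have h2 := cos_eq_of_pr h1
    rw [cos_lft _ _ (fn_mem _ _), cos_lft _ _ (fn_mem _ _), Real.cos_arccos z.2.1 z.2.2] at h2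
    simpa [fn] using h2
  · intro g
    apply contMDiff_of_lift
    intro t₀
    exact (good_of k ρ hs g).local_lift hk t₀

/-- The circle is not homeomorphic to the interval. -/
theorem not_homeo (h : J ≃ₜ Circ) : False := by
  set φ : ℝ → ℝ := fun t => (h.symm (pr t) : ℝ) with hφ
  have hc : Continuous φ := continuous_subtype_val.comp (h.symm.continuous.comp pr_continuous)
  have hinj : ∀ s t, φ s = φ t → pr s = pr t := by
    intro s t e
    exact h.symm.injective (Subtype.ext e)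
  have hper : ∀ t, φ (t + 2 * Real.pi) = φ t := by
    intro t
    have : pr (t + 2 * Real.pi) = pr t := by
      rw [pr_eq_iff]
      exact ⟨-1, by push_cast; ring⟩
    simp only [hφ, this]
  set ψ : ℝ → ℝ := fun t => φ (t + Real.pi) - φ t with hψ
  have hψc : Continuous ψ := (hc.comp (by fun_prop)).sub hc
  have hneg : ψ Real.pi = -ψ 0 := by
    simp only [hψ]
    rw [zero_add, show Real.pi + Real.pi = 0 + 2 * Real.pi by ring, hper]
    ring
  have hz : ∃ t, ψ t = 0 := by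
    rcases le_total (ψ 0) 0 with h0 | h0
    · have h1 : 0 ≤ ψ Real.pi := by rw [hneg]; linarith
      obtain ⟨t, _, ht⟩ := intermediate_value_Icc Real.pi_pos.le hψc.continuousOn ⟨h0, h1⟩
      exact ⟨t, ht⟩
    · have h1 : ψ Real.pi ≤ 0 := by rw [hneg]; linarith
      obtain ⟨t, _, ht⟩ := intermediate_value_Icc' Real.pi_pos.le hψc.continuousOn ⟨h1, h0⟩
      exact ⟨t, ht⟩
  obtain ⟨t, ht⟩ := hz
  have h1 : pr (t + Real.pi) = pr t := hinj _ _ (by simp only [hψ] at ht; linarith)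
  have h2 := pr_ne (t + Real.pi)
  rw [add_sub_cancel_right] at h2
  exact h2 h1

end Pool.Agent.Helper3.Act
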