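import Mathlib

set_option autoImplicit false
set_option linter.unusedSectionVars false

namespace Pool.Agent.Helper3.LieAlg

variable {V : Type*} [AddCommGroup V] [Module ℝ V] [FiniteDimensional ℝ V]

/-- inner product core from a positive definite form. -/
@[reducible] noncomputable def core (B : V →ₗ[ℝ] V →ₗ[ℝ] ℝ) (hs : ∀ x y, B x y = B y x)
    (hp : ∀ x, x ≠ 0 → 0 < B x x) : InnerProductSpace.Core ℝ V where
  inner x y := B x y
  conj_inner_symm x y := by simp [hs x y]
  re_inner_nonneg x := by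
    by_cases h : x = 0
    · simp [h]
    · simpa using (hp x h).le
  add_left x y z := by simp
  smul_left x y r := by simp
  definite x h := by
    by_contra h0
    exact (hp x h0).ne' h

theorem exists_eigen [Nontrivial V] (B : V →ₗ[ℝ] V →ₗ[ℝ] ℝ) (hs : ∀ x y, B x y = B y x)
    (hp : ∀ x, x ≠ 0 → 0 < B x x) (S : V →ₗ[ℝ] V) (hS : ∀ x y, B (S x) y = B x (S y)) :
    ∃ (c : ℝ) (u : V), u ≠ 0 ∧ S u = c • u := by
  let c := core B hs hp
  let _ : NormedAddCommGroup V := c.toNormedAddCommGroup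
  let _ : InnerProductSpace ℝ V := InnerProductSpace.ofCore c.toCore
  have h1 : S.IsSymmetric := fun x y => hS x y
  obtain ⟨μ, hμ⟩ : ∃ μ, Module.End.HasEigenvalue S μ :=
    ⟨_, h1.hasEigenvalue_iSup_of_finiteDimensional⟩
  obtain ⟨v, hv⟩ := hμ.exists_hasEigenvector
  exact ⟨μ, v, hv.2, hv.apply_eq_smul⟩

theorem exists_decomp (B : V →ₗ[ℝ] V →ₗ[ℝ] ℝ) (hs : ∀ x y, B x y = B y x)
    (hp : ∀ x, x ≠ 0 → 0 < B x x) (t : Submodule ℝ V) (x : V) :
    ∃ a b, a ∈ t ∧ (∀ y ∈ t, B b y = 0) ∧ x = a + b := by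
  let c := core B hs hp
  let _ : NormedAddCommGroup V := c.toNormedAddCommGroup
  let _ : InnerProductSpace ℝ V := InnerProductSpace.ofCore c.toCore
  obtain ⟨a, ha, b, hb, h⟩ := t.exists_add_mem_mem_orthogonal x
  refine ⟨a, b, ha, ?_, h⟩
  intro y hy
  have := (Submodule.mem_orthogonal' t b).mp hb y hy
  exact this

/-- A compact Lie algebra: bracket and invariant inner product. -/
structure Cpt (V : Type*) [AddCommGroup V] [Module ℝ V] where
  br : V →ₗ[ℝ] V →ₗ[ℝ] V
  B : V →ₗ[ℝ] V →ₗ[ℝ] ℝ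
  alt : ∀ x, br x x = 0
  jac : ∀ x y z, br x (br y z) = br (br x y) z + br y (br x z)
  symm : ∀ x y, B x y = B y x
  pos : ∀ x, x ≠ 0 → 0 < B x x
  inv : ∀ x y z, B (br x y) z = B x (br y z)

namespace Cpt

variable (C : Cpt V)

theorem skew (x y : V) : C.br y x = - C.br x y := by
  have h := C.alt (x + y)
  simp only [map_add, LinearMap.add_apply, C.alt, zero_add, add_zero] at h
  exact eq_neg_of_add_eq_zero_left h

/-- centraliser of a subspace. -/
def cent (t : Submodule ℝ V) : Submodule ℝ V where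
  carrier := {x | ∀ y ∈ t, C.br x y = 0}
  add_mem' := fun {a b} ha hb y hy => by
    rw [map_add, LinearMap.add_apply, ha y hy, hb y hy, add_zero]
  zero_mem' := fun y _ => by simp
  smul_mem' := fun c x hx y hy => by
    rw [map_smul, LinearMap.smul_apply, hx y hy, smul_zero]

theorem mem_cent (t : Submodule ℝ V) (x : V) : x ∈ C.cent t ↔ ∀ y ∈ t, C.br x y = 0 := Iff.rfl

/-- orthogonal complement. -/
def orth (t : Submodule ℝ V) : Submodule ℝ V where
  carrier := {x | ∀ y ∈ t, C.B x y = 0}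
  add_mem' := fun {a b} ha hb y hy => by
    rw [map_add, LinearMap.add_apply, ha y hy, hb y hy, add_zero]
  zero_mem' := fun y _ => by simp
  smul_mem' := fun c x hx y hy => by
    rw [map_smul, LinearMap.smul_apply, hx y hy, smul_zero]

theorem mem_orth (t : Submodule ℝ V) (x : V) : x ∈ C.orth t ↔ ∀ y ∈ t, C.B x y = 0 := Iff.rfl

/-- maximal abelian (= self-centralising) subspaces. -/
def IsMaxAb (t : Submodule ℝ V) : Prop :=
  (∀ x ∈ t, ∀ y ∈ t, C.br x y = 0) ∧ ∀ x, (∀ y ∈ t, C.br x y = 0) → x ∈ t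

theorem exists_invariant_maxAb (σ : V ≃ₗ[ℝ] V) (hbr : ∀ x y, σ (C.br x y) = C.br (σ x) (σ y))
    (hB : ∀ x y, C.B (σ x) (σ y) = C.B x y) :
    ∃ t, C.IsMaxAb t ∧ ∀ x ∈ t, σ x ∈ t := by
  let Sset : Set (Submodule ℝ V) := {t | (∀ x ∈ t, ∀ y ∈ t, C.br x y = 0) ∧ ∀ x ∈ t, σ x ∈ t}
  have hne : Sset.Nonempty := ⟨⊥, by simp [Sset]⟩
  obtain ⟨t, ⟨htab, htinv⟩, hmax⟩ :=
    (wellFounded_gt : WellFounded (α := Submodule ℝ V) (· > ·)).has_min Sset hne
  refine ⟨t, ⟨htab, ?_⟩, htinv⟩
  intro x hx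
  by_contra hxt
  -- `σ` maps `t` onto `t`
  have htmap : ∀ y ∈ t, ∃ y' ∈ t, σ y' = y := by
    have h1 : t.map (σ : V →ₗ[ℝ] V) = t := by
      apply Submodule.eq_of_le_of_finrank_eq
      · rintro _ ⟨y, hy, rfl⟩
        exact htinv y hy
      · exact LinearEquiv.finrank_map_eq σ t
    intro y hy
    rw [← h1] at hy
    obtain ⟨y', hy', e⟩ := hy
    exact ⟨y', hy', e⟩
  -- invariance of the centraliser and the orthogonal complement
  have hcinv : ∀ z ∈ C.cent t, σ z ∈ C.cent t := by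
    intro z hz y hy
    obtain ⟨y', hy', rfl⟩ := htmap y hy
    rw [← hbr, hz y' hy', map_zero]
  have hoinv : ∀ z ∈ C.orth t, σ z ∈ C.orth t := by
    intro z hz y hy
    obtain ⟨y', hy', rfl⟩ := htmap y hy
    rw [hB, hz y' hy']
  have hcinv' : ∀ z ∈ C.cent t, σ.symm z ∈ C.cent t := by
    intro z hz y hy
    have h1 := hz (σ y) (htinv y hy)
    have h2 : σ (C.br (σ.symm z) y) = 0 := by
      rw [hbr, LinearEquiv.apply_symm_apply, h1]
    exact (LinearEquiv.map_eq_zero_iff σ).mp h2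
  have hoinv' : ∀ z ∈ C.orth t, σ.symm z ∈ C.orth t := by
    intro z hz y hy
    have h1 := hz (σ y) (htinv y hy)
    rw [← hB, LinearEquiv.apply_symm_apply, h1]
  set b : Submodule ℝ V := C.cent t ⊓ C.orth t with hb
  obtain ⟨a, z, ha, hz, hxz⟩ := exists_decomp C.B C.symm C.pos t x
  have hzb : z ∈ b := by
    refine ⟨?_, hz⟩
    have h1 : z = x - a := by rw [hxz]; abel
    rw [h1]
    exact (C.cent t).sub_mem hx (fun y hy => htab a ha y hy)
  have hz0 : z ≠ 0 := by
    intro h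
    rw [h, add_zero] at hxz
    rw [hxz] at hxt
    exact hxt ha
  -- the good vector
  obtain ⟨u, hub, hu0, huc, c, d, hcd⟩ : ∃ u ∈ b, u ≠ 0 ∧ C.br u (σ u) = 0 ∧
      ∃ c d : ℝ, σ (σ u) = c • σ u + d • u := by
    by_cases hfix : ∃ u ∈ b, u ≠ 0 ∧ σ u = u
    · obtain ⟨u, hub, hu0, hu⟩ := hfix
      exact ⟨u, hub, hu0, by rw [hu, C.alt], 0, 1, by rw [hu, hu]; simp⟩
    · push Not at hfix
      have hnt : Nontrivial b := ⟨⟨⟨z, hzb⟩, 0, fun h => hz0 (congrArg Subtype.val h)⟩⟩
      let Sl : V →ₗ[ℝ] V := (σ : V →ₗ[ℝ] V) + (σ.symm : V →ₗ[ℝ] V)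
      have hSl : ∀ v, Sl v = σ v + σ.symm v := fun v => rfl
      let S : b →ₗ[ℝ] b := Sl.restrict (p := b) (q := b) (fun v hv =>
        ⟨(C.cent t).add_mem (hcinv v hv.1) (hcinv' v hv.1),
          (C.orth t).add_mem (hoinv v hv.2) (hoinv' v hv.2)⟩)
      have hSv : ∀ v : b, ((S v : b) : V) = σ v + σ.symm v := fun v => rfl
      let Bb : b →ₗ[ℝ] b →ₗ[ℝ] ℝ := C.B.domRestrict₁₂ b b
      have hBb : ∀ v w : b, Bb v w = C.B v w := fun v w => rfl
      obtain ⟨c, u, hu0, hu⟩ := exists_eigen Bb (fun v w => C.symm _ _)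
        (fun v hv => C.pos _ (fun h => hv (Subtype.ext h))) S (by
          intro v w
          rw [hBb, hBb, hSv, hSv]
          simp only [map_add, LinearMap.add_apply]
          have h1 : C.B (σ v) w = C.B v (σ.symm w) := by
            rw [← hB v (σ.symm w), LinearEquiv.apply_symm_apply]
          have h2 : C.B (σ.symm v) w = C.B v (σ w) := by
            rw [← hB (σ.symm v) w, LinearEquiv.apply_symm_apply]
          rw [h1, h2, add_comm])
      have hu' : σ u + σ.symm u = c • (u : V) := by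
        rw [← hSv, hu]; rfl
      have hu2 : σ (σ u) = c • σ (u : V) + (-1 : ℝ) • (u : V) := by
        have h1 := congrArg σ hu'
        rw [map_add, LinearEquiv.apply_symm_apply, map_smul] at h1
        rw [← h1]
        module
      have hu0' : (u : V) ≠ 0 := fun h => hu0 (Subtype.ext h)
      refine ⟨u, u.2, hu0', ?_, c, -1, hu2⟩
      by_contra hw
      apply hfix (C.br u (σ u)) _ hw
      · rw [hbr, hu2]
        simp only [map_add, map_smul]
        rw [C.alt, C.skew u (σ u)]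
        module
      · have hub : (u : V) ∈ b := u.2
        have hsb : σ (u : V) ∈ b := ⟨hcinv _ hub.1, hoinv _ hub.2⟩
        refine ⟨?_, ?_⟩
        · intro y hy
          have h1 := C.jac y u (σ u)
          have h2 : C.br y u = 0 := by rw [C.skew u y, hub.1 y hy, neg_zero]
          have h3 : C.br y (σ u) = 0 := by rw [C.skew (σ u) y, hsb.1 y hy, neg_zero]
          rw [h2, h3] at h1
          simp only [map_zero, LinearMap.zero_apply, add_zero] at h1
          rw [C.skew y, h1, neg_zero]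
        · intro y hy
          rw [C.inv, hsb.1 y hy, map_zero]
  have hsu : σ u ∈ b := ⟨hcinv _ hub.1, hoinv _ hub.2⟩
  -- larger subspace
  let t' : Submodule ℝ V := t ⊔ Submodule.span ℝ {u, σ u}
  have hspan : Submodule.span ℝ {u, σ u} ≤ b := by
    rw [Submodule.span_le]
    rintro v (rfl | rfl)
    · exact hub
    · exact hsu
  have hPab : ∀ v ∈ Submodule.span ℝ {u, σ u}, ∀ w ∈ Submodule.span ℝ {u, σ u}, C.br v w = 0 := by
    intro v hv w hw
    obtain ⟨a1, b1, rfl⟩ := Submodule.mem_span_pair.mp hv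
    obtain ⟨a2, b2, rfl⟩ := Submodule.mem_span_pair.mp hw
    simp only [map_add, map_smul, LinearMap.add_apply, LinearMap.smul_apply, C.alt, huc,
      C.skew u (σ u)]
    simp
  have hmem : t' ∈ Sset := by
    refine ⟨?_, ?_⟩
    · intro v hv w hw
      obtain ⟨v1, hv1, v2, hv2, rfl⟩ := Submodule.mem_sup.mp hv
      obtain ⟨w1, hw1, w2, hw2, rfl⟩ := Submodule.mem_sup.mp hw
      simp only [map_add, LinearMap.add_apply]
      rw [htab v1 hv1 w1 hw1, (hspan hv2).1 w1 hw1, hPab v2 hv2 w2 hw2, C.skew w2 v1,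
        (hspan hw2).1 v1 hv1]
      simp
    · intro v hv
      obtain ⟨v1, hv1, v2, hv2, rfl⟩ := Submodule.mem_sup.mp hv
      rw [map_add]
      refine Submodule.add_mem _ (Submodule.mem_sup_left (htinv v1 hv1))
        (Submodule.mem_sup_right ?_)
      obtain ⟨a1, b1, rfl⟩ := Submodule.mem_span_pair.mp hv2
      rw [map_add, map_smul, map_smul, hcd]
      rw [Submodule.mem_span_pair]
      exact ⟨b1 * d, a1 + b1 * c, by module⟩
  apply hmax t' hmem
  refine lt_of_le_of_ne le_sup_left ?_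
  intro h
  have h1 : u ∈ t := by
    rw [h]
    exact Submodule.mem_sup_right (Submodule.subset_span (by simp))
  exact (C.pos u hu0).ne' (hub.2 u h1)

theorem br_skew (x y z : V) : C.B (C.br x y) z = - C.B y (C.br x z) := by
  rw [C.skew y x, map_neg, LinearMap.neg_apply, C.inv]

theorem br_comm {x y : V} (h : C.br x y = 0) (z : V) : C.br x (C.br y z) = C.br y (C.br x z) := by
  rw [C.jac x y z, h]
  simp

/-- one step towards regular elements. -/
theorem regular_step (x y : V) (h : C.br x y = 0) :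
    ∃ c : ℝ, ∀ z, C.br (c • x - y) z = 0 → C.br x z = 0 ∧ C.br y z = 0 := by
  set W : Submodule ℝ V := LinearMap.ker (C.br x) with hW
  have hWm : ∀ z, z ∈ W ↔ C.br x z = 0 := fun z => LinearMap.mem_ker
  have hyW : ∀ z ∈ W, C.br y z ∈ W := by
    intro z hz
    rw [hWm] at hz ⊢
    rw [C.br_comm h, hz, map_zero]
  set P : Submodule ℝ V := C.orth W with hP
  have hxP : ∀ z ∈ P, C.br x z ∈ P := by
    intro z hz w hw
    rw [br_skew, (hWm w).mp hw, map_zero, neg_zero]
  have hyP : ∀ z ∈ P, C.br y z ∈ P := by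
    intro z hz w hw
    rw [br_skew, hz _ (hyW w hw), neg_zero]
  let A : P →ₗ[ℝ] P := (C.br x).restrict hxP
  let D : P →ₗ[ℝ] P := (C.br y).restrict hyP
  have hA : ∀ v : P, ((A v : P) : V) = C.br x v := fun v => rfl
  have hD : ∀ v : P, ((D v : P) : V) = C.br y v := fun v => rfl
  have hWP : ∀ z, z ∈ W → z ∈ P → z = 0 := by
    intro z h1 h2
    by_contra h0
    exact (C.pos z h0).ne' (h2 z h1)
  have hAinj : Function.Injective A := by
    rw [← LinearMap.ker_eq_bot, LinearMap.ker_eq_bot']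
    intro v hv
    have h1 : C.br x v = 0 := by rw [← hA, hv]; rfl
    exact Subtype.ext (hWP v ((hWm v).mpr h1) v.2)
  let Ae : P ≃ₗ[ℝ] P := LinearEquiv.ofInjectiveEndo A hAinj
  have hAe : ∀ v, Ae v = A v := fun v => rfl
  let N : Module.End ℝ P := (Ae.symm : P →ₗ[ℝ] P) ∘ₗ D
  have hfin : Set.Finite {μ : ℝ | N.HasEigenvalue μ} := Module.End.finite_hasEigenvalue N
  obtain ⟨c, hc⟩ := hfin.exists_notMem
  refine ⟨c, fun z hz => ?_⟩
  obtain ⟨w, u, hw, hu, hzwu⟩ := exists_decomp C.B C.symm C.pos W z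
  have hu : u ∈ P := hu
  have hwx : C.br x w = 0 := (hWm w).mp hw
  have h1 : C.br y w = (c • C.br x u - C.br y u) := by
    rw [hzwu] at hz
    simp only [map_add, map_sub, map_smul, LinearMap.sub_apply, LinearMap.smul_apply, hwx] at hz
    have : C.br y w = c • C.br x u - C.br y u := by
      have h2 : (0:V) = (c • C.br x u - C.br y u) - C.br y w := by
        rw [← hz]; module
      exact (sub_eq_zero.mp h2.symm).symm
    exact this
  have h2 : C.br y w = 0 := by
    apply hWP _ (hyW w hw)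
    rw [h1]
    exact P.sub_mem (P.smul_mem c (hxP u hu)) (hyP u hu)
  have h3 : c • C.br x u = C.br y u := by
    rw [h2] at h1
    exact sub_eq_zero.mp h1.symm
  have hu0 : u = 0 := by
    by_contra hne
    apply hc
    show N.HasEigenvalue c
    apply Module.End.hasEigenvalue_of_hasEigenvector (x := (⟨u, hu⟩ : P))
    refine ⟨?_, fun h => hne (congrArg Subtype.val h)⟩
    rw [Module.End.mem_eigenspace_iff]
    show Ae.symm (D ⟨u, hu⟩) = c • (⟨u, hu⟩ : P)
    rw [LinearEquiv.symm_apply_eq, map_smul, hAe]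
    apply Subtype.ext
    rw [hD]
    exact h3.symm
  rw [hzwu, hu0, add_zero]
  exact ⟨hwx, h2⟩

/-- existence of regular elements in abelian subspaces. -/
theorem exists_regular (t : Submodule ℝ V) (ht : ∀ x ∈ t, ∀ y ∈ t, C.br x y = 0) :
    ∃ x ∈ t, ∀ z, C.br x z = 0 → ∀ y ∈ t, C.br y z = 0 := by
  obtain ⟨x, hx, hmin⟩ : ∃ x ∈ t, ∀ y ∈ t,
      Module.finrank ℝ (LinearMap.ker (C.br x)) ≤ Module.finrank ℝ (LinearMap.ker (C.br y)) := by
    have hne : ((fun x => Module.finrank ℝ (LinearMap.ker (C.br x))) '' (t : Set V)).Nonempty :=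
      ⟨_, 0, t.zero_mem, rfl⟩
    obtain ⟨n, ⟨x, hx, rfl⟩, hn⟩ := Nat.lt_wfRel.wf.has_min _ hne
    refine ⟨x, hx, fun y hy => ?_⟩
    have := hn _ ⟨y, hy, rfl⟩
    exact not_lt.mp this
  refine ⟨x, hx, fun z hz y hy => ?_⟩
  obtain ⟨c, hc⟩ := C.regular_step x y (ht x hx y hy)
  have hle : LinearMap.ker (C.br (c • x - y)) ≤ LinearMap.ker (C.br x) := by
    intro w hw
    exact (hc w hw).1
  have heq : LinearMap.ker (C.br (c • x - y)) = LinearMap.ker (C.br x) := by
    apply Submodule.eq_of_le_of_finrank_le hle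
    exact hmin _ (t.sub_mem (t.smul_mem c hx) hy)
  have h1 : z ∈ LinearMap.ker (C.br (c • x - y)) := by
    rw [heq]; exact hz
  exact (hc z h1).2

end Cpt

end Pool.Agent.Helper3.LieAlg
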