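import Pool.Agent.Helper3.PW
import Pool.Agent.Helper3.Lie
import Pool.Agent.Helper3.LieAlg

set_option autoImplicit false
set_option linter.unusedSectionVars false

namespace Pool.Agent.Helper3.Conc

open Topology Filter Set NormedSpace
open Pool.Agent.Helper3.Lie Pool.Agent.Helper3.LieAlg
open scoped RealInnerProductSpace

variable {G : Type} [Group G] [TopologicalSpace G] [IsTopologicalGroup G] [CompactSpace G]
  {V : Type*} [NormedAddCommGroup V] [InnerProductSpace ℝ V] [FiniteDimensional ℝ V]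
  (ρ : G →* (V →L[ℝ] V)) (hρ : Continuous ρ)

/-- the image of the representation as a closed matrix group. -/
noncomputable def gp : ClosedGp (V →L[ℝ] V) where
  K := MonoidHom.mrange ρ
  closed := by
    rw [MonoidHom.coe_mrange]
    exact (isCompact_range hρ).isClosed
  inv := by
    rintro _ ⟨g, rfl⟩
    exact ⟨ρ g⁻¹, ⟨g⁻¹, rfl⟩, by rw [← map_mul, mul_inv_cancel, map_one]⟩

theorem mem_gp (x : V →L[ℝ] V) : x ∈ (gp ρ hρ).K ↔ ∃ g, ρ g = x := MonoidHom.mem_mrange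

/-- the Lie algebra. -/
noncomputable abbrev 𝔨 : Submodule ℝ (V →L[ℝ] V) := lieSub (gp ρ hρ)

instance : FiniteDimensional ℝ (V →L[ℝ] V) := inferInstance

/-- trace. -/
noncomputable def trE : (V →L[ℝ] V) →ₗ[ℝ] ℝ :=
  (LinearMap.trace ℝ V) ∘ₗ (ContinuousLinearMap.coeLM ℝ)

theorem trE_comm (X Y : V →L[ℝ] V) : trE (X * Y) = trE (Y * X) :=
  LinearMap.trace_mul_comm ℝ (X : V →ₗ[ℝ] V) (Y : V →ₗ[ℝ] V)

theorem trE_continuous : Continuous (trE : (V →L[ℝ] V) →ₗ[ℝ] ℝ) :=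
  LinearMap.continuous_of_finiteDimensional _

variable (hiso : ∀ g v, ‖ρ g v‖ = ‖v‖)

include hiso in
theorem inner_rho (g : G) (v w : V) : ⟪ρ g v, ρ g w⟫ = ⟪v, w⟫ :=
  (⟨(ρ g : V →ₗ[ℝ] V), hiso g⟩ : V →ₗᵢ[ℝ] V).inner_map_map v w

include hiso in
theorem skew_of_mem {X : V →L[ℝ] V} (hX : X ∈ 𝔨 ρ hρ) (v w : V) : ⟪X v, w⟫ = - ⟪v, X w⟫ := by
  have h1 : ∀ t : ℝ, ⟪exp (t • X) v, exp (t • X) w⟫ = ⟪v, w⟫ := by
    intro t
    obtain ⟨g, hg⟩ := (mem_gp ρ hρ _).mp (hX t)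
    rw [← hg]
    exact inner_rho ρ hiso g v w
  have hd : ∀ u : V, HasDerivAt (fun t : ℝ => exp (t • X) u) (X u) 0 := by
    intro u
    have h2 := hasDerivAt_exp_smul_const (𝕂 := ℝ) X 0
    have h3 := h2.clm_apply (hasDerivAt_const (0:ℝ) u)
    simpa using h3
  have h2 := (hd v).inner ℝ (hd w)
  have h3 : HasDerivAt (fun t : ℝ => ⟪exp (t • X) v, exp (t • X) w⟫) 0 0 := by
    simp only [h1]
    exact hasDerivAt_const _ _
  have h4 := h2.unique h3
  simp only [zero_smul, exp_zero, one_apply_eq_self] at h4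
  linarith

include hiso in
theorem trE_neg {X : V →L[ℝ] V} (hX : X ∈ 𝔨 ρ hρ) (h0 : X ≠ 0) : 0 < - trE (X * X) := by
  have b := stdOrthonormalBasis ℝ V
  have h1 : trE (X * X) = ∑ i, ⟪b i, X (X (b i))⟫ := by
    have := LinearMap.trace_eq_sum_inner ((X * X : V →L[ℝ] V) : V →ₗ[ℝ] V) b
    exact this
  have h2 : - trE (X * X) = ∑ i, ‖X (b i)‖ ^ 2 := by
    rw [h1, ← Finset.sum_neg_distrib]
    refine Finset.sum_congr rfl fun i _ => ?_
    rw [← skew_of_mem ρ hρ hiso hX, real_inner_self_eq_norm_sq]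
  rw [h2]
  apply Finset.sum_pos'
  · intro i _; positivity
  · by_contra hcon
    push Not at hcon
    apply h0
    have h3 : (X : V →ₗ[ℝ] V) = 0 := by
      apply b.toBasis.ext
      intro i
      have h4 := hcon i (Finset.mem_univ i)
      have h5 : ‖X (b i)‖ = 0 := by
        have := norm_nonneg (X (b i))
        nlinarith
      simpa using h5
    ext v
    exact congrArg (fun f : V →ₗ[ℝ] V => f v) h3


/-- the compact Lie algebra structure. -/
noncomputable def CL : Cpt (𝔨 ρ hρ) where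
  br := LinearMap.mk₂ ℝ (fun X Y => ⟨X.1 * Y.1 - Y.1 * X.1, bracket_mem _ X.2 Y.2⟩)
    (fun X Y Z => by
      apply Subtype.ext
      simp only [Submodule.coe_add]
      noncomm_ring)
    (fun c X Y => by
      apply Subtype.ext
      simp [smul_sub])
    (fun X Y Z => by
      apply Subtype.ext
      simp only [Submodule.coe_add]
      noncomm_ring)
    (fun c X Y => by
      apply Subtype.ext
      simp [smul_sub])
  B := LinearMap.mk₂ ℝ (fun X Y => - trE (X.1 * Y.1))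
    (fun X Y Z => by simp [add_mul]; ring)
    (fun c X Y => by simp)
    (fun X Y Z => by simp [mul_add]; ring)
    (fun c X Y => by simp)
  alt := fun X => by
    apply Subtype.ext
    simp
  jac := fun X Y Z => by
    apply Subtype.ext
    simp only [LinearMap.mk₂_apply, Submodule.coe_add]
    noncomm_ring
  symm := fun X Y => by
    simp only [LinearMap.mk₂_apply]
    rw [trE_comm]
  pos := fun X hX => by
    simp only [LinearMap.mk₂_apply]
    apply trE_neg ρ hρ hiso X.2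
    intro h
    exact hX (Subtype.ext h)
  inv := fun X Y Z => by
    simp only [LinearMap.mk₂_apply]
    have h := trE_comm Y.1 (X.1 * Z.1)
    rw [sub_mul, mul_sub, map_sub, map_sub, mul_assoc, mul_assoc, h, mul_assoc]

theorem CL_br (X Y : 𝔨 ρ hρ) : (((CL ρ hρ hiso).br X Y : 𝔨 ρ hρ) : V →L[ℝ] V) = X.1 * Y.1 - Y.1 * X.1 :=
  rfl

theorem CL_B (X Y : 𝔨 ρ hρ) : (CL ρ hρ hiso).B X Y = - trE (X.1 * Y.1) := rfl

/-- `ρ g` as a unit. -/
noncomputable def uρ (g : G) : (V →L[ℝ] V)ˣ :=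
  ⟨ρ g, ρ g⁻¹, by rw [← map_mul, mul_inv_cancel, map_one],
    by rw [← map_mul, inv_mul_cancel, map_one]⟩

theorem rho_mul_inv (g : G) : ρ g * ρ g⁻¹ = 1 := by rw [← map_mul, mul_inv_cancel, map_one]

theorem rho_inv_mul (g : G) : ρ g⁻¹ * ρ g = 1 := by rw [← map_mul, inv_mul_cancel, map_one]

/-- conjugation. -/
noncomputable def tg (g : G) : 𝔨 ρ hρ →ₗ[ℝ] 𝔨 ρ hρ where
  toFun X := ⟨ρ g * X.1 * ρ g⁻¹, conj_mem (gp ρ hρ) (uρ ρ g) ((mem_gp ρ hρ _).mpr ⟨g, rfl⟩)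
    ((mem_gp ρ hρ _).mpr ⟨g⁻¹, rfl⟩) X.2⟩
  map_add' X Y := by
    apply Subtype.ext
    simp [mul_add, add_mul]
  map_smul' c X := by
    apply Subtype.ext
    simp

theorem tg_coe (g : G) (X : 𝔨 ρ hρ) : ((tg ρ hρ g X : 𝔨 ρ hρ) : V →L[ℝ] V) = ρ g * X.1 * ρ g⁻¹ :=
  rfl

theorem tg_mul (g h : G) (X : 𝔨 ρ hρ) : tg ρ hρ (g * h) X = tg ρ hρ g (tg ρ hρ h X) := by
  apply Subtype.ext
  simp only [tg_coe, map_mul, mul_inv_rev, mul_assoc]

theorem tg_one (X : 𝔨 ρ hρ) : tg ρ hρ 1 X = X := by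
  apply Subtype.ext
  simp [tg_coe]

theorem tg_br (g : G) (X Y : 𝔨 ρ hρ) : tg ρ hρ g ((CL ρ hρ hiso).br X Y) =
    (CL ρ hρ hiso).br (tg ρ hρ g X) (tg ρ hρ g Y) := by
  apply Subtype.ext
  simp only [CL_br, tg_coe]
  have h : ∀ A C : V →L[ℝ] V, ρ g * A * ρ g⁻¹ * (ρ g * C * ρ g⁻¹) = ρ g * (A * C) * ρ g⁻¹ := by
    intro A C
    calc ρ g * A * ρ g⁻¹ * (ρ g * C * ρ g⁻¹) = ρ g * A * (ρ g⁻¹ * ρ g) * C * ρ g⁻¹ := by
          simp only [mul_assoc]
      _ = ρ g * (A * C) * ρ g⁻¹ := by rw [rho_inv_mul]; simp only [mul_assoc, mul_one, one_mul]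
  rw [h, h, mul_sub, sub_mul]

theorem tg_B (g : G) (X Y : 𝔨 ρ hρ) : (CL ρ hρ hiso).B (tg ρ hρ g X) (tg ρ hρ g Y) =
    (CL ρ hρ hiso).B X Y := by
  simp only [CL_B, tg_coe]
  have h : ∀ A C : V →L[ℝ] V, ρ g * A * ρ g⁻¹ * (ρ g * C * ρ g⁻¹) = ρ g * (A * C) * ρ g⁻¹ := by
    intro A C
    calc ρ g * A * ρ g⁻¹ * (ρ g * C * ρ g⁻¹) = ρ g * A * (ρ g⁻¹ * ρ g) * C * ρ g⁻¹ := by
          simp only [mul_assoc]
      _ = ρ g * (A * C) * ρ g⁻¹ := by rw [rho_inv_mul]; simp only [mul_assoc, mul_one, one_mul]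
  rw [h, trE_comm, ← mul_assoc, rho_inv_mul, one_mul]

theorem tg_continuous (X : 𝔨 ρ hρ) : Continuous (fun g => tg ρ hρ g X) := by
  apply Continuous.subtype_mk
  fun_prop

/-- conjugation as a linear equiv. -/
noncomputable def sg (g : G) : 𝔨 ρ hρ ≃ₗ[ℝ] 𝔨 ρ hρ :=
  LinearEquiv.ofLinearMap (tg ρ hρ g) (tg ρ hρ g⁻¹)
    (by ext X : 1
        simp only [LinearMap.comp_apply, LinearMap.id_apply]
        rw [← tg_mul, mul_inv_cancel, tg_one])
    (by ext X : 1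
        simp only [LinearMap.comp_apply, LinearMap.id_apply]
        rw [← tg_mul, inv_mul_cancel, tg_one])

theorem sg_apply (g : G) (X : 𝔨 ρ hρ) : sg ρ hρ g X = tg ρ hρ g X := rfl

end Pool.Agent.Helper3.Conc
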