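import Pool.Agent.Helper3.Conc

set_option autoImplicit false
set_option linter.unusedSectionVars false

namespace Pool.Agent.Helper3.Conc

open Topology Filter Set NormedSpace
open Pool.Agent.Helper3.Lie Pool.Agent.Helper3.LieAlg
open scoped RealInnerProductSpace

variable {G : Type} [Group G] [TopologicalSpace G] [IsTopologicalGroup G] [CompactSpace G]
  {V : Type*} [NormedAddCommGroup V] [InnerProductSpace ℝ V] [FiniteDimensional ℝ V]
  (ρ : G →* (V →L[ℝ] V)) (hρ : Continuous ρ) (hiso : ∀ g v, ‖ρ g v‖ = ‖v‖)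

/-- the adjoint orbit curve. -/
theorem curve_deriv (Z Y : V →L[ℝ] V) :
    HasDerivAt (fun s : ℝ => exp (s • Z) * Y * exp (-(s • Z))) (Z * Y - Y * Z) 0 := by
  have h1 := (hasDerivAt_exp_smul_const (𝕂 := ℝ) Z 0).mul_const Y
  have h2 : HasDerivAt (fun t : ℝ => exp (-(t • Z))) (exp ((0:ℝ) • (-Z)) * (-Z)) 0 := by
    have := hasDerivAt_exp_smul_const (𝕂 := ℝ) (-Z) 0
    simpa using this
  have h3 := h1.fun_mul h2
  have e : exp ((0:ℝ) • Z) * Z * Y * exp (-((0:ℝ) • Z)) +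
      exp ((0:ℝ) • Z) * Y * (exp ((0:ℝ) • (-Z)) * (-Z)) = Z * Y - Y * Z := by
    simp [sub_eq_add_neg]
  rw [e] at h3
  exact h3

theorem exists_g (Z : 𝔨 ρ hρ) (s : ℝ) : ∃ g : G, ρ g = exp (s • (Z : V →L[ℝ] V)) ∧
    ρ g⁻¹ = exp (-(s • (Z : V →L[ℝ] V))) := by
  obtain ⟨g, hg⟩ := (mem_gp ρ hρ _).mp (Z.2 s)
  refine ⟨g, hg, ?_⟩
  calc ρ g⁻¹ = ρ g⁻¹ * (exp (s • (Z : V →L[ℝ] V)) * exp (-(s • (Z : V →L[ℝ] V)))) := by
        rw [exp_mul_neg, mul_one]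
    _ = ρ g⁻¹ * ρ g * exp (-(s • (Z : V →L[ℝ] V))) := by rw [← hg, mul_assoc]
    _ = _ := by rw [rho_inv_mul, one_mul]

/-- commuting elements from maximality. -/
theorem exists_commute (x y : 𝔨 ρ hρ) : ∃ k : G, (CL ρ hρ hiso).br (tg ρ hρ k y) x = 0 := by
  have hc : Continuous (fun g => (CL ρ hρ hiso).B (tg ρ hρ g y) x) := by
    have h1 := tg_continuous ρ hρ y
    have h2 : Continuous (fun z => (CL ρ hρ hiso).B z x) := by
      have : (fun z => (CL ρ hρ hiso).B z x) = ((CL ρ hρ hiso).B.flip x) := rfl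
      rw [this]
      exact LinearMap.continuous_of_finiteDimensional _
    exact h2.comp h1
  obtain ⟨k, -, hk⟩ := isCompact_univ.exists_isMaxOn (⟨1, trivial⟩ : (univ : Set G).Nonempty)
    hc.continuousOn
  refine ⟨k, ?_⟩
  set y' := tg ρ hρ k y with hy'
  have hZ : ∀ Z : 𝔨 ρ hρ, (CL ρ hρ hiso).B ((CL ρ hρ hiso).br Z y') x = 0 := by
    intro Z
    have hmax : IsLocalMax (fun s : ℝ => - trE (exp (s • (Z : V →L[ℝ] V)) * (y' : V →L[ℝ] V) *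
        exp (-(s • (Z : V →L[ℝ] V))) * (x : V →L[ℝ] V))) 0 := by
      apply Eventually.of_forall
      intro s
      obtain ⟨g, hg1, hg2⟩ := exists_g ρ hρ Z s
      have h1 := hk (mem_univ (g * k))
      simp only [mem_ofPred_eq] at h1
      rw [tg_mul, ← hy', CL_B, CL_B, tg_coe, hg1, hg2] at h1
      simpa using h1
    have hd : HasDerivAt (fun s : ℝ => - trE (exp (s • (Z : V →L[ℝ] V)) * (y' : V →L[ℝ] V) *
        exp (-(s • (Z : V →L[ℝ] V))) * (x : V →L[ℝ] V)))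
        (- trE (((Z : V →L[ℝ] V) * (y' : V →L[ℝ] V) - (y' : V →L[ℝ] V) * (Z : V →L[ℝ] V)) *
          (x : V →L[ℝ] V))) 0 := by
      have h1 := (curve_deriv (Z : V →L[ℝ] V) (y' : V →L[ℝ] V)).mul_const (x : V →L[ℝ] V)
      have h2 : ∀ A : V →L[ℝ] V, HasFDerivAt (fun X : V →L[ℝ] V => trE X)
          (LinearMap.toContinuousLinearMap (trE : (V →L[ℝ] V) →ₗ[ℝ] ℝ)) A :=
        fun A => (LinearMap.toContinuousLinearMap (trE : (V →L[ℝ] V) →ₗ[ℝ] ℝ)).hasFDerivAt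
      exact ((h2 _).comp_hasDerivAt 0 h1).neg
    have := hmax.hasDerivAt_eq_zero hd
    rw [CL_B, CL_br]
    exact this
  by_contra hne
  apply ((CL ρ hρ hiso).pos _ hne).ne'
  have h := hZ ((CL ρ hρ hiso).br y' x)
  rw [(CL ρ hρ hiso).inv] at h
  exact h

/-- conjugacy of maximal abelian subspaces. -/
theorem conj_maxAb (t t' : Submodule ℝ (𝔨 ρ hρ)) (ht : (CL ρ hρ hiso).IsMaxAb t)
    (ht' : (CL ρ hρ hiso).IsMaxAb t') :
    ∃ k : G, ∀ w, w ∈ t' ↔ tg ρ hρ k w ∈ t := by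
  set C := CL ρ hρ hiso with hC
  obtain ⟨x, hx, hxr⟩ := C.exists_regular t ht.1
  obtain ⟨y, hy, hyr⟩ := C.exists_regular t' ht'.1
  obtain ⟨k, hk⟩ := exists_commute ρ hρ hiso x y
  rw [← hC] at hk
  have hinv : ∀ z, tg ρ hρ k (tg ρ hρ k⁻¹ z) = z := fun z => by
    rw [← tg_mul, mul_inv_cancel, tg_one]
  have hinv' : ∀ z, tg ρ hρ k⁻¹ (tg ρ hρ k z) = z := fun z => by
    rw [← tg_mul, inv_mul_cancel, tg_one]
  have h1 : ∀ u ∈ t, C.br u (tg ρ hρ k y) = 0 := by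
    apply hxr
    rw [C.skew, hk, neg_zero]
  have h2 : ∀ u ∈ t, ∀ w ∈ t', C.br w (tg ρ hρ k⁻¹ u) = 0 := by
    intro u hu
    apply hyr
    have h3 : C.br (tg ρ hρ k y) u = 0 := by rw [C.skew, h1 u hu, neg_zero]
    have h4 := tg_br ρ hρ hiso k⁻¹ (tg ρ hρ k y) u
    rw [← hC, h3, map_zero, hinv'] at h4
    exact h4.symm
  refine ⟨k, fun w => ⟨fun hw => ?_, fun hw => ?_⟩⟩
  · apply ht.2
    intro u hu
    have h4 := tg_br ρ hρ hiso k w (tg ρ hρ k⁻¹ u)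
    rw [← hC, h2 u hu w hw, map_zero, hinv] at h4
    exact h4.symm
  · apply ht'.2
    intro v hv
    have h4 := h2 _ hw v hv
    rw [hinv'] at h4
    rw [C.skew, h4, neg_zero]

/-- normaliser of a subspace. -/
def nrm (t : Submodule ℝ (𝔨 ρ hρ)) : Subgroup G where
  carrier := {g | ∀ x ∈ t, tg ρ hρ g x ∈ t ∧ tg ρ hρ g⁻¹ x ∈ t}
  mul_mem' := by
    intro a b ha hb x hx
    rw [tg_mul, mul_inv_rev, tg_mul]
    exact ⟨(ha _ (hb x hx).1).1, (hb _ (ha x hx).2).2⟩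
  one_mem' := by
    intro x hx
    rw [inv_one, tg_one]
    exact ⟨hx, hx⟩
  inv_mem' := by
    intro a ha x hx
    rw [inv_inv]
    exact ⟨(ha x hx).2, (ha x hx).1⟩

theorem mem_nrm (t : Submodule ℝ (𝔨 ρ hρ)) (g : G) :
    g ∈ nrm ρ hρ t ↔ ∀ x ∈ t, tg ρ hρ g x ∈ t ∧ tg ρ hρ g⁻¹ x ∈ t := Iff.rfl

theorem nrm_closed (t : Submodule ℝ (𝔨 ρ hρ)) : IsClosed (nrm ρ hρ t : Set G) := by
  have ht : IsClosed (t : Set (𝔨 ρ hρ)) := t.closed_of_finiteDimensional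
  have : (nrm ρ hρ t : Set G) = ⋂ x ∈ t, ((fun g => tg ρ hρ g x) ⁻¹' (t : Set (𝔨 ρ hρ)) ∩
      (fun g => tg ρ hρ g⁻¹ x) ⁻¹' (t : Set (𝔨 ρ hρ))) := by
    ext g
    simp only [mem_iInter, mem_inter_iff, mem_preimage]
    exact Iff.rfl
  rw [this]
  apply isClosed_biInter
  intro x _
  exact (ht.preimage (tg_continuous ρ hρ x)).inter
    (ht.preimage ((tg_continuous ρ hρ x).comp continuous_inv))

theorem nrm_meets (t : Submodule ℝ (𝔨 ρ hρ)) (ht : (CL ρ hρ hiso).IsMaxAb t) (g : G) :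
    ∃ k : G, k * g * k⁻¹ ∈ nrm ρ hρ t := by
  set C := CL ρ hρ hiso with hC
  obtain ⟨t', ht', hinvt⟩ := C.exists_invariant_maxAb (sg ρ hρ g) (tg_br ρ hρ hiso g)
    (tg_B ρ hρ hiso g)
  obtain ⟨k, hk⟩ := conj_maxAb ρ hρ hiso t t' ht ht'
  have hinv1 : ∀ x ∈ t', tg ρ hρ g x ∈ t' := hinvt
  have hinv2 : ∀ x ∈ t', tg ρ hρ g⁻¹ x ∈ t' := by
    intro x hx
    apply ht'.2
    intro y hy
    have h4 := tg_br ρ hρ hiso g⁻¹ x (tg ρ hρ g y)
    rw [← hC, ht'.1 x hx _ (hinv1 y hy), map_zero, ← tg_mul, inv_mul_cancel, tg_one] at h4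
    exact h4.symm
  have key : ∀ h : G, (∀ x ∈ t', tg ρ hρ h x ∈ t') → ∀ x ∈ t, tg ρ hρ (k * h * k⁻¹) x ∈ t := by
    intro h hh x hx
    rw [tg_mul, tg_mul, ← hk]
    apply hh
    rw [hk, ← tg_mul, mul_inv_cancel, tg_one]
    exact hx
  refine ⟨k, fun x hx => ⟨key g hinv1 x hx, ?_⟩⟩
  have : (k * g * k⁻¹)⁻¹ = k * g⁻¹ * k⁻¹ := by group
  rw [this]
  exact key g⁻¹ hinv2 x hx

/-- if the normaliser is everything, the Lie algebra is abelian. -/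
theorem abelian_of_nrm (t : Submodule ℝ (𝔨 ρ hρ)) (ht : (CL ρ hρ hiso).IsMaxAb t)
    (hn : ∀ g, g ∈ nrm ρ hρ t) (X Y : 𝔨 ρ hρ) : (CL ρ hρ hiso).br X Y = 0 := by
  set C := CL ρ hρ hiso with hC
  have h1 : ∀ Z : 𝔨 ρ hρ, ∀ x ∈ t, C.br Z x ∈ t := by
    intro Z x hx
    set tE : Submodule ℝ (V →L[ℝ] V) := t.map (𝔨 ρ hρ).subtype with htE
    have hmem : ∀ s : ℝ, exp (s • (Z : V →L[ℝ] V)) * (x : V →L[ℝ] V) *
        exp (-(s • (Z : V →L[ℝ] V))) ∈ tE := by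
      intro s
      obtain ⟨g, hg1, hg2⟩ := exists_g ρ hρ Z s
      refine ⟨tg ρ hρ g x, (hn g x hx).1, ?_⟩
      rw [Submodule.subtype_apply, tg_coe, hg1, hg2]
    have hcl : IsClosed (tE : Set (V →L[ℝ] V)) := tE.closed_of_finiteDimensional
    have hslope := (curve_deriv (Z : V →L[ℝ] V) (x : V →L[ℝ] V)).tendsto_slope_zero
    have h2 : (Z : V →L[ℝ] V) * x - x * Z ∈ tE := by
      refine hcl.mem_of_tendsto hslope (Eventually.of_forall fun s => ?_)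
      exact tE.smul_mem _ (tE.sub_mem (hmem _) (hmem _))
    obtain ⟨z, hz, hz2⟩ := h2
    have : C.br Z x = z := Subtype.ext hz2.symm
    rw [this]
    exact hz
  have h2 : ∀ Z : 𝔨 ρ hρ, ∀ x ∈ t, C.br Z x = 0 := by
    intro Z x hx
    by_contra hne
    apply (C.pos _ hne).ne'
    rw [C.inv, ht.1 x hx _ (h1 Z x hx), map_zero]
  have h3 : ∀ Z, Z ∈ t := fun Z => ht.2 Z (h2 Z)
  exact ht.1 X (h3 X) Y (h3 Y)

/-- if the Lie algebra is abelian, the identity component has abelian image. -/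
theorem commute_of_abelian (hab : ∀ X Y : 𝔨 ρ hρ, (CL ρ hρ hiso).br X Y = 0)
    (a b : G) (ha : a ∈ connectedComponent (1 : G)) (hb : b ∈ connectedComponent (1 : G)) :
    ρ a * ρ b = ρ b * ρ a := by
  have hcomm : ∀ X Y : 𝔨 ρ hρ, Commute (X : V →L[ℝ] V) (Y : V →L[ℝ] V) := by
    intro X Y
    have h := congrArg Subtype.val (hab X Y)
    rw [CL_br] at h
    exact sub_eq_zero.mp h
  let U : Subgroup G :=
    { carrier := {g | ∃ X : 𝔨 ρ hρ, exp (X : V →L[ℝ] V) = ρ g}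
      mul_mem' := by
        rintro g h ⟨X, hX⟩ ⟨Y, hY⟩
        refine ⟨X + Y, ?_⟩
        rw [Submodule.coe_add, exp_add' (hcomm X Y), hX, hY, map_mul]
      one_mem' := ⟨0, by simp⟩
      inv_mem' := by
        rintro g ⟨X, hX⟩
        refine ⟨-X, ?_⟩
        rw [Submodule.coe_neg]
        calc exp (-(X : V →L[ℝ] V)) = exp (-(X : V →L[ℝ] V)) * (ρ g * ρ g⁻¹) := by
              rw [rho_mul_inv, mul_one]
          _ = ρ g⁻¹ := by rw [← hX, ← mul_assoc, exp_neg_mul, one_mul] }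
  have hUm : ∀ g, g ∈ U ↔ ∃ X : 𝔨 ρ hρ, exp (X : V →L[ℝ] V) = ρ g := fun g => Iff.rfl
  have hU : (U : Set G) ∈ 𝓝 (1 : G) := by
    obtain ⟨W, hW, hWK⟩ := closed_subgroup (gp ρ hρ)
    have h1 : ρ ⁻¹' W ∈ 𝓝 (1 : G) := by
      apply hρ.continuousAt.preimage_mem_nhds
      rw [map_one]
      exact hW
    filter_upwards [h1] with g hg
    obtain ⟨X, hX, hXe⟩ := hWK (ρ g) ((mem_gp ρ hρ _).mpr ⟨g, rfl⟩) hg
    exact ⟨⟨X, hX⟩, hXe⟩
  have hUo : IsOpen (U : Set G) := U.isOpen_of_mem_nhds hU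
  have hUc : IsClopen (U : Set G) := ⟨U.isClosed_of_isOpen hUo, hUo⟩
  have hsub : connectedComponent (1 : G) ⊆ U := hUc.connectedComponent_subset U.one_mem
  obtain ⟨X, hX⟩ := hsub ha
  obtain ⟨Y, hY⟩ := hsub hb
  rw [← hX, ← hY, ← exp_add' (hcomm X Y), add_comm, exp_add' (hcomm Y X)]

/-- Main theorem: one direction. -/
theorem comm_of_TIG [T2Space G]
    (h : ∀ H : Subgroup G, IsClosed (H : Set G) → (∀ g, ∃ k, k * g * k⁻¹ ∈ H) → H = ⊤)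
    (a b : G) (ha : a ∈ connectedComponent (1 : G)) (hb : b ∈ connectedComponent (1 : G)) :
    a * b = b * a := by
  by_contra hne
  borelize G
  have hc : a * b * (b * a)⁻¹ ≠ 1 := by
    intro h1
    exact hne (mul_inv_eq_one.mp h1)
  obtain ⟨V, hV, ρ, hρ, hiso, hρc⟩ := PW.peter_weyl _ hc
  obtain ⟨t, ht, -⟩ := (CL ρ hρ hiso).exists_invariant_maxAb (sg ρ hρ 1) (tg_br ρ hρ hiso 1)
    (tg_B ρ hρ hiso 1)
  have htop := h (nrm ρ hρ t) (nrm_closed ρ hρ t) (nrm_meets ρ hρ hiso t ht)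
  have hab := abelian_of_nrm ρ hρ hiso t ht (fun g => by rw [htop]; trivial)
  have hcomm := commute_of_abelian ρ hρ hiso hab a b ha hb
  apply hρc
  have h2 : ρ (a * b) = ρ (b * a) := by rw [map_mul, map_mul, hcomm]
  rw [map_mul, h2, rho_mul_inv]

end Pool.Agent.Helper3.Conc
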