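import Pool.Agent.Helper3.Hadamard

set_option autoImplicit false

namespace Pool.Agent.Helper3.Fold

open Set Topology Filter

theorem hasDerivAt_of_ne_local {f g : ℝ → ℝ} {x : ℝ} {s : Set ℝ} (hs : IsOpen s) (hx : x ∈ s)
    (f_diff : ∀ y ∈ s, y ≠ x → HasDerivAt f (g y) y) (hf : ContinuousAt f x)
    (hg : ContinuousAt g x) : HasDerivAt f (g x) x := by
  have hsn : s ∈ 𝓝 x := hs.mem_nhds hx
  have A : HasDerivWithinAt f (g x) (Ici x) x := by
    have diff : DifferentiableOn ℝ f (s ∩ Ioi x) := fun y hy =>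
      (f_diff y hy.1 (ne_of_gt hy.2)).differentiableAt.differentiableWithinAt
    apply hasDerivWithinAt_Ici_of_tendsto_deriv diff hf.continuousWithinAt
      (inter_mem (mem_nhdsWithin_of_mem_nhds hsn) self_mem_nhdsWithin)
    have : Tendsto g (𝓝[>] x) (𝓝 (g x)) := tendsto_inf_left hg
    apply this.congr' _
    filter_upwards [mem_nhdsWithin_of_mem_nhds hsn, self_mem_nhdsWithin] with y hy hy'
    exact (f_diff y hy (ne_of_gt hy')).deriv.symm
  have B : HasDerivWithinAt f (g x) (Iic x) x := by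
    have diff : DifferentiableOn ℝ f (s ∩ Iio x) := fun y hy =>
      (f_diff y hy.1 (ne_of_lt hy.2)).differentiableAt.differentiableWithinAt
    apply hasDerivWithinAt_Iic_of_tendsto_deriv diff hf.continuousWithinAt
      (inter_mem (mem_nhdsWithin_of_mem_nhds hsn) self_mem_nhdsWithin)
    have : Tendsto g (𝓝[<] x) (𝓝 (g x)) := tendsto_inf_left hg
    apply this.congr' _
    filter_upwards [mem_nhdsWithin_of_mem_nhds hsn, self_mem_nhdsWithin] with y hy hy'
    exact (f_diff y hy (ne_of_lt hy')).deriv.symm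
  simpa using B.union A

/-- Local form of the lift near a fold point. -/
noncomputable def E (ψ : ℝ → ℝ) (t : ℝ) : ℝ := Real.sign t * Real.arccos (ψ (Real.cos t))

theorem fold (n : ℕ) (ψ : ℝ → ℝ) (h : ContDiffOn ℝ (n + 1 : ℕ) ψ (Icc (-1) 1))
    (hmaps : ∀ x ∈ Icc (-1:ℝ) 1, ψ x ∈ Icc (-1:ℝ) 1) (hinj : InjOn ψ (Icc (-1) 1))
    (h1 : ψ 1 = 1) (hder : derivWithin ψ (Icc (-1) 1) 1 ≠ 0) :
    ContDiffAt ℝ (n + 1 : ℕ) (E ψ) 0 := by
  have hlt : (-1:ℝ) < 1 := by norm_num
  have hu := uniqueDiffOn_Icc hlt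
  have hone : (1:ℝ) ∈ Icc (-1:ℝ) 1 := by constructor <;> norm_num
  have hmone : (-1:ℝ) ∈ Icc (-1:ℝ) 1 := by constructor <;> norm_num
  obtain ⟨q, hq, hq1, hq2⟩ := Hadamard.hadamard (-1) 1 hlt n ψ h
  rw [h1] at hq1
  have hmono : StrictMonoOn ψ (Icc (-1) 1) := by
    rcases ContinuousOn.strictMonoOn_of_injOn_Icc' hlt.le h.continuousOn hinj with h2 | h2
    · exact h2
    · exfalso
      have := h2 hmone hone hlt
      rw [h1] at this
      have := (hmaps (-1) hmone).2
      linarith
  have hgt : ∀ x ∈ Ioc (-1:ℝ) 1, -1 < ψ x := by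
    intro x hx
    have := hmono hmone (Ioc_subset_Icc_self hx) hx.1
    have := (hmaps (-1) hmone).1
    linarith
  have hlt1 : ∀ x ∈ Ico (-1:ℝ) 1, ψ x < 1 := by
    intro x hx
    have := hmono (Ico_subset_Icc_self hx) hone hx.2
    rwa [h1] at this
  have hqpos : ∀ x ∈ Icc (-1:ℝ) 1, 0 < q x := by
    have hlt' : ∀ x ∈ Ico (-1:ℝ) 1, 0 < q x := by
      intro x hx
      have e := hq1 x (Ico_subset_Icc_self hx)
      have h3 := hlt1 x hx
      have h4 : 0 < 1 - x := by linarith [hx.2]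
      have h5 : 0 < q x * (1 - x) := by rw [← e]; linarith
      exact (pos_iff_pos_of_mul_pos h5).mpr h4
    intro x hx
    rcases eq_or_lt_of_le hx.2 with h3 | h3
    · rw [h3]
      have h4 : 0 ≤ q 1 := by
        have hc : ContinuousWithinAt q (Ico (-1) 1) 1 :=
          (hq.continuousOn 1 hone).mono Ico_subset_Icc_self
        have hne : (𝓝[Ico (-1:ℝ) 1] 1).NeBot := by
          rw [← mem_closure_iff_nhdsWithin_neBot, closure_Ico hlt.ne]
          exact hone
        apply ge_of_tendsto hc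
        filter_upwards [self_mem_nhdsWithin] with y hy
        exact (hlt' y hy).le
      rw [hq2] at h4 ⊢
      exact lt_of_le_of_ne h4 hder.symm
    · exact hlt' x ⟨hx.1, h3⟩
  set Q : ℝ → ℝ := fun x => q x * (1 + ψ x) / (1 + x) with hQ
  set D : ℝ → ℝ := fun x => derivWithin ψ (Icc (-1) 1) x / √(Q x) with hD
  have hQpos : ∀ x ∈ Ioc (-1:ℝ) 1, 0 < Q x := by
    intro x hx
    have h2 := hqpos x (Ioc_subset_Icc_self hx)
    have h3 := hgt x hx
    have h4 : 0 < 1 + x := by linarith [hx.1]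
    have h5 : 0 < 1 + ψ x := by linarith
    simp only [hQ]
    positivity
  have hψ' : ContDiffOn ℝ n (derivWithin ψ (Icc (-1) 1)) (Icc (-1) 1) := by
    rw [Nat.cast_succ, contDiffOn_succ_iff_derivWithin hu] at h
    exact h.2.2
  have hψn : ContDiffOn ℝ n ψ (Icc (-1) 1) := h.of_le (by norm_cast; omega)
  have hDc : ContDiffOn ℝ n D (Ioc (-1) 1) := by
    have hs : Ioc (-1:ℝ) 1 ⊆ Icc (-1) 1 := Ioc_subset_Icc_self
    have hQc : ContDiffOn ℝ n Q (Ioc (-1) 1) := by
      apply ContDiffOn.div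
      · exact (hq.mono hs).mul (contDiffOn_const.add (hψn.mono hs))
      · exact contDiffOn_const.add contDiffOn_id
      · intro x hx
        have := hx.1
        have h4 : 0 < 1 + x := by linarith [hx.1]
        exact h4.ne'
    apply (hψ'.mono hs).div (hQc.sqrt fun x hx => (hQpos x hx).ne')
    intro x hx
    exact (Real.sqrt_pos.mpr (hQpos x hx)).ne'
  -- derivative away from zero
  have hcos : ∀ t ∈ Ioo (-Real.pi) Real.pi, Real.cos t ∈ Ioc (-1:ℝ) 1 := by
    intro t ht
    refine ⟨?_, Real.cos_le_one t⟩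
    have h2 : |t| < Real.pi := abs_lt.mpr ht
    rw [← Real.cos_abs, ← Real.cos_pi]
    exact Real.cos_lt_cos_of_nonneg_of_le_pi (abs_nonneg t) le_rfl h2
  have hsgn : ∀ t ∈ Ioo (-Real.pi) Real.pi, t ≠ 0 →
      Real.sign t * Real.sin t = |Real.sin t| ∧ 0 < |Real.sin t| := by
    intro t ht h0
    rcases lt_or_gt_of_ne h0 with h2 | h2
    · have h3 : Real.sin t < 0 := Real.sin_neg_of_neg_of_neg_pi_lt h2 ht.1
      rw [Real.sign_of_neg h2, abs_of_neg h3]
      constructor <;> linarith
    · have h3 : 0 < Real.sin t := Real.sin_pos_of_pos_of_lt_pi h2 ht.2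
      rw [Real.sign_of_pos h2, abs_of_pos h3]
      constructor <;> linarith
  have hne : ∀ t ∈ Ioo (-Real.pi) Real.pi, t ≠ 0 → HasDerivAt (E ψ) (D (Real.cos t)) t := by
    intro t ht h0
    obtain ⟨hs1, hs2⟩ := hsgn t ht h0
    have hx := hcos t ht
    have hx1 : Real.cos t < 1 := by
      rcases eq_or_lt_of_le hx.2 with h2 | h2
      · exfalso
        have h3 := Real.sin_sq_add_cos_sq t
        rw [h2] at h3
        have h4 : Real.sin t = 0 := by nlinarith
        rw [h4] at hs2
        simp at hs2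
      · exact h2
    have hxI : Real.cos t ∈ Icc (-1:ℝ) 1 := ⟨hx.1.le, hx.2⟩
    have hψd : HasDerivAt ψ (derivWithin ψ (Icc (-1) 1) (Real.cos t)) (Real.cos t) :=
      ((h.differentiableOn (by norm_num) _ hxI).hasDerivWithinAt).hasDerivAt
        (Icc_mem_nhds hx.1 hx1)
    have h3 : ψ (Real.cos t) ≠ 1 := (hlt1 _ ⟨hx.1.le, hx1⟩).ne
    have h4 : ψ (Real.cos t) ≠ -1 := (hgt _ hx).ne'
    have h5 := (((Real.hasDerivAt_arccos h4 h3).comp t
      (hψd.comp t (Real.hasDerivAt_cos t))).const_mul (Real.sign t))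
    have h6 : √(1 - ψ (Real.cos t) ^ 2) = √(Q (Real.cos t)) * |Real.sin t| := by
      have e1 : 1 - ψ (Real.cos t) ^ 2 = Q (Real.cos t) * Real.sin t ^ 2 := by
        have e2 := hq1 _ hxI
        have e3 : Real.sin t ^ 2 = (1 - Real.cos t) * (1 + Real.cos t) := by
          have := Real.sin_sq_add_cos_sq t
          linarith
        have e4 : 1 + Real.cos t ≠ 0 := by
          have := hx.1
          intro h
          linarith
        simp only [hQ]
        rw [e3]
        field_simp
        linear_combination (1 + ψ (Real.cos t)) * e2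
      rw [e1, Real.sqrt_mul (hQpos _ hx).le, Real.sqrt_sq_eq_abs]
    have h7 : 0 < √(Q (Real.cos t)) := Real.sqrt_pos.mpr (hQpos _ hx)
    have h8 : Real.sign t * (-(1 / √(1 - ψ (Real.cos t) ^ 2)) *
        (derivWithin ψ (Icc (-1) 1) (Real.cos t) * -Real.sin t)) = D (Real.cos t) := by
      rw [h6]
      simp only [hD]
      have : Real.sign t * Real.sin t = |Real.sin t| := hs1
      field_simp
      linear_combination (derivWithin ψ (Icc (-1) 1) (Real.cos t)) * this
    rw [← h8]
    refine h5.congr_of_eventuallyEq ?_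
    rcases lt_or_gt_of_ne h0 with h2 | h2
    · filter_upwards [Iio_mem_nhds h2] with y hy
      simp only [E, Function.comp, Real.sign_of_neg h2, Real.sign_of_neg (show y < 0 from hy)]
    · filter_upwards [Ioi_mem_nhds h2] with y hy
      simp only [E, Function.comp, Real.sign_of_pos h2, Real.sign_of_pos (show 0 < y from hy)]
  have hI : (0:ℝ) ∈ Ioo (-Real.pi) Real.pi := ⟨by linarith [Real.pi_pos], Real.pi_pos⟩
  have hDcos : ContDiffOn ℝ n (fun t => D (Real.cos t)) (Ioo (-Real.pi) Real.pi) :=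
    hDc.comp Real.contDiff_cos.contDiffOn hcos
  have hE0 : ContinuousAt (E ψ) 0 := by
    have h2 : Tendsto (fun t => Real.arccos (ψ (Real.cos t))) (𝓝 0) (𝓝 0) := by
      have h3 : ContinuousAt (fun t => ψ (Real.cos t)) 0 := by
        have h4 : ContinuousWithinAt ψ (Icc (-1) 1) (Real.cos 0) := by
          rw [Real.cos_zero]; exact h.continuousOn 1 hone
        have h5 : Tendsto Real.cos (𝓝 0) (𝓝[Icc (-1) 1] (Real.cos 0)) := by
          rw [tendsto_nhdsWithin_iff]
          exact ⟨Real.continuous_cos.continuousAt, Eventually.of_forall fun t => ⟨Real.neg_one_le_cos t, Real.cos_le_one t⟩⟩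
        exact h4.tendsto.comp h5
      have h6 : ContinuousAt (fun t => Real.arccos (ψ (Real.cos t))) 0 :=
        Real.continuous_arccos.continuousAt.comp h3
      have h7 := h6.tendsto
      rwa [Real.cos_zero, h1, Real.arccos_one] at h7
    have e0 : E ψ 0 = 0 := by simp [E]
    rw [ContinuousAt, e0]
    apply squeeze_zero_norm _ h2
    intro t
    rw [E, norm_mul]
    have h8 : ‖Real.sign t‖ ≤ 1 := by
      rcases Real.sign_apply_eq t with h | h | h <;> rw [h] <;> norm_num
    have h9 : ‖Real.arccos (ψ (Real.cos t))‖ = Real.arccos (ψ (Real.cos t)) :=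
      Real.norm_of_nonneg (Real.arccos_nonneg _)
    rw [h9]
    exact mul_le_of_le_one_left (Real.arccos_nonneg _) h8
  have hder0 : HasDerivAt (E ψ) (D (Real.cos 0)) 0 := by
    apply hasDerivAt_of_ne_local (g := fun t => D (Real.cos t)) isOpen_Ioo hI hne hE0
    exact (hDcos.continuousOn).continuousAt (isOpen_Ioo.mem_nhds hI)
  have hall : ∀ t ∈ Ioo (-Real.pi) Real.pi, HasDerivAt (E ψ) (D (Real.cos t)) t := by
    intro t ht
    by_cases h0 : t = 0
    · rw [h0]; exact hder0
    · exact hne t ht h0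
  have hfin : ContDiffOn ℝ (n + 1 : ℕ) (E ψ) (Ioo (-Real.pi) Real.pi) := by
    rw [Nat.cast_succ, contDiffOn_succ_iff_deriv_of_isOpen isOpen_Ioo]
    refine ⟨fun t ht => (hall t ht).differentiableAt.differentiableWithinAt, by simp, ?_⟩
    exact hDcos.congr fun t ht => (hall t ht).deriv
  exact hfin.contDiffAt (isOpen_Ioo.mem_nhds hI)

end Pool.Agent.Helper3.Fold
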