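import Mathlib

set_option autoImplicit false

namespace Pool.Agent.Helper3.Hadamard

open Set MeasureTheory intervalIntegral Topology

/-- averaging operator with base point `b`. -/
noncomputable def Av (b : ℝ) (m : ℕ) (φ : ℝ → ℝ) (x : ℝ) : ℝ :=
  ∫ t in (0:ℝ)..1, t ^ m * φ (b + t * (x - b))

theorem Av_continuous (b : ℝ) (m : ℕ) (φ : ℝ → ℝ) (hφ : Continuous φ) : Continuous (Av b m φ) := by
  unfold Av
  apply intervalIntegral.continuous_parametric_intervalIntegral_of_continuous'
  fun_prop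

theorem Av_hasDerivAt (b : ℝ) (m : ℕ) (φ φ' : ℝ → ℝ) (h : ∀ x, HasDerivAt φ (φ' x) x)
    (hc : Continuous φ') (x : ℝ) : HasDerivAt (Av b m φ) (Av b (m + 1) φ' x) x := by
  have hφ : Continuous φ := by
    rw [continuous_iff_continuousAt]
    exact fun x => (h x).continuousAt
  have hcc : Continuous (fun p : ℝ × ℝ => p.2 ^ (m + 1) * φ' (b + p.2 * (p.1 - b))) := by fun_prop
  obtain ⟨C, hC⟩ := ((isCompact_closedBall x 1).prod (isCompact_Icc (a := (0:ℝ)) (b := 1))).exists_bound_of_continuousOn hcc.continuousOn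
  have := intervalIntegral.hasDerivAt_integral_of_dominated_loc_of_deriv_le (μ := volume)
    (F := fun x t => t ^ m * φ (b + t * (x - b)))
    (F' := fun x t => t ^ (m + 1) * φ' (b + t * (x - b))) (x₀ := x) (s := Metric.closedBall x 1)
    (bound := fun _ => C) (a := (0:ℝ)) (b := 1)
    (Metric.closedBall_mem_nhds x one_pos) ?_ ?_ ?_ ?_ ?_ ?_
  · exact this.2
  · filter_upwards with y
    apply Continuous.aestronglyMeasurable
    fun_prop
  · apply Continuous.intervalIntegrable
    fun_prop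
  · apply Continuous.aestronglyMeasurable
    fun_prop
  · filter_upwards with t ht y hy
    have ht' : t ∈ Icc (0:ℝ) 1 := by
      rw [uIoc_of_le zero_le_one] at ht
      exact ⟨ht.1.le, ht.2⟩
    exact hC (y, t) ⟨hy, ht'⟩
  · exact intervalIntegrable_const
  · filter_upwards with t ht y hy
    have h1 : HasDerivAt (fun y => b + t * (y - b)) t y := by
      have := ((hasDerivAt_id y).sub_const b).const_mul t
      simpa using this.const_add b
    have h2 := ((h (b + t * (y - b))).comp y h1).const_mul (t ^ m)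
    have e : t ^ (m + 1) * φ' (b + t * (y - b)) = t ^ m * (φ' (b + t * (y - b)) * t) := by ring
    rw [e]
    exact h2

theorem Av_congr (a b : ℝ) (m : ℕ) (φ ψ : ℝ → ℝ) (h : EqOn φ ψ (Icc a b)) :
    EqOn (Av b m φ) (Av b m ψ) (Icc a b) := by
  intro x hx
  unfold Av
  apply intervalIntegral.integral_congr
  intro t ht
  rw [uIcc_of_le zero_le_one] at ht
  have : b + t * (x - b) ∈ Icc a b := by
    constructor
    · nlinarith [hx.1, hx.2, ht.1, ht.2]
    · nlinarith [hx.1, hx.2, ht.1, ht.2]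
  simp only [h this]

/-- a `C^1` function on `[a,b]` extends to a `C^1` function on the line. -/
theorem exists_ext (a b : ℝ) (hab : a < b) (φ : ℝ → ℝ) (h : ContDiffOn ℝ 1 φ (Icc a b)) :
    ∃ Φ Φ' : ℝ → ℝ, Continuous Φ' ∧ (∀ x, HasDerivAt Φ (Φ' x) x) ∧ EqOn Φ φ (Icc a b) ∧
      EqOn Φ' (derivWithin φ (Icc a b)) (Icc a b) := by
  have hu := uniqueDiffOn_Icc hab
  have hc : ContinuousOn (derivWithin φ (Icc a b)) (Icc a b) :=
    h.continuousOn_derivWithin hu le_rfl
  set Φ' : ℝ → ℝ := fun x => derivWithin φ (Icc a b) (projIcc a b hab.le x) with hΦ'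
  have hΦc : Continuous Φ' := by
    have : Continuous ((Icc a b).domRestrict (derivWithin φ (Icc a b))) :=
      continuousOn_iff_continuous_domRestrict.mp hc
    exact this.comp continuous_projIcc
  set Φ : ℝ → ℝ := fun x => φ a + ∫ u in a..x, Φ' u with hΦ
  have hd : ∀ x, HasDerivAt Φ (Φ' x) x := by
    intro x
    exact (intervalIntegral.integral_hasDerivAt_right (hΦc.intervalIntegrable _ _)
      (hΦc.stronglyMeasurableAtFilter _ _) hΦc.continuousAt).const_add _
  have heq' : EqOn Φ' (derivWithin φ (Icc a b)) (Icc a b) := by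
    intro x hx
    simp only [hΦ', projIcc_of_mem hab.le hx]
  refine ⟨Φ, Φ', hΦc, hd, ?_, heq'⟩
  have hdw : ∀ x ∈ Icc a b, HasDerivWithinAt Φ (Φ' x) (Icc a b) x := fun x _ =>
    (hd x).hasDerivWithinAt
  apply eq_of_derivWithin_eq (fun x hx => (hdw x hx).differentiableWithinAt)
    (h.differentiableOn (by norm_num))
  · intro x hx
    rw [(hdw x (mem_Icc_of_Ico hx)).derivWithin (hu x (mem_Icc_of_Ico hx)),
      heq' (mem_Icc_of_Ico hx)]
  · simp [hΦ]

theorem Av_contDiffOn (a b : ℝ) (hab : a < b) (n : ℕ) (m : ℕ) (φ : ℝ → ℝ)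
    (h : ContDiffOn ℝ n φ (Icc a b)) : ContDiffOn ℝ n (Av b m φ) (Icc a b) := by
  have hu := uniqueDiffOn_Icc hab
  induction n generalizing m φ with
  | zero =>
    rw [Nat.cast_zero, contDiffOn_zero] at h ⊢
    set φ₁ : ℝ → ℝ := fun x => φ (projIcc a b hab.le x) with hφ₁
    have hc1 : Continuous φ₁ := by
      have : Continuous ((Icc a b).domRestrict φ) :=
        continuousOn_iff_continuous_domRestrict.mp h
      exact this.comp continuous_projIcc
    have heq : EqOn φ φ₁ (Icc a b) := by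
      intro x hx
      simp only [hφ₁, projIcc_of_mem hab.le hx]
    exact ((Av_continuous b m φ₁ hc1).continuousOn).congr (Av_congr a b m φ φ₁ heq)
  | succ n ih =>
    have h1 : ContDiffOn ℝ 1 φ (Icc a b) := h.of_le (by norm_cast; omega)
    obtain ⟨Φ, Φ', hc, hd, hΦ, hΦ'⟩ := exists_ext a b hab φ h1
    have hder : ∀ x ∈ Icc a b, HasDerivWithinAt (Av b m φ)
        (Av b (m + 1) (derivWithin φ (Icc a b)) x) (Icc a b) x := by
      intro x hx
      have h2 := (Av_hasDerivAt b m Φ Φ' hd hc x).hasDerivWithinAt (s := Icc a b)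
      rw [← Av_congr a b (m + 1) Φ' _ hΦ' hx]
      exact h2.congr (fun y hy => (Av_congr a b m Φ φ hΦ hy).symm) (Av_congr a b m Φ φ hΦ hx).symm
    rw [Nat.cast_succ, contDiffOn_succ_iff_derivWithin hu] at h ⊢
    refine ⟨fun x hx => (hder x hx).differentiableWithinAt, by simp, ?_⟩
    refine (ih (m + 1) _ h.2.2).congr fun x hx => ?_
    exact (hder x hx).derivWithin (hu x hx)

/-- Hadamard's lemma on a closed interval. -/
theorem hadamard (a b : ℝ) (hab : a < b) (n : ℕ) (f : ℝ → ℝ)
    (h : ContDiffOn ℝ (n + 1 : ℕ) f (Icc a b)) :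
    ∃ q : ℝ → ℝ, ContDiffOn ℝ n q (Icc a b) ∧ (∀ x ∈ Icc a b, f b - f x = q x * (b - x)) ∧
      q b = derivWithin f (Icc a b) b := by
  have hu := uniqueDiffOn_Icc hab
  have h1 : ContDiffOn ℝ 1 f (Icc a b) := h.of_le (by norm_cast; omega)
  have h2 : ContDiffOn ℝ n (derivWithin f (Icc a b)) (Icc a b) := by
    rw [Nat.cast_succ, contDiffOn_succ_iff_derivWithin hu] at h
    exact h.2.2
  refine ⟨Av b 0 (derivWithin f (Icc a b)), Av_contDiffOn a b hab n 0 _ h2, ?_, ?_⟩
  · obtain ⟨Φ, Φ', hc, hd, hΦ, hΦ'⟩ := exists_ext a b hab f h1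
    intro x hx
    rw [← Av_congr a b 0 Φ' _ hΦ' hx, ← hΦ hx, ← hΦ (right_mem_Icc.mpr hab.le)]
    have h3 : ∀ t ∈ uIcc (0:ℝ) 1, HasDerivAt (fun t => Φ (b + t * (x - b)))
        (Φ' (b + t * (x - b)) * (x - b)) t := by
      intro t _
      have h4 : HasDerivAt (fun t => b + t * (x - b)) (x - b) t := by
        have := ((hasDerivAt_id t).mul_const (x - b)).const_add b
        simpa using this
      exact (hd (b + t * (x - b))).comp t h4
    have h5 := intervalIntegral.integral_eq_sub_of_hasDerivAt h3 (by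
      apply Continuous.intervalIntegrable
      fun_prop)
    rw [intervalIntegral.integral_mul_const] at h5
    simp only [zero_mul, add_zero, one_mul] at h5
    unfold Av
    simp only [pow_zero, one_mul]
    rw [show b + (x - b) = x by ring] at h5
    linarith
  · unfold Av
    simp

end Pool.Agent.Helper3.Hadamard
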