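import Mathlib

set_option autoImplicit false
set_option linter.unusedSectionVars false

namespace Pool.Agent.Helper3.Jord

open Topology Filter Set

theorem jordan {Γ : Type*} [Group Γ] [Finite Γ] (L : Subgroup Γ)
    (h : ∀ g, ∃ k, k * g * k⁻¹ ∈ L) : L = ⊤ := by
  classical
  cases nonempty_fintype Γ
  have : Fintype (Γ ⧸ L) := Fintype.ofFinite _
  have : Fintype (Quotient (MulAction.orbitRel Γ (Γ ⧸ L))) := Fintype.ofFinite _
  have hsum := MulAction.sum_card_fixedBy_eq_card_orbits_mul_card_group Γ (Γ ⧸ L)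
  have h1 : Fintype.card (Quotient (MulAction.orbitRel Γ (Γ ⧸ L))) = 1 := by
    have hs : Subsingleton (Quotient (MulAction.orbitRel Γ (Γ ⧸ L))) :=
      (MulAction.pretransitive_iff_subsingleton_quotient Γ (Γ ⧸ L)).mp inferInstance
    have hn : Nonempty (Quotient (MulAction.orbitRel Γ (Γ ⧸ L))) := ⟨Quotient.mk _ (1 : Γ)⟩
    exact Fintype.card_eq_one_iff_nonempty_unique.mpr ⟨⟨Classical.choice hn⟩, fun _ => Subsingleton.elim _ _⟩
  rw [h1, one_mul] at hsum
  have h2 : ∀ g : Γ, 1 ≤ Fintype.card (MulAction.fixedBy (Γ ⧸ L) g) := by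
    intro g
    obtain ⟨k, hk⟩ := h g
    rw [Nat.one_le_iff_ne_zero, ← Nat.pos_iff_ne_zero, Fintype.card_pos_iff]
    refine ⟨⟨((k⁻¹ : Γ) : Γ ⧸ L), ?_⟩⟩
    rw [MulAction.mem_fixedBy]
    show ((g * k⁻¹ : Γ) : Γ ⧸ L) = ((k⁻¹ : Γ) : Γ ⧸ L)
    rw [eq_comm, QuotientGroup.eq]
    rw [inv_inv, ← mul_assoc]
    exact hk
  have h3 : Fintype.card (MulAction.fixedBy (Γ ⧸ L) (1 : Γ)) = 1 := by
    by_contra hne
    have h4 : (∑ g : Γ, 1) < ∑ g : Γ, Fintype.card (MulAction.fixedBy (Γ ⧸ L) g) := by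
      apply Finset.sum_lt_sum
      · intro g _; exact h2 g
      · exact ⟨1, Finset.mem_univ _, lt_of_le_of_ne (h2 1) (Ne.symm hne)⟩
    rw [hsum] at h4
    simp at h4
  rw [← Subgroup.index_eq_one, Subgroup.index, Nat.card_eq_fintype_card]
  rw [← h3]
  refine Fintype.card_congr ⟨fun x => ⟨x, by simp⟩, fun x => x.1, fun x => rfl, fun x => rfl⟩

theorem profinite {Q : Type*} [Group Q] [TopologicalSpace Q] [IsTopologicalGroup Q]
    [CompactSpace Q] [TotallyDisconnectedSpace Q] (P : Subgroup Q) (hP : IsClosed (P : Set Q))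
    (h : ∀ g, ∃ k, k * g * k⁻¹ ∈ P) : P = ⊤ := by
  rw [eq_top_iff]
  intro q _
  by_contra hq
  obtain ⟨U, hU⟩ := ProfiniteGrp.exist_openNormalSubgroup_sub_open_nhds_of_one
    (U := (fun x => q * x) ⁻¹' (P : Set Q)ᶜ) (hP.isOpen_compl.preimage (by fun_prop))
    (by simpa using hq)
  have hfin : Finite (Q ⧸ (U : Subgroup Q)) := by
    exact Subgroup.quotient_finite_of_isOpen _ U.toOpenSubgroup.isOpen
  have hJ := jordan (P.map (QuotientGroup.mk' (U : Subgroup Q))) (by
    intro g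
    obtain ⟨g, rfl⟩ := QuotientGroup.mk'_surjective (U : Subgroup Q) g
    obtain ⟨k, hk⟩ := h g
    exact ⟨QuotientGroup.mk' (U : Subgroup Q) k, k * g * k⁻¹, hk, by simp⟩)
  have h1 : QuotientGroup.mk' (U : Subgroup Q) q ∈ P.map (QuotientGroup.mk' (U : Subgroup Q)) := by
    rw [hJ]; trivial
  obtain ⟨p, hp, hpq⟩ := h1
  have h2 : q⁻¹ * p ∈ (U : Subgroup Q) := by
    rw [← QuotientGroup.eq]
    exact hpq.symm
  have h3 := hU h2
  apply h3
  simpa using hp

variable {G : Type*} [Group G] [TopologicalSpace G] [IsTopologicalGroup G] [CompactSpace G]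
  [T2Space G]

theorem backward (N : Subgroup G) (hN : N.Normal) (hNc : IsClosed (N : Set G))
    (hab : ∀ a ∈ N, ∀ b ∈ N, a * b = b * a) (htd : TotallyDisconnectedSpace (G ⧸ N))
    (H : Subgroup G) (hH : IsClosed (H : Set G)) (h : ∀ g, ∃ k, k * g * k⁻¹ ∈ H) : H = ⊤ := by
  have hT : IsClosed ((H.map (QuotientGroup.mk' N) : Subgroup (G ⧸ N)) : Set (G ⧸ N)) := by
    have h1 : IsCompact ((H.map (QuotientGroup.mk' N) : Subgroup (G ⧸ N)) : Set (G ⧸ N)) := by
      rw [Subgroup.coe_map]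
      exact hH.isCompact.image continuous_quot_mk
    exact h1.isClosed
  have h1 := profinite _ hT (by
    intro g
    obtain ⟨g, rfl⟩ := QuotientGroup.mk'_surjective N g
    obtain ⟨k, hk⟩ := h g
    exact ⟨QuotientGroup.mk' N k, k * g * k⁻¹, hk, by simp⟩)
  have h2 : ∀ g : G, ∃ x ∈ H, ∃ n ∈ N, g = x * n := by
    intro g
    have : QuotientGroup.mk' N g ∈ H.map (QuotientGroup.mk' N) := by rw [h1]; trivial
    obtain ⟨x, hx, hxg⟩ := this
    exact ⟨x, hx, x⁻¹ * g, QuotientGroup.eq.mp hxg, by group⟩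
  have h3 : N ≤ H := by
    intro n hn
    obtain ⟨k, hk⟩ := h n
    obtain ⟨x, hx, m, hm, rfl⟩ := h2 k
    -- x m n m⁻¹ x⁻¹ = x n x⁻¹
    have h4 : x * m * n * (x * m)⁻¹ = x * n * x⁻¹ := by
      have h5 : m * n = n * m := hab m hm n hn
      calc x * m * n * (x * m)⁻¹ = x * (m * n) * m⁻¹ * x⁻¹ := by group
        _ = x * n * x⁻¹ := by rw [h5]; group
    rw [h4] at hk
    have h5 := H.mul_mem (H.mul_mem (H.inv_mem hx) hk) hx
    have h6 : x⁻¹ * (x * n * x⁻¹) * x = n := by group
    rwa [h6] at h5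
  rw [eq_top_iff]
  intro g _
  obtain ⟨x, hx, n, hn, rfl⟩ := h2 g
  exact H.mul_mem hx (h3 hn)

/-- the quotient by the identity component is totally disconnected. -/
theorem quotient_td (N : Subgroup G) (hN : (N : Set G) = connectedComponent (1 : G)) :
    TotallyDisconnectedSpace (G ⧸ N) := by
  rw [totallyDisconnectedSpace_iff_connectedComponent_singleton]
  intro y
  obtain ⟨a, rfl⟩ := QuotientGroup.mk_surjective y
  have hq : Topology.IsQuotientMap (QuotientGroup.mk : G → G ⧸ N) := isQuotientMap_quot_mk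
  have hconn : ∀ y : G ⧸ N, IsConnected ((QuotientGroup.mk : G → G ⧸ N) ⁻¹' {y}) := by
    intro y
    obtain ⟨b, rfl⟩ := QuotientGroup.mk_surjective y
    have : (QuotientGroup.mk : G → G ⧸ N) ⁻¹' {QuotientGroup.mk b} = (fun x => b * x) '' (N : Set G) := by
      ext z
      simp only [mem_preimage, mem_singleton_iff, mem_image, SetLike.mem_coe]
      rw [eq_comm, QuotientGroup.eq]
      constructor
      · intro h
        exact ⟨b⁻¹ * z, h, by group⟩
      · rintro ⟨w, hw, rfl⟩
        simpa using hw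
    rw [this, hN]
    exact isConnected_connectedComponent.image _ (by fun_prop)
  have h1 := hq.image_connectedComponent hconn a
  rw [← h1]
  apply Subset.antisymm
  · rintro _ ⟨z, hz, rfl⟩
    rw [mem_singleton_iff, eq_comm, QuotientGroup.eq]
    have h2 : (fun x => a⁻¹ * x) '' connectedComponent a ⊆ connectedComponent (1:G) := by
      have := (isConnected_connectedComponent (x := a)).image (fun x => a⁻¹ * x) (by fun_prop)
      apply this.subset_connectedComponent
      exact ⟨a, mem_connectedComponent, by simp⟩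
    have h3 : a⁻¹ * z ∈ connectedComponent (1:G) := h2 ⟨z, hz, rfl⟩
    rw [← hN] at h3
    exact h3
  · rintro _ rfl
    exact ⟨a, mem_connectedComponent, rfl⟩

theorem normal_cc (N : Subgroup G) (hN : (N : Set G) = connectedComponent (1 : G)) : N.Normal := by
  constructor
  intro n hn g
  have h1 : n ∈ connectedComponent (1:G) := by rw [← hN]; exact hn
  have h2 : (fun x => g * x * g⁻¹) '' connectedComponent (1:G) ⊆ connectedComponent (1:G) := by
    have := (isConnected_connectedComponent (x := (1:G))).image (fun x => g * x * g⁻¹) (by fun_prop)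
    apply this.subset_connectedComponent
    exact ⟨1, mem_connectedComponent, by simp⟩
  have h3 : g * n * g⁻¹ ∈ connectedComponent (1:G) := h2 ⟨n, h1, rfl⟩
  rw [← hN] at h3
  exact h3

end Pool.Agent.Helper3.Jord
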