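import Mathlib

set_option autoImplicit false
set_option linter.unusedSectionVars false

namespace Pool.Agent.Helper3.NilGen

open Unitization

variable {F R : Type} [Field F] [NonUnitalRing R] [Module F R] [IsScalarTower F R R]
  [SMulCommClass F R R]

/-- a unit of the unitization with first component one is `1 + r`. -/
theorem eq_one_add_of_fst {u : Unitization F R} (h : u.fst = 1) : u = 1 + inr u.snd := by
  ext <;> simp [h]

/-- all elements of the closure of a family of units of the form `1 + r` are of this form. -/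
theorem closure_form {d : ℕ} (g : Fin d → (Unitization F R)ˣ)
    (hg : ∀ i, ∃ r : R, ((g i : (Unitization F R)ˣ) : Unitization F R) = 1 + inr r)
    (u : (Unitization F R)ˣ) (hu : u ∈ Subgroup.closure (Set.range g)) :
    ∃ r : R, (u : Unitization F R) = 1 + inr r := by
  let φ : (Unitization F R)ˣ →* Fˣ := Units.map (fstHom F R).toRingHom.toMonoidHom
  have hle : Subgroup.closure (Set.range g) ≤ φ.ker := by
    rw [Subgroup.closure_le]
    rintro _ ⟨i, rfl⟩
    obtain ⟨r, hr⟩ := hg i
    show g i ∈ φ.ker
    rw [MonoidHom.mem_ker]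
    ext
    simp [φ, hr]
  have h1 : φ u = 1 := hle hu
  have h2 : (u : Unitization F R).fst = 1 := by
    have := congrArg (fun z : Fˣ => (z : F)) h1
    simpa [φ] using this
  exact ⟨_, eq_one_add_of_fst h2⟩

theorem generate (J : ℕ → Submodule F R) (hJ1 : J 1 = ⊤) (hanti : Antitone J)
    (hmul : ∀ m n a b, a ∈ J m → b ∈ J n → a * b ∈ J (m + n)) (N : ℕ) (hN : J N = ⊥)
    (H : Subgroup (Unitization F R)ˣ)
    (hH : ∀ u ∈ H, ∃ r : R, (u : Unitization F R) = 1 + inr r)
    (S : ℕ → Set R) (hSJ : ∀ n, ∀ x ∈ S n, x ∈ J n)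
    (hS : ∀ n, 1 ≤ n → J n ≤ Submodule.span F (S n) ⊔ J (n + 1))
    (hgen : ∀ n, 1 ≤ n → ∀ c : F, ∀ x ∈ S n,
      (∃ u ∈ H, (u : Unitization F R) = 1 + inr (c • x)) ∨
      (∃ i j a b, 1 ≤ i ∧ 1 ≤ j ∧ i + j = n ∧ a ∈ J i ∧ b ∈ J j ∧ c • x = a * b - b * a)) :
    ∀ r : R, ∃ u ∈ H, (u : Unitization F R) = 1 + inr r := by
  have mem1 : ∀ r : R, r ∈ J 1 := fun r => by rw [hJ1]; trivial
  have key : ∀ n, 1 ≤ n → ∀ r ∈ J n, ∃ u ∈ H, ∃ r' ∈ J (n + 1),
      (u : Unitization F R) = 1 + inr (r + r') := by
    intro n
    induction n using Nat.strong_induction_on with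
    | _ n ih =>
      intro hn
      -- closure under addition
      have hadd : ∀ r ∈ J n, ∀ s ∈ J n,
          (∃ u ∈ H, ∃ r' ∈ J (n + 1), (u : Unitization F R) = 1 + inr (r + r')) →
          (∃ u ∈ H, ∃ r' ∈ J (n + 1), (u : Unitization F R) = 1 + inr (s + r')) →
          (∃ u ∈ H, ∃ r' ∈ J (n + 1), (u : Unitization F R) = 1 + inr ((r + s) + r')) := by
        rintro r hr s hs ⟨u, hu, r', hr', e1⟩ ⟨v, hv, s', hs', e2⟩
        refine ⟨u * v, H.mul_mem hu hv, r' + s' + (r + r') * (s + s'), ?_, ?_⟩
        · refine (J (n + 1)).add_mem ((J (n + 1)).add_mem hr' hs') ?_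
          have h1 : r + r' ∈ J n := (J n).add_mem hr (hanti (Nat.le_succ n) hr')
          have h2 : s + s' ∈ J n := (J n).add_mem hs (hanti (Nat.le_succ n) hs')
          exact hanti (by omega : n + 1 ≤ n + n) (hmul n n _ _ h1 h2)
        · rw [Units.val_mul, e1, e2]
          simp only [mul_add, add_mul, one_mul, mul_one, inr_add, inr_mul]
          abel
      -- generators
      have hgn : ∀ x ∈ S n, ∀ c : F,
          ∃ u ∈ H, ∃ r' ∈ J (n + 1), (u : Unitization F R) = 1 + inr (c • x + r') := by
        intro x hx c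
        rcases hgen n hn c x hx with ⟨u, hu, e⟩ | ⟨i, j, a, b, hi, hj, hij, ha, hb, e⟩
        · exact ⟨u, hu, 0, (J (n + 1)).zero_mem, by rw [add_zero, e]⟩
        · obtain ⟨ua, hua, a', ha', ea⟩ := ih i (by omega) hi a ha
          obtain ⟨ub, hub, b', hb', eb⟩ := ih j (by omega) hj b hb
          obtain ⟨q, hq⟩ := hH (ua⁻¹ * ub⁻¹) (H.mul_mem (H.inv_mem hua) (H.inv_mem hub))
          -- error term
          let er : R := a * b' + a' * (b + b') - (b * a' + b' * (a + a'))
          have her : er ∈ J (n + 1) := by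
            have hae : a + a' ∈ J i := (J i).add_mem ha (hanti (Nat.le_succ i) ha')
            have hbe : b + b' ∈ J j := (J j).add_mem hb (hanti (Nat.le_succ j) hb')
            refine (J (n + 1)).sub_mem ((J (n + 1)).add_mem ?_ ?_) ((J (n + 1)).add_mem ?_ ?_)
            · have := hmul i (j + 1) a b' ha hb'
              rwa [show i + (j + 1) = n + 1 by omega] at this
            · have := hmul (i + 1) j a' (b + b') ha' hbe
              rwa [show i + 1 + j = n + 1 by omega] at this
            · have := hmul j (i + 1) b a' hb ha'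
              rwa [show j + (i + 1) = n + 1 by omega] at this
            · have := hmul (j + 1) i b' (a + a') hb' hae
              rwa [show j + 1 + i = n + 1 by omega] at this
          refine ⟨ua * ub * (ua⁻¹ * ub⁻¹), H.mul_mem (H.mul_mem hua hub)
            (H.mul_mem (H.inv_mem hua) (H.inv_mem hub)), er + (c • x + er) * q, ?_, ?_⟩
          · refine (J (n + 1)).add_mem her ?_
            have h1 : c • x + er ∈ J n :=
              (J n).add_mem ((J n).smul_mem c (hSJ n x hx)) (hanti (Nat.le_succ n) her)
            exact hmul n 1 _ _ h1 (mem1 q)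
          · have e3 : (ub : Unitization F R) * (ua : Unitization F R) *
                ((ua⁻¹ * ub⁻¹ : (Unitization F R)ˣ) : Unitization F R) = 1 := by
              rw [← Units.val_mul, ← Units.val_mul]
              rw [show ub * ua * (ua⁻¹ * ub⁻¹) = 1 by group]
              rfl
            have e4 : ((ua * ub * (ua⁻¹ * ub⁻¹) : (Unitization F R)ˣ) : Unitization F R)
                = 1 + ((ua : Unitization F R) * (ub : Unitization F R) -
                  (ub : Unitization F R) * (ua : Unitization F R)) *
                  ((ua⁻¹ * ub⁻¹ : (Unitization F R)ˣ) : Unitization F R) := by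
              rw [sub_mul, e3, Units.val_mul, Units.val_mul]
              abel
            have e5 : (ua : Unitization F R) * (ub : Unitization F R) -
                (ub : Unitization F R) * (ua : Unitization F R) = inr (c • x + er) := by
              rw [ea, eb, e]
              simp only [er, mul_add, add_mul, one_mul, mul_one, inr_add, inr_mul, inr_sub]
              abel
            rw [e4, e5, hq, mul_add, mul_one, ← inr_mul, ← inr_add]
            congr 2
            abel
      -- span
      have hsp : ∀ y ∈ Submodule.span F (S n), y ∈ J n ∧ ∀ c : F,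
          ∃ u ∈ H, ∃ r' ∈ J (n + 1), (u : Unitization F R) = 1 + inr (c • y + r') := by
        intro y hy
        induction hy using Submodule.span_induction with
        | mem x hx => exact ⟨hSJ n x hx, hgn x hx⟩
        | zero =>
          refine ⟨(J n).zero_mem, fun c => ⟨1, H.one_mem, 0, (J (n + 1)).zero_mem, ?_⟩⟩
          simp
        | add x y _ _ hx hy =>
          refine ⟨(J n).add_mem hx.1 hy.1, fun c => ?_⟩
          rw [smul_add]
          exact hadd _ ((J n).smul_mem c hx.1) _ ((J n).smul_mem c hy.1) (hx.2 c) (hy.2 c)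
        | smul a x _ hx =>
          refine ⟨(J n).smul_mem a hx.1, fun c => ?_⟩
          rw [smul_smul]
          exact hx.2 (c * a)
      intro r hr
      obtain ⟨y, hy, z, hz, rfl⟩ := Submodule.mem_sup.mp (hS n hn hr)
      obtain ⟨u, hu, r', hr', e⟩ := (hsp y hy).2 1
      rw [one_smul] at e
      refine ⟨u, hu, r' - z, (J (n + 1)).sub_mem hr' hz, ?_⟩
      rw [e]
      congr 2
      abel
  -- conclude
  have fin : ∀ n, 1 ≤ n → ∀ r : R, ∃ u ∈ H, ∃ r' ∈ J n,
      (u : Unitization F R) = 1 + inr (r + r') := by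
    intro n hn
    induction n, hn using Nat.le_induction with
    | base => exact fun r => ⟨1, H.one_mem, -r, mem1 _, by simp⟩
    | succ n hn ih =>
      intro r
      obtain ⟨u, hu, r', hr', e⟩ := ih r
      obtain ⟨v, hv, s', hs', e'⟩ := key n hn (-r') ((J n).neg_mem hr')
      refine ⟨u * v, H.mul_mem hu hv, s' + (r + r') * (-r' + s'), ?_, ?_⟩
      · refine (J (n + 1)).add_mem hs' ?_
        have h1 : -r' + s' ∈ J n := (J n).add_mem ((J n).neg_mem hr') (hanti (Nat.le_succ n) hs')
        have := hmul 1 n (r + r') (-r' + s') (mem1 _) h1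
        rwa [add_comm 1 n] at this
      · rw [Units.val_mul, e, e']
        simp only [mul_add, add_mul, one_mul, mul_one, inr_add, inr_mul, inr_neg, mul_neg]
        abel
  intro r
  obtain ⟨u, hu, r', hr', e⟩ := fin (N + 1) (by omega) r
  have : r' ∈ J N := hanti (Nat.le_succ N) hr'
  rw [hN, Submodule.mem_bot] at this
  exact ⟨u, hu, by rw [e, this, add_zero]⟩

end Pool.Agent.Helper3.NilGen
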