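import Pool.Agent.Helper3.RotWord
import Pool.Agent.Helper3.NilGen

set_option autoImplicit false

namespace Pool.Agent.Helper3.NilAlgF

open Pool.Agent.Helper3.RotWord

variable (F : Type) [Field F]

abbrev E := Module.End F (ℕ → F)
abbrev A := Fin 100

/-- the generating operator attached to the letter `a`. -/
noncomputable def x (M : ℕ) (a : A) : E F where
  toFun φ s := if s < M ∧ ω s = a then φ (s + 1) else 0
  map_add' φ ψ := by
    funext s; by_cases h : s < M ∧ ω s = a <;> simp [h]
  map_smul' c φ := by
    funext s; by_cases h : s < M ∧ ω s = a <;> simp [h]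

theorem x_apply (M : ℕ) (a : A) (φ : ℕ → F) (s : ℕ) :
    x F M a φ s = if s < M ∧ ω s = a then φ (s + 1) else 0 := rfl

/-- the operator attached to a word. -/
noncomputable def X (M : ℕ) (w : List A) : E F := (w.map (x F M)).prod

theorem X_append (M : ℕ) (u v : List A) : X F M (u ++ v) = X F M u * X F M v := by
  simp [X]

/-- the factor of `ω` of length `n` at position `s`. -/
noncomputable def word : ℕ → ℕ → List A
  | _, 0 => []
  | s, n + 1 => ω s :: word (s + 1) n

@[simp] theorem word_length (s n : ℕ) : (word s n).length = n := by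
  induction n generalizing s with
  | zero => rfl
  | succ n ih => simp [word, ih]

theorem word_add (s m n : ℕ) : word s (m + n) = word s m ++ word (s + m) n := by
  induction m generalizing s with
  | zero => simp [word]
  | succ m ih =>
    rw [show m + 1 + n = (m + n) + 1 by omega]
    simp only [word, List.cons_append, List.cons.injEq, true_and]
    rw [ih, show s + 1 + m = s + (m + 1) by omega]

theorem word_eq_iff (m a l : ℕ) : word m l = word a l ↔ ∀ s, s < l → ω (m + s) = ω (a + s) := by
  induction l generalizing m a with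
  | zero => simp [word]
  | succ l ih =>
    simp only [word, List.cons.injEq, ih]
    constructor
    · rintro ⟨h0, h1⟩ s hs
      rcases s with _ | s
      · simpa using h0
      · have := h1 s (by omega)
        rwa [show m + 1 + s = m + (s + 1) by omega, show a + 1 + s = a + (s + 1) by omega] at this
    · intro h
      refine ⟨by simpa using h 0 (by omega), fun s hs => ?_⟩
      have := h (s + 1) (by omega)
      rwa [show m + 1 + s = m + (s + 1) by omega, show a + 1 + s = a + (s + 1) by omega]

theorem X_apply (M : ℕ) (w : List A) (φ : ℕ → F) (s : ℕ) :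
    X F M w φ s = if (w = [] ∨ s + w.length ≤ M) ∧ w = word s w.length then φ (s + w.length) else 0 := by
  induction w generalizing s with
  | nil => simp [X, word]
  | cons a w ih =>
    have e : X F M (a :: w) = x F M a * X F M w := by simp [X]
    rw [e, Module.End.mul_apply, x_apply, ih]
    simp only [List.length_cons, word, List.cons.injEq, reduceCtorEq, false_or]
    rw [show s + 1 + w.length = s + (w.length + 1) by omega]
    by_cases h0 : w = []
    · subst h0
      simp only [List.length_nil, word, true_or, and_self, if_true, zero_add, and_true]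
      by_cases h1 : s < M ∧ ω s = a
      · rw [if_pos h1, if_pos ⟨by omega, h1.2.symm⟩]
      · rw [if_neg h1, if_neg]
        rintro ⟨h2, h3⟩
        exact h1 ⟨by omega, h3.symm⟩
    · by_cases h1 : s < M ∧ ω s = a
      · rw [if_pos h1]
        simp only [h0, false_or, h1.2, true_and]
      · rw [if_neg h1, if_neg]
        rintro ⟨h2, h3, h4⟩
        exact h1 ⟨by omega, h3.symm⟩

theorem X_eq_zero_of_length (M : ℕ) (w : List A) (h : M < w.length) : X F M w = 0 := by
  ext φ s
  rw [X_apply, if_neg]
  · rfl
  · rintro ⟨h1 | h1, _⟩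
    · subst h1; simp at h
    · omega

theorem X_eq_zero_of_not_factor (M : ℕ) (w : List A) (h : ∀ s, w ≠ word s w.length) :
    X F M w = 0 := by
  ext φ s
  rw [X_apply, if_neg]
  · rfl
  · rintro ⟨_, h2⟩
    exact h s h2

theorem X_commutator (M : ℕ) (w : List A) (hw : 6 ≤ w.length) :
    X F M w = 0 ∨ ∃ u v : List A, 1 ≤ u.length ∧ 1 ≤ v.length ∧ u.length + v.length = w.length ∧
      X F M w = X F M u * X F M v - X F M v * X F M u := by
  set n := w.length with hn
  by_cases h : ∀ s, w ≠ word s w.length
  · exact Or.inl (X_eq_zero_of_not_factor F M w h)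
  · right
    push Not at h
    obtain ⟨i, hi⟩ := h
    rw [← hn] at hi
    refine ⟨word i (n / 2), word (i + n / 2) (n - n / 2), ?_, ?_, ?_, ?_⟩
    · rw [word_length]; omega
    · rw [word_length]; omega
    · rw [word_length, word_length]; omega
    · rw [← X_append, ← X_append, ← word_add, show n / 2 + (n - n / 2) = n by omega, ← hi]
      rw [X_eq_zero_of_not_factor F M (word (i + n / 2) (n - n / 2) ++ word i (n / 2)), sub_zero]
      intro m hm
      rw [List.length_append, word_length, word_length, word_add] at hm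
      have h2 := List.append_inj hm (by simp)
      refine rotation i n (by omega) ⟨m, ?_, ?_⟩
      · exact (word_eq_iff _ _ _).mp h2.1.symm
      · exact (word_eq_iff _ _ _).mp h2.2.symm

/-- span of the operators of words of length at least `n`. -/
noncomputable def J (M n : ℕ) : Submodule F (E F) := Submodule.span F {y | ∃ w : List A, n ≤ w.length ∧ y = X F M w}

theorem X_mem_J (M n : ℕ) (w : List A) (h : n ≤ w.length) : X F M w ∈ J F M n :=
  Submodule.subset_span ⟨w, h, rfl⟩

theorem J_anti (M : ℕ) : Antitone (J F M) := by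
  intro m n hmn
  apply Submodule.span_mono
  rintro _ ⟨w, hw, rfl⟩
  exact ⟨w, hmn.trans hw, rfl⟩

theorem J_mul (M m n : ℕ) (a b : E F) (ha : a ∈ J F M m) (hb : b ∈ J F M n) : a * b ∈ J F M (m + n) := by
  have h := Submodule.mul_mem_mul ha hb
  rw [J, J, Submodule.span_mul_span] at h
  refine (Submodule.span_mono ?_ : _ ≤ J F M (m + n)) h
  rintro _ ⟨_, ⟨u, hu, rfl⟩, _, ⟨v, hv, rfl⟩, rfl⟩
  exact ⟨u ++ v, by rw [List.length_append]; omega, (X_append F M u v).symm⟩

theorem J_bot (M : ℕ) : J F M (M + 1) = ⊥ := by
  rw [J, Submodule.span_eq_bot]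
  rintro _ ⟨w, hw, rfl⟩
  exact X_eq_zero_of_length F M w (by omega)

section abs

variable {F}
variable {R : Type} [NonUnitalRing R] [Module F R] [IsScalarTower F R R] [SMulCommClass F R R]
  (M : ℕ) (val : R →ₗ[F] E F)

/-- the filtration on `R`. -/
noncomputable def JR (n : ℕ) : Submodule F R := (J F M n).comap val

theorem mem_JR (n : ℕ) (r : R) : r ∈ JR M val n ↔ val r ∈ J F M n := Iff.rfl

/-- generators of degree exactly `n`. -/
def S (n : ℕ) : Set R := {r | ∃ w : List A, w.length = n ∧ val r = X F M w}

theorem S_sub (n : ℕ) : ∀ r ∈ S M val n, r ∈ JR M val n := by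
  rintro r ⟨w, hw, e⟩
  rw [mem_JR, e]
  exact X_mem_J F M n w hw.ge

theorem JR_anti : Antitone (JR M val) := fun _ _ hmn _ hr => J_anti F M hmn hr

variable (hmul : ∀ a b, val (a * b) = val a * val b) (hinj : Function.Injective val)
  (hrange : ∀ y, y ∈ J F M 1 ↔ ∃ r, val r = y)

include hrange in
theorem JR_one : JR M val 1 = ⊤ := by
  rw [eq_top_iff]
  intro r _
  rw [mem_JR]
  exact (hrange _).mpr ⟨r, rfl⟩

include hmul in
theorem JR_mul (m n : ℕ) (a b : R) (ha : a ∈ JR M val m) (hb : b ∈ JR M val n) :
    a * b ∈ JR M val (m + n) := by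
  rw [mem_JR, hmul]
  exact J_mul F M m n _ _ ha hb

include hinj in
theorem JR_bot : JR M val (M + 1) = ⊥ := by
  rw [eq_bot_iff]
  intro r hr
  rw [mem_JR, J_bot, Submodule.mem_bot] at hr
  rw [Submodule.mem_bot]
  apply hinj
  rw [hr, map_zero]

include hrange in
theorem exists_XR (w : List A) (hw : 1 ≤ w.length) : ∃ r : R, val r = X F M w :=
  (hrange _).mp (X_mem_J F M 1 w hw)

include hinj hrange in
theorem JR_le (n : ℕ) (hn : 1 ≤ n) :
    JR M val n ≤ Submodule.span F (S M val n) ⊔ JR M val (n + 1) := by
  have key : ∀ y ∈ J F M n, ∃ r : R, val r = y ∧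
      r ∈ Submodule.span F (S M val n) ⊔ JR M val (n + 1) := by
    intro y hy
    unfold J at hy
    induction hy using Submodule.span_induction with
    | mem y hy =>
      obtain ⟨w, hw, rfl⟩ := hy
      obtain ⟨r, hr⟩ := exists_XR M val hrange w (hn.trans hw)
      refine ⟨r, hr, ?_⟩
      rcases Nat.lt_or_ge n w.length with h | h
      · refine Submodule.mem_sup_right ?_
        rw [mem_JR, hr]
        exact X_mem_J F M (n + 1) w h
      · exact Submodule.mem_sup_left (Submodule.subset_span ⟨w, le_antisymm h hw, hr⟩)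
    | zero => exact ⟨0, map_zero _, Submodule.zero_mem _⟩
    | add a b _ _ ha hb =>
      obtain ⟨r, hr, hr'⟩ := ha
      obtain ⟨s, hs, hs'⟩ := hb
      exact ⟨r + s, by rw [← hr, ← hs, map_add], Submodule.add_mem _ hr' hs'⟩
    | smul c a _ ha =>
      obtain ⟨r, hr, hr'⟩ := ha
      exact ⟨c • r, by rw [← hr, map_smul], Submodule.smul_mem _ c hr'⟩
  intro r hr
  obtain ⟨r', h1, h2⟩ := key _ ((mem_JR M val n r).mp hr)
  have : r' = r := hinj h1
  rwa [this] at h2

open Unitization

include hmul hrange in
theorem prod_mem (n : ℕ) (l : List R) (hl : l.length = n + 1) :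
    ∃ r : R, r ∈ JR M val (n + 1) ∧
      (l.map (fun y => (inr y : Unitization F R))).prod = inr r := by
  induction n generalizing l with
  | zero =>
    obtain ⟨a, rfl⟩ := List.length_eq_one_iff.mp hl
    exact ⟨a, by rw [zero_add, JR_one M val hrange]; trivial, by simp⟩
  | succ n ih =>
    rcases l with _ | ⟨a, l⟩
    · simp at hl
    · obtain ⟨r, hr, e⟩ := ih l (by simpa using hl)
      refine ⟨a * r, ?_, ?_⟩
      · have := JR_mul M val hmul 1 (n + 1) a r (by rw [JR_one M val hrange]; trivial) hr
        rwa [add_comm 1 (n + 1)] at this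
      · rw [List.map_cons, List.prod_cons, e, inr_mul]

include hmul hinj hrange in
theorem nilp (x : Fin (M + 1) → R) :
    (List.ofFn (fun i => (inr (x i) : Unitization F R))).prod = 0 := by
  obtain ⟨r, hr, e⟩ := prod_mem M val hmul hrange M (List.ofFn x) (by simp)
  rw [List.map_ofFn] at e
  rw [JR_bot M val hinj, Submodule.mem_bot] at hr
  rw [hr, inr_zero] at e
  exact e

include hmul hinj hrange in
theorem exists_unit (r : R) :
    ∃ u : (Unitization F R)ˣ, (u : Unitization F R) = 1 + inr r := by
  have : IsNilpotent (inr r : Unitization F R) := by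
    refine ⟨M + 1, ?_⟩
    have := nilp M val hmul hinj hrange (fun _ => r)
    rwa [List.ofFn_const, List.prod_replicate] at this
  exact this.isUnit_one_add

end abs

/-- index set of generators: words of length `1, …, 5`. -/
abbrev Idx := Σ n : Fin 5, (Fin (n + 1) → A)

noncomputable def wordOf (i : Idx) : List A := List.ofFn i.2

theorem wordOf_length (i : Idx) : (wordOf i).length = i.1 + 1 := by simp [wordOf]

/-- the number of generators. -/
noncomputable def d [Fintype F] : ℕ := Fintype.card (Idx × F)

open Unitization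

variable {F}

theorem main [Fintype F] {R : Type} [NonUnitalRing R] [Module F R] [IsScalarTower F R R]
    [SMulCommClass F R R] (M : ℕ) (val : R →ₗ[F] E F)
    (hmul : ∀ a b, val (a * b) = val a * val b) (hinj : Function.Injective val)
    (hrange : ∀ y, y ∈ J F M 1 ↔ ∃ r, val r = y) :
    ∃ g : Fin (d F) → (Unitization F R)ˣ,
      (∀ i, ∃ r : R, ((g i : (Unitization F R)ˣ) : Unitization F R) = 1 + inr r) ∧
      ∀ r : R, ∃ u ∈ Subgroup.closure (Set.range g), (u : Unitization F R) = 1 + inr r := by
  have h1 : ∀ i : Idx × F, ∃ r : R, ∃ u : (Unitization F R)ˣ, val r = X F M (wordOf i.1) ∧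
      (u : Unitization F R) = 1 + inr (i.2 • r) := by
    intro i
    obtain ⟨r, hr⟩ := exists_XR M val hrange (wordOf i.1) (by rw [wordOf_length]; omega)
    obtain ⟨u, hu⟩ := exists_unit M val hmul hinj hrange (i.2 • r)
    exact ⟨r, u, hr, hu⟩
  choose r u hr hu using h1
  let g : Fin (d F) → (Unitization F R)ˣ := fun i => u ((Fintype.equivFin (Idx × F)).symm i)
  have hg : ∀ i, ∃ r : R, ((g i : (Unitization F R)ˣ) : Unitization F R) = 1 + inr r :=
    fun i => ⟨_, hu _⟩
  refine ⟨g, hg, ?_⟩
  refine Pool.Agent.Helper3.NilGen.generate (JR M val) (JR_one M val hrange) (JR_anti M val)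
    (JR_mul M val hmul) (M + 1) (JR_bot M val hinj) _
    (Pool.Agent.Helper3.NilGen.closure_form g hg) (S M val) (S_sub M val)
    (JR_le M val hinj hrange) ?_
  rintro n hn c y ⟨w, hw, e⟩
  rcases Nat.lt_or_ge n 6 with h6 | h6
  · left
    let i : Idx := ⟨⟨n - 1, by omega⟩, fun k => w.get ⟨k, by
      have := k.2
      simp only at this
      omega⟩⟩
    have hi : wordOf i = w := by
      apply List.ext_get
      · rw [wordOf_length]; simp only [i]; omega
      · intro k h1 h2
        simp only [wordOf, i, List.get_ofFn]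
        rfl
    refine ⟨g (Fintype.equivFin (Idx × F) (i, c)), Subgroup.subset_closure ⟨_, rfl⟩, ?_⟩
    have h2 : y = r (i, c) := by
      apply hinj
      rw [e, hr, hi]
    simp only [g]
    rw [Equiv.symm_apply_apply, hu, ← h2]
  · right
    rcases X_commutator F M w (by omega) with h0 | ⟨u, v, hu, hv, huv, h⟩
    · refine ⟨1, n - 1, 0, 0, le_rfl, by omega, by omega, Submodule.zero_mem _,
        Submodule.zero_mem _, ?_⟩
      apply hinj
      rw [map_smul, e, h0]
      simp
    · obtain ⟨a, ha⟩ := exists_XR M val hrange u hu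
      obtain ⟨b, hb⟩ := exists_XR M val hrange v hv
      refine ⟨u.length, v.length, c • a, b, hu, hv, by omega, ?_, ?_, ?_⟩
      · refine Submodule.smul_mem _ c ?_
        rw [mem_JR, ha]; exact X_mem_J F M _ u le_rfl
      · rw [mem_JR, hb]; exact X_mem_J F M _ v le_rfl
      · apply hinj
        rw [map_smul, e, h, map_sub, hmul, hmul, map_smul, ha, hb, smul_sub, smul_mul_assoc, mul_smul_comm]

variable (F)

theorem lin_indep (M : ℕ) : LinearIndependent F (fun i : Fin M => X F M (word 0 (i + 1))) := by
  rw [Fintype.linearIndependent_iff]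
  intro c h1 i
  have h2 := congrArg (fun T : E F => T (Pi.single (i + 1 : ℕ) 1) 0) h1
  simp only [LinearMap.sum_apply, LinearMap.smul_apply, Finset.sum_apply, Pi.smul_apply,
    X_apply, word_length, zero_add, LinearMap.zero_apply, Pi.zero_apply, smul_eq_mul] at h2
  rw [Finset.sum_eq_single i] at h2
  · rw [if_pos ⟨Or.inr (by omega), trivial⟩] at h2
    simpa using h2
  · intro j _ hj
    have : (Pi.single (i + 1 : ℕ) 1 : ℕ → F) (j + 1) = 0 := by
      apply Pi.single_eq_of_ne
      intro h
      apply hj
      exact Fin.ext (by omega)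
    rw [this]
    simp
  · intro h
    exact absurd (Finset.mem_univ i) h

/-- the nilpotent algebra. -/
noncomputable def R (M : ℕ) : NonUnitalSubalgebra F (E F) where
  carrier := J F M 1
  add_mem' := (J F M 1).add_mem
  zero_mem' := (J F M 1).zero_mem
  mul_mem' := fun {a b} ha hb => J_anti F M (by omega) (J_mul F M 1 1 a b ha hb)
  smul_mem' := fun c {_} ha => (J F M 1).smul_mem c ha

noncomputable def valR (M : ℕ) : R F M →ₗ[F] E F where
  toFun r := r
  map_add' _ _ := rfl
  map_smul' _ _ := rfl

theorem rank_ge (M : ℕ) : (M : Cardinal) ≤ Module.rank F (R F M) := by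
  have h : LinearIndependent F (fun i : Fin M =>
      (⟨X F M (word 0 (i + 1)), X_mem_J F M 1 _ (by rw [word_length]; omega)⟩ : R F M)) := by
    apply LinearIndependent.of_comp (valR F M)
    exact lin_indep F M
  have := h.cardinal_le_rank
  simpa using this

theorem finite_R (M : ℕ) : Module.Finite F (J F M 1) := by
  have h : J F M 1 = Submodule.span F ((X F M) '' {w : List (Fin 100) | 1 ≤ w.length ∧ w.length ≤ M}) := by
    apply le_antisymm
    · rw [J, Submodule.span_le]
      rintro _ ⟨w, hw, rfl⟩
      rcases Nat.lt_or_ge M w.length with h | h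
      · rw [X_eq_zero_of_length F M w h]; exact Submodule.zero_mem _
      · exact Submodule.subset_span ⟨w, ⟨hw, h⟩, rfl⟩
    · rw [Submodule.span_le]
      rintro _ ⟨w, ⟨hw, _⟩, rfl⟩
      exact X_mem_J F M 1 w hw
  rw [h]
  apply Module.Finite.span_of_finite
  apply Set.Finite.image
  exact (List.finite_length_le (Fin 100) M).subset fun w hw => hw.2

theorem final [Fintype F] (M : ℕ) : ∃ (R : Type) (_ : NonUnitalRing R) (_ : Module F R)
      (_ : IsScalarTower F R R) (_ : SMulCommClass F R R),
      (∃ n : ℕ, ∀ x : Fin n → R,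
        (List.ofFn (fun i => (Unitization.inr (x i) : Unitization F R))).prod = 0) ∧
      (∃ g : Fin (d F) → (Unitization F R)ˣ,
        (∀ i, ∃ r : R, ((g i : (Unitization F R)ˣ) : Unitization F R) = 1 + Unitization.inr r) ∧
        (∀ r : R, ∃ u ∈ Subgroup.closure (Set.range g),
          (u : Unitization F R) = 1 + Unitization.inr r)) ∧
        Module.Finite F R ∧ M ≤ Module.finrank F R := by
  have hrange : ∀ y, y ∈ J F M 1 ↔ ∃ r, valR F M r = y :=
    fun y => ⟨fun hy => ⟨⟨y, hy⟩, rfl⟩, by rintro ⟨r, rfl⟩; exact r.2⟩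
  have hinj : Function.Injective (valR F M) := fun a b h => Subtype.ext h
  have hmul : ∀ a b, valR F M (a * b) = valR F M a * valR F M b := fun _ _ => rfl
  obtain ⟨g, hg, hgen⟩ := main (R := R F M) M (valR F M) hmul hinj hrange
  have hfin : Module.Finite F (R F M) := finite_R F M
  refine ⟨R F M, inferInstance, inferInstance, inferInstance, inferInstance,
    ⟨M + 1, nilp M (valR F M) hmul hinj hrange⟩, ⟨g, hg, hgen⟩, hfin, ?_⟩
  have h := rank_ge F M
  rw [← Module.finrank_eq_rank] at h
  exact_mod_cast h

end Pool.Agent.Helper3.NilAlgF
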