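import Pool.Agent.Helper3.NilAlgF

set_option autoImplicit false
set_option linter.unusedSectionVars false

namespace Pool.Agent.Helper3.NilInf

open Unitization

/-- a field which is finitely generated as an abelian group is finite -/
theorem finite_of_int (F : Type) [Field F] [Module.Finite ℤ F] : Finite F := by
  by_cases hinj : Function.Injective (algebraMap ℤ F)
  · exact absurd (isField_of_isIntegral_of_isField hinj (Field.toIsField F)) Int.not_isField
  · rw [injective_iff_map_eq_zero] at hinj
    push Not at hinj
    obtain ⟨n, hn, hn0⟩ := hinj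
    apply Module.finite_of_fg_torsion
    intro x
    refine ⟨⟨n, mem_nonZeroDivisors_of_ne_zero hn0⟩, ?_⟩
    show n • x = 0
    rw [zsmul_eq_mul]
    have : (n : F) = 0 := by simpa using hn
    rw [this, zero_mul]

variable {F R : Type} [Field F] [NonUnitalRing R] [Module F R] [IsScalarTower F R R]
  [SMulCommClass F R R]

/-- the span of the products of `n + 1` elements -/
noncomputable def P (F R : Type) [Field F] [NonUnitalRing R] [Module F R] (n : ℕ) : Submodule F R :=
  Submodule.span F {y | ∃ l : List R, l.length = n + 1 ∧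
    (l.map (fun y => (inr y : Unitization F R))).prod = inr y}

theorem P_top (h2 : Submodule.span F {y : R | ∃ a b : R, y = a * b} = ⊤) (n : ℕ) : P F R n = ⊤ := by
  induction n with
  | zero =>
    rw [eq_top_iff]
    intro y _
    exact Submodule.subset_span ⟨[y], rfl, by simp⟩
  | succ n ih =>
    rw [eq_top_iff, ← h2, Submodule.span_le]
    rintro _ ⟨a, b, rfl⟩
    have ha : a ∈ P F R n := by rw [ih]; trivial
    show a * b ∈ P F R (n + 1)
    unfold P at ha
    induction ha using Submodule.span_induction with
    | mem a ha =>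
      obtain ⟨l, hl, e⟩ := ha
      refine Submodule.subset_span ⟨l ++ [b], by simp [hl], ?_⟩
      rw [List.map_append, List.prod_append, e]
      simp
    | zero => rw [zero_mul]; exact Submodule.zero_mem _
    | add x y _ _ hx hy => rw [add_mul]; exact Submodule.add_mem _ hx hy
    | smul c x _ hx => rw [smul_mul_assoc]; exact Submodule.smul_mem _ c hx

theorem subsingleton_of_idem
    (h2 : Submodule.span F {y : R | ∃ a b : R, y = a * b} = ⊤)
    (hn : ∃ n : ℕ, ∀ x : Fin n → R,
      (List.ofFn (fun i => (inr (x i) : Unitization F R))).prod = 0) : Subsingleton R := by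
  obtain ⟨n, hn⟩ := hn
  have hP : P F R n = ⊥ := by
    rw [P, Submodule.span_eq_bot]
    rintro y ⟨l, hl, e⟩
    rcases l with _ | ⟨a, l⟩
    · simp at hl
    · have hl' : l.length = n := by simpa using hl
      subst hl'
      have h3 := hn (fun i => l.get i)
      have h4 : (l.map (fun y => (inr y : Unitization F R))) =
          List.ofFn (fun i => (inr (l.get i) : Unitization F R)) := by
        conv_lhs => rw [← List.ofFn_get l, List.map_ofFn]
        rfl
      rw [List.map_cons, List.prod_cons, h4, h3, mul_zero] at e
      have h5 : (inr y : Unitization F R) = inr 0 := by rw [← e, inr_zero]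
      exact inr_injective h5
  have h3 : (⊤ : Submodule F R) = ⊥ := by rw [← P_top h2 n, hP]
  constructor
  intro a b
  have ha : a ∈ (⊥ : Submodule F R) := by rw [← h3]; trivial
  have hb : b ∈ (⊥ : Submodule F R) := by rw [← h3]; trivial
  rw [Submodule.mem_bot] at ha hb
  rw [ha, hb]

theorem inf_case [Infinite F]
    (hn : ∃ n : ℕ, ∀ x : Fin n → R,
      (List.ofFn (fun i => (inr (x i) : Unitization F R))).prod = 0)
    (d : ℕ) (g : Fin d → (Unitization F R)ˣ)
    (hg : ∀ i, ∃ r : R, ((g i : (Unitization F R)ˣ) : Unitization F R) = 1 + inr r)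
    (hgen : ∀ r : R, ∃ u ∈ Subgroup.closure (Set.range g),
      (u : Unitization F R) = 1 + inr r) : Subsingleton R := by
  apply subsingleton_of_idem (F := F) _ hn
  by_contra hne
  set R2 : Submodule F R := Submodule.span F {y : R | ∃ a b : R, y = a * b} with hR2
  have hmul : ∀ a b : R, (R2.mkQ (a * b)) = 0 := by
    intro a b
    rw [Submodule.mkQ_apply, Submodule.Quotient.mk_eq_zero]
    exact Submodule.subset_span ⟨a, b, rfl⟩
  let W := R ⧸ R2
  have hW : Nontrivial W := Submodule.Quotient.nontrivial_iff.mpr hne
  let π : Unitization F R → W := fun u => R2.mkQ u.snd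
  have hform : ∀ u ∈ Subgroup.closure (Set.range g), ∃ r : R, (u : Unitization F R) = 1 + inr r :=
    Pool.Agent.Helper3.NilGen.closure_form g hg
  have hfst : ∀ u ∈ Subgroup.closure (Set.range g), (u : Unitization F R).fst = 1 := by
    intro u hu
    obtain ⟨r, hr⟩ := hform u hu
    rw [hr]; simp
  have hπ : ∀ u v : Unitization F R, u.fst = 1 → v.fst = 1 → π (u * v) = π u + π v := by
    intro u v hu hv
    simp only [π, snd_mul, hu, hv, one_smul, map_add, hmul, add_zero]
    rw [add_comm]
  let C : AddSubgroup W := AddSubgroup.closure (Set.range fun i => π (g i))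
  have hC : ∀ u, u ∈ Subgroup.closure (Set.range g) → π (u : Unitization F R) ∈ C := by
    intro u hu
    induction hu using Subgroup.closure_induction with
    | mem x hx =>
      obtain ⟨i, rfl⟩ := hx
      exact AddSubgroup.subset_closure ⟨i, rfl⟩
    | one => simp [π]
    | mul x y hx hy ihx ihy =>
      rw [Units.val_mul, hπ _ _ (hfst x hx) (hfst y hy)]
      exact C.add_mem ihx ihy
    | inv x hx ih =>
      have h1 : π ((x : Unitization F R) * ((x⁻¹ : (Unitization F R)ˣ) : Unitization F R)) = 0 := by
        rw [Units.mul_inv]; simp [π]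
      rw [hπ _ _ (hfst x hx) (hfst _ (Subgroup.inv_mem _ hx))] at h1
      rw [(neg_eq_of_add_eq_zero_right h1).symm]
      exact C.neg_mem ih
  have hCtop : C = ⊤ := by
    rw [eq_top_iff]
    intro w _
    obtain ⟨r, rfl⟩ := Submodule.mkQ_surjective R2 w
    obtain ⟨u, hu, e⟩ := hgen r
    have := hC u hu
    rw [e] at this
    simpa [π] using this
  have hfg : Module.Finite ℤ W := by
    rw [Module.Finite.iff_addGroup_fg]
    exact ⟨⟨(Set.finite_range fun i => π (g i)).toFinset, by simpa using hCtop⟩⟩
  obtain ⟨w, hw⟩ := exists_ne (0 : W)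
  obtain ⟨f, hf⟩ := Module.Projective.exists_dual_eq_one F hw
  have hsurj : Function.Surjective (f.toAddMonoidHom.toIntLinearMap : W →ₗ[ℤ] F) := by
    intro c
    refine ⟨c • w, ?_⟩
    show f (c • w) = c
    rw [map_smul, hf, smul_eq_mul, mul_one]
  have hF : Module.Finite ℤ F := Module.Finite.of_surjective _ hsurj
  have : Finite F := finite_of_int F
  exact not_finite F

end Pool.Agent.Helper3.NilInf
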