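import Mathlib

set_option autoImplicit false
set_option linter.unusedSectionVars false

namespace Pool.Agent.Helper3.PW

open MeasureTheory Measure Topology Filter Set DomMulAct
open scoped ENNReal RealInnerProductSpace

variable {G : Type} [Group G] [TopologicalSpace G] [IsTopologicalGroup G] [CompactSpace G]
  [T2Space G] [MeasurableSpace G] [BorelSpace G]

/-- `L²(G)`. -/
noncomputable abbrev H (G : Type) [Group G] [TopologicalSpace G] [IsTopologicalGroup G] [CompactSpace G]
  [T2Space G] [MeasurableSpace G] [BorelSpace G] := Lp ℝ 2 (haar : Measure G)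

/-- inclusion of continuous functions. -/
noncomputable abbrev inc : C(G, ℝ) →L[ℝ] H G := ContinuousMap.toLp (E := ℝ) 2 (haar : Measure G) ℝ

/-- kernel. -/
noncomputable def ker (φ : C(G, ℝ)) : C(G, C(G, ℝ)) :=
  ContinuousMap.curry ⟨fun p : G × G => φ (p.1⁻¹ * p.2), by fun_prop⟩

theorem ker_apply (φ : C(G, ℝ)) (x y : G) : ker φ x y = φ (x⁻¹ * y) := rfl

/-- the integral operator with values in continuous functions. -/
noncomputable def T₁ (φ : C(G, ℝ)) : H G →L[ℝ] C(G, ℝ) :=
  LinearMap.mkContinuous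
    { toFun := fun f => ⟨fun x => ⟪inc (ker φ x), f⟫, by fun_prop⟩
      map_add' := fun f g => by
        ext x
        exact inner_add_right (𝕜 := ℝ) (inc (ker φ x) : H G) f g
      map_smul' := fun c f => by
        ext x
        exact real_inner_smul_right (inc (ker φ x) : H G) f c }
    (‖(inc : C(G, ℝ) →L[ℝ] H G)‖ * ‖ker φ‖) (by
      intro f
      rw [ContinuousMap.norm_le _ (by positivity)]
      intro x
      calc ‖⟪inc (ker φ x), f⟫‖ ≤ ‖inc (ker φ x)‖ * ‖f‖ := norm_inner_le_norm _ _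
        _ ≤ (‖(inc : C(G, ℝ) →L[ℝ] H G)‖ * ‖ker φ x‖) * ‖f‖ := by
          gcongr
          exact ContinuousLinearMap.le_opNorm _ _
        _ ≤ _ := by
          gcongr
          exact ContinuousMap.norm_coe_le_norm _ _)

theorem T₁_apply (φ : C(G, ℝ)) (f : H G) (x : G) : T₁ φ f x = ⟪inc (ker φ x), f⟫ := rfl

/-- the integral operator on `L²`. -/
noncomputable def T (φ : C(G, ℝ)) : H G →L[ℝ] H G := inc.comp (T₁ φ)

theorem T_inc_apply (φ : C(G, ℝ)) (f : H G) : T φ f = inc (T₁ φ f) := rfl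

theorem inner_inc (f g : C(G, ℝ)) : ⟪(inc f : H G), inc g⟫ = ∫ x, f x * g x ∂(haar : Measure G) := by
  rw [ContinuousMap.inner_toLp]
  simp [mul_comm]

theorem T_symm (φ : C(G, ℝ)) (hφ : ∀ x, φ x⁻¹ = φ x) : (T φ : H G →ₗ[ℝ] H G).IsSymmetric := by
  intro f g
  have hd : DenseRange (inc : C(G, ℝ) →L[ℝ] H G) :=
    ContinuousMap.toLp_denseRange ℝ (haar : Measure G) ℝ (by norm_num)
  refine hd.induction_on₂ (p := fun f g => ⟪T φ f, g⟫ = ⟪f, T φ g⟫) ?_ ?_ f g
  · apply isClosed_eq <;> fun_prop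
  · intro f g
    rw [T_inc_apply, T_inc_apply, inner_inc, inner_inc]
    simp only [T₁_apply, inner_inc, ker_apply]
    have h1 : ∀ x, (∫ y, φ (x⁻¹ * y) * f y ∂(haar : Measure G)) * g x =
        ∫ y, φ (x⁻¹ * y) * f y * g x ∂(haar : Measure G) := fun x => by
      rw [integral_mul_const]
    have h2 : ∀ x, f x * (∫ y, φ (x⁻¹ * y) * g y ∂(haar : Measure G)) =
        ∫ y, f x * (φ (x⁻¹ * y) * g y) ∂(haar : Measure G) := fun x => by
      rw [integral_const_mul]
    simp only [h1, h2]
    rw [integral_integral_swap_of_hasCompactSupport]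
    · congr 1
      funext x
      congr 1
      funext y
      have : φ (y⁻¹ * x) = φ (x⁻¹ * y) := by
        rw [← hφ (y⁻¹ * x)]
        congr 1
        group
      rw [this]
      ring
    · fun_prop
    · exact HasCompactSupport.of_compactSpace _

theorem T_compact (φ : C(G, ℝ)) : IsCompactOperator (T φ : H G → H G) := by
  set L : H G →L[ℝ] BoundedContinuousFunction G ℝ :=
    ((ContinuousMap.linearIsometryBoundedOfCompact G ℝ ℝ).toContinuousLinearEquiv :
      C(G, ℝ) →L[ℝ] BoundedContinuousFunction G ℝ).comp (T₁ φ) with hL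
  have hLapp : ∀ f x, L f x = ⟪(inc (ker φ x) : H G), f⟫ := fun f x => rfl
  have hLc : IsCompactOperator L := by
    refine (isCompactOperator_iff_isCompact_closure_image_closedBall L.toLinearMap one_pos).mpr ?_
    have hC : ∀ f ∈ Metric.closedBall (0 : H G) 1, ∀ x, L f x ∈ Metric.closedBall (0:ℝ) ‖L‖ := by
      intro f hf x
      rw [mem_closedBall_zero_iff] at hf ⊢
      calc ‖L f x‖ ≤ ‖L f‖ := (L f).norm_coe_le_norm x
        _ ≤ ‖L‖ * ‖f‖ := L.le_opNorm f
        _ ≤ ‖L‖ * 1 := by gcongr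
        _ = ‖L‖ := mul_one _
    apply BoundedContinuousFunction.arzela_ascoli (Metric.closedBall (0:ℝ) ‖L‖)
      (isCompact_closedBall _ _)
    · rintro _ x ⟨f, hf, rfl⟩
      exact hC f hf x
    · intro x₀
      rw [Metric.equicontinuousAt_iff_right]
      intro ε hε
      have hc : Continuous (fun x => (inc (ker φ x) : H G)) := by fun_prop
      have h1 := Metric.continuousAt_iff'.mp (hc.continuousAt (x := x₀)) ε hε
      filter_upwards [h1] with x hx
      rintro ⟨_, f, hf, rfl⟩
      have hf' : ‖f‖ ≤ 1 := by simpa using hf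
      show dist (L f x₀) (L f x) < ε
      rw [hLapp, hLapp, dist_comm, Real.dist_eq, ← inner_sub_left]
      calc |⟪(inc (ker φ x) : H G) - inc (ker φ x₀), f⟫| ≤
          ‖(inc (ker φ x) : H G) - inc (ker φ x₀)‖ * ‖f‖ := abs_real_inner_le_norm _ _
        _ ≤ ‖(inc (ker φ x) : H G) - inc (ker φ x₀)‖ * 1 := by gcongr
        _ < ε := by rw [mul_one, ← dist_eq_norm]; exact hx
  have h2 : (T φ : H G → H G) = (inc.comp
      ((ContinuousMap.linearIsometryBoundedOfCompact G ℝ ℝ).symm.toContinuousLinearEquiv :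
        BoundedContinuousFunction G ℝ →L[ℝ] C(G, ℝ))) ∘ L := by
    funext f
    simp [hL, T]
  rw [h2]
  exact hLc.clm_comp _

/-- left translation on `L²`. -/
noncomputable def tr (g : G) (f : H G) : H G := (mk g⁻¹ : Gᵈᵐᵃ) • f

/-- left translation on continuous functions. -/
def trC (g : G) (f : C(G, ℝ)) : C(G, ℝ) := ⟨fun x => f (g⁻¹ * x), by fun_prop⟩

theorem tr_inc (g : G) (f : C(G, ℝ)) : tr g (inc f : H G) = inc (trC g f) := by
  rfl

theorem tr_add (g : G) (f f' : H G) : tr g (f + f') = tr g f + tr g f' := smul_add _ _ _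

theorem tr_smul (g : G) (c : ℝ) (f : H G) : tr g (c • f) = c • tr g f := smul_comm _ _ _

theorem tr_one (f : H G) : tr 1 f = f := by
  unfold tr
  rw [inv_one]
  exact one_smul _ f

theorem tr_mul (g g' : G) (f : H G) : tr (g * g') f = tr g (tr g' f) := by
  unfold tr
  rw [smul_smul, mul_inv_rev]
  rfl

theorem norm_tr (g : G) (f : H G) : ‖tr g f‖ = ‖f‖ := norm_smul_Lp _ _

theorem tr_continuous (f : H G) : Continuous (fun g : G => tr g f) := by
  unfold tr
  have h : Continuous (fun g : G => (mk g⁻¹ : Gᵈᵐᵃ)) := by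
    exact (DomMulAct.continuous_mk).comp continuous_inv
  have h2 : Fact ((2:ℝ≥0∞) ≠ ∞) := ⟨by norm_num⟩
  exact h.smul continuous_const

/-- left translation as a linear isometry. -/
noncomputable def trL (g : G) : H G →ₗᵢ[ℝ] H G where
  toFun := tr g
  map_add' := tr_add g
  map_smul' := tr_smul g
  norm_map' := norm_tr g

theorem inner_tr (g : G) (f f' : H G) : ⟪tr g f, tr g f'⟫ = ⟪f, f'⟫ := (trL g).inner_map_map f f'

theorem ker_tr (φ : C(G, ℝ)) (g x : G) : tr g (inc (ker φ x) : H G) = inc (ker φ (g * x)) := by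
  rw [tr_inc]
  congr 1
  ext y
  show φ (x⁻¹ * (g⁻¹ * y)) = φ ((g * x)⁻¹ * y)
  congr 1
  group

theorem T₁_tr (φ : C(G, ℝ)) (g : G) (f : H G) (x : G) : T₁ φ (tr g f) x = T₁ φ f (g⁻¹ * x) := by
  rw [T₁_apply, T₁_apply, ← inner_tr g⁻¹, ← tr_mul, inv_mul_cancel, tr_one, ker_tr]

theorem T_tr (φ : C(G, ℝ)) (g : G) (f : H G) : T φ (tr g f) = tr g (T φ f) := by
  rw [T_inc_apply, T_inc_apply, tr_inc]
  congr 1
  ext x
  exact T₁_tr φ g f x

theorem exists_phi (a : G) (ha : a ≠ 1) :
    ∃ φ : C(G, ℝ), (∀ x, φ x⁻¹ = φ x) ∧ φ 1 = 1 ∧ φ a = 0 := by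
  obtain ⟨f, hf0, hf1, -⟩ := exists_continuous_zero_one_of_isClosed (isClosed_singleton (x := a))
    (isClosed_singleton (x := (1 : G))) (by simpa using ha)
  refine ⟨⟨fun x => f x * f x⁻¹, by fun_prop⟩, ?_, ?_, ?_⟩
  · intro x
    simp [mul_comm]
  · have : f 1 = 1 := hf1 rfl
    simp [this]
  · have : f a = 0 := hf0 rfl
    simp [this]

/-- key step of Peter–Weyl. -/
theorem exists_eigen (a : G) (ha : a ≠ 1) : ∃ (φ : C(G, ℝ)) (c : ℝ), c ≠ 0 ∧
    (T φ : H G →ₗ[ℝ] H G).IsSymmetric ∧
    ∃ f : H G, f ∈ Module.End.eigenspace (T φ : Module.End ℝ (H G)) c ∧ tr a f ≠ f := by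
  obtain ⟨φ, hφ, h1, h0⟩ := exists_phi a ha
  by_contra hcon
  push Not at hcon
  have hs := T_symm φ hφ
  have key := ContinuousLinearMap.orthogonalComplement_iSup_eigenspaces_eq_bot (T_compact φ) hs
  set w : H G := inc (ker φ a) - inc (ker φ 1) with hw
  have hwm : w ∈ (⨆ c, Module.End.eigenspace (T φ : Module.End ℝ (H G)) c)ᗮ := by
    rw [Submodule.mem_orthogonal']
    intro u hu
    induction hu using Submodule.iSup_induction' with
    | mem c f hf =>
      rw [hw, inner_sub_left, ← T₁_apply, ← T₁_apply, sub_eq_zero]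
      by_cases hc : c = 0
      · subst hc
        rw [Module.End.mem_eigenspace_iff, zero_smul] at hf
        have h2 : inc (T₁ φ f) = (0 : H G) := hf
        have h3 : T₁ φ f = 0 := by
          apply ContinuousMap.toLp_injective (𝕜 := ℝ) (p := 2) (haar : Measure G)
          rw [map_zero]
          exact h2
        rw [h3]; rfl
      · have h2 : tr a f = f := hcon φ c hc hs f hf
        have h3 := T₁_tr φ a f a
        rw [h2, inv_mul_cancel] at h3
        exact h3
    | zero => exact inner_zero_right _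
    | add u v _ _ hu hv => rw [inner_add_right, hu, hv, add_zero]
  rw [key, Submodule.mem_bot, hw, sub_eq_zero] at hwm
  have h4 : ker φ a = ker φ 1 :=
    ContinuousMap.toLp_injective (𝕜 := ℝ) (p := 2) (haar : Measure G) hwm
  have h5 := congrArg (fun f : C(G, ℝ) => f a) h4
  simp only [ker_apply, inv_mul_cancel, inv_one, one_mul] at h5
  rw [h1, h0] at h5
  exact one_ne_zero h5

/-- **Peter–Weyl**: finite-dimensional orthogonal representations separate points. -/
theorem peter_weyl (a : G) (ha : a ≠ 1) : ∃ (V : Submodule ℝ (H G)) (_ : FiniteDimensional ℝ V)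
    (ρ : G →* (V →L[ℝ] V)), Continuous ρ ∧ (∀ g v, ‖ρ g v‖ = ‖v‖) ∧ ρ a ≠ 1 := by
  obtain ⟨φ, c, hc, hs, f, hf, hfa⟩ := exists_eigen a ha
  set V : Submodule ℝ (H G) := Module.End.eigenspace (T φ : Module.End ℝ (H G)) c with hV
  have hfin : FiniteDimensional ℝ V :=
    ContinuousLinearMap.finite_dimensional_eigenspace (T_compact φ) c hc
  have hinv : ∀ (g : G) (v : H G), v ∈ V → tr g v ∈ V := by
    intro g v hv
    rw [hV, Module.End.mem_eigenspace_iff] at hv ⊢
    have h1 : T φ v = c • v := hv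
    show T φ (tr g v) = c • tr g v
    rw [T_tr, h1, tr_smul]
  let R : G → (V →L[ℝ] V) := fun g =>
    LinearMap.toContinuousLinearMap
      { toFun := fun v => ⟨tr g v, hinv g v v.2⟩
        map_add' := fun v w => Subtype.ext (tr_add g v w)
        map_smul' := fun r v => Subtype.ext (tr_smul g r v) }
  have hR : ∀ g v, ((R g v : V) : H G) = tr g v := fun g v => rfl
  let ρ : G →* (V →L[ℝ] V) :=
    { toFun := R
      map_one' := by
        ext v
        rw [hR, tr_one]
        rfl
      map_mul' := fun g g' => by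
        apply ContinuousLinearMap.ext
        intro v
        apply Subtype.ext
        rw [hR, tr_mul]
        rfl }
  refine ⟨V, hfin, ρ, ?_, ?_, ?_⟩
  · rw [continuous_clm_apply]
    intro v
    apply Continuous.subtype_mk
    exact tr_continuous _
  · intro g v
    exact norm_tr g v
  · intro h
    apply hfa
    have h1 : ρ a ⟨f, hf⟩ = ⟨f, hf⟩ := by rw [h]; rfl
    exact congrArg Subtype.val h1

end Pool.Agent.Helper3.PW
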