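import Mathlib

set_option autoImplicit false

namespace Pool.Agent.Helper3.RotWord

/-- If `c + s * τ` is within `1/100` of an integer for all `s ≤ ℓ`, then `ℓ * τ` is within `1/50` of
`ℓ` times an integer. -/
theorem drift (c τ : ℝ) (ℓ : ℕ) (k : ℕ → ℤ)
    (h : ∀ s : ℕ, s ≤ ℓ → |c + s * τ - k s| < 1 / 100) :
    ∃ K : ℤ, |(ℓ : ℝ) * (τ - K)| < 1 / 50 := by
  refine ⟨k 1 - k 0, ?_⟩
  have key : ∀ s : ℕ, s ≤ ℓ → k s = k 0 + s * (k 1 - k 0) := by
    intro s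
    induction s with
    | zero => intro _; simp
    | succ s ih =>
      intro hs
      have h1 := h s (by omega)
      have h2 := h (s + 1) hs
      have h3 := h 0 (by omega)
      have h4 := h 1 (by omega)
      have e := ih (by omega)
      rw [abs_lt] at h1 h2 h3 h4
      push_cast at h2 h3 h4
      have : |((k (s + 1) - k s - (k 1 - k 0) : ℤ) : ℝ)| < 1 := by
        push_cast
        rw [abs_lt]
        constructor <;> linarith
      have h5 : |k (s + 1) - k s - (k 1 - k 0)| < 1 := by exact_mod_cast this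
      have h6 : k (s + 1) - k s - (k 1 - k 0) = 0 := Int.abs_lt_one_iff.mp h5
      push_cast
      linarith
  have h0 := h 0 (by omega)
  have h1 := h ℓ le_rfl
  have e := key ℓ le_rfl
  have e' : (k ℓ : ℝ) = k 0 + ℓ * (k 1 - k 0) := by rw [e]; push_cast; ring
  rw [abs_lt] at h0 h1 ⊢
  push_cast at h0 ⊢
  rw [e'] at h1
  constructor <;> nlinarith

/-- the letter at position `i`. -/
noncomputable def ω (i : ℕ) : Fin 100 :=
  ⟨⌊100 * Int.fract (√2 * (i : ℝ) ^ 2)⌋₊, by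
    have h0 := Int.fract_nonneg (√2 * (i : ℝ) ^ 2)
    have h1 := Int.fract_lt_one (√2 * (i : ℝ) ^ 2)
    rw [Nat.floor_lt (by positivity)]
    push_cast
    linarith⟩

theorem close_of_eq {i j : ℕ} (h : ω i = ω j) :
    ∃ k : ℤ, |√2 * (i : ℝ) ^ 2 - √2 * (j : ℝ) ^ 2 - k| < 1 / 100 := by
  refine ⟨⌊√2 * (i : ℝ) ^ 2⌋ - ⌊√2 * (j : ℝ) ^ 2⌋, ?_⟩
  have hi0 := Int.fract_nonneg (√2 * (i : ℝ) ^ 2)
  have hj0 := Int.fract_nonneg (√2 * (j : ℝ) ^ 2)
  have h' : ⌊100 * Int.fract (√2 * (i : ℝ) ^ 2)⌋₊ = ⌊100 * Int.fract (√2 * (j : ℝ) ^ 2)⌋₊ := by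
    have := congrArg Fin.val h
    simpa [ω] using this
  have a1 := Nat.floor_le (show 0 ≤ 100 * Int.fract (√2 * (i : ℝ) ^ 2) by positivity)
  have a2 := Nat.lt_floor_add_one (100 * Int.fract (√2 * (i : ℝ) ^ 2))
  have b1 := Nat.floor_le (show 0 ≤ 100 * Int.fract (√2 * (j : ℝ) ^ 2) by positivity)
  have b2 := Nat.lt_floor_add_one (100 * Int.fract (√2 * (j : ℝ) ^ 2))
  rw [h'] at a1 a2
  have e1 := Int.self_sub_floor (√2 * (i : ℝ) ^ 2)
  have e2 := Int.self_sub_floor (√2 * (j : ℝ) ^ 2)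
  push_cast
  rw [abs_lt]
  constructor <;> linarith

/-- Equality of two factors of length `ℓ + 1` forces closeness. -/
theorem factor_close (m a ℓ : ℕ) (h : ∀ s, s ≤ ℓ → ω (m + s) = ω (a + s)) :
    ∃ K : ℤ, |(ℓ : ℝ) * (2 * √2 * ((m : ℝ) - a) - K)| < 1 / 50 := by
  have h' : ∀ s : ℕ, ∃ k : ℤ, s ≤ ℓ →
      |√2 * ((m : ℝ) ^ 2 - (a : ℝ) ^ 2) + s * (2 * √2 * ((m : ℝ) - a)) - k| < 1 / 100 := by
    intro s
    by_cases hs : s ≤ ℓ
    · obtain ⟨k, hk⟩ := close_of_eq (h s hs)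
      refine ⟨k, fun _ => ?_⟩
      convert hk using 2
      push_cast
      ring
    · exact ⟨0, fun h => absurd h hs⟩
  choose k hk using h'
  exact drift _ _ ℓ k hk

theorem badly (n : ℕ) (hn : 1 ≤ n) (K : ℤ) : 1 / (6 * (n : ℝ) + 1) ≤ |2 * √2 * n - K| := by
  by_contra hcon
  push Not at hcon
  have hn' : (1 : ℝ) ≤ n := by exact_mod_cast hn
  have hs : √2 ^ 2 = 2 := Real.sq_sqrt (by norm_num)
  have hs0 : 0 ≤ √2 := Real.sqrt_nonneg 2
  have hs1 : √2 < 1.5 := by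
    rw [Real.sqrt_lt' (by norm_num)]; norm_num
  have hpos : (0 : ℝ) < 6 * n + 1 := by positivity
  have hlt1 : 1 / (6 * (n : ℝ) + 1) ≤ 1 := by
    rw [div_le_one hpos]; linarith
  have h1 : |2 * √2 * n + K| < 6 * n + 1 := by
    have : (2 * √2 * n + K : ℝ) = 4 * √2 * n - (2 * √2 * n - K) := by ring
    rw [this]
    calc |4 * √2 * n - (2 * √2 * n - K)| ≤ |4 * √2 * n| + |2 * √2 * n - K| := abs_sub _ _
      _ < 6 * n + 1 := by
        rw [abs_of_nonneg (by positivity)]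
        nlinarith
  have h2 : |((8 * (n : ℤ) ^ 2 - K ^ 2 : ℤ) : ℝ)| < 1 := by
    have e : ((8 * (n : ℤ) ^ 2 - K ^ 2 : ℤ) : ℝ) = (2 * √2 * n - K) * (2 * √2 * n + K) := by
      push_cast
      have : (8 : ℝ) * n ^ 2 = 4 * (√2 ^ 2) * n ^ 2 := by rw [hs]; ring
      rw [this]; ring
    rw [e, abs_mul]
    calc |2 * √2 * n - K| * |2 * √2 * n + K| ≤ |2 * √2 * n - K| * (6 * n + 1) :=
          mul_le_mul_of_nonneg_left h1.le (abs_nonneg _)
      _ < 1 / (6 * (n : ℝ) + 1) * (6 * n + 1) := mul_lt_mul_of_pos_right hcon hpos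
      _ = 1 := by field_simp
  have h3 : |8 * (n : ℤ) ^ 2 - K ^ 2| < 1 := by exact_mod_cast h2
  have h4 : 8 * (n : ℤ) ^ 2 - K ^ 2 = 0 := Int.abs_lt_one_iff.mp h3
  -- irrationality of √2
  have h5 : ((K : ℝ) / (2 * n)) ^ 2 = 2 := by
    have : (8 : ℝ) * n ^ 2 - K ^ 2 = 0 := by exact_mod_cast h4
    field_simp
    linarith
  have h6 : |(K : ℝ) / (2 * n)| = √2 := by
    rw [← Real.sqrt_sq_eq_abs, h5]
  have h7 : Irrational √2 := irrational_sqrt_two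
  apply h7
  refine ⟨|(K : ℚ) / (2 * n)|, ?_⟩
  rw [← h6]
  push_cast
  rfl

/-- Key property: any factor of length `n ≥ 6` has a rotation which is not a factor. -/
theorem rotation (i n : ℕ) (hn : 6 ≤ n) :
    ¬ ∃ m : ℕ, (∀ s, s < n - n / 2 → ω (m + s) = ω (i + n / 2 + s)) ∧
      (∀ s, s < n / 2 → ω (m + (n - n / 2) + s) = ω (i + s)) := by
  rintro ⟨m, h1, h2⟩
  set j := n / 2 with hj
  obtain ⟨l, hl⟩ : ∃ l, j = l + 1 := ⟨j - 1, by omega⟩
  obtain ⟨K1, hK1⟩ := factor_close m (i + j) l (fun s hs => h1 s (by omega))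
  obtain ⟨K2, hK2⟩ := factor_close (m + (n - j)) i l (fun s hs => h2 s (by omega))
  have hb := badly n (by omega) (K2 - K1)
  have hnj : j ≤ n := by omega
  have e : (l : ℝ) * (2 * √2 * n - (K2 - K1 : ℤ)) =
      (l : ℝ) * (2 * √2 * (((m + (n - j) : ℕ) : ℝ) - i) - K2) -
      (l : ℝ) * (2 * √2 * ((m : ℝ) - ((i + j : ℕ) : ℝ)) - K1) := by
    push_cast [Nat.cast_sub hnj]
    ring
  have h3 : |(l : ℝ) * (2 * √2 * n - (K2 - K1 : ℤ))| < 1 / 25 := by
    rw [e]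
    calc _ ≤ _ := abs_sub _ _
      _ < 1 / 50 + 1 / 50 := add_lt_add hK2 hK1
      _ = 1 / 25 := by norm_num
  rw [abs_mul, abs_of_nonneg (by positivity : (0 : ℝ) ≤ l)] at h3
  have h4 : (l : ℝ) * (1 / (6 * (n : ℝ) + 1)) < 1 / 25 :=
    lt_of_le_of_lt (mul_le_mul_of_nonneg_left hb (by positivity)) h3
  have hpos : (0 : ℝ) < 6 * n + 1 := by positivity
  have h5 : (l : ℝ) < 1 / 25 * (6 * n + 1) := by
    have := mul_lt_mul_of_pos_right h4 hpos
    have e2 : (l : ℝ) * (1 / (6 * (n : ℝ) + 1)) * (6 * n + 1) = l := by field_simp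
    rw [e2] at this
    exact this
  have h6 : (25 * l : ℝ) < 6 * n + 1 := by linarith
  have h7 : 25 * l < 6 * n + 1 := by exact_mod_cast h6
  omega

end Pool.Agent.Helper3.RotWord
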